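import Pool.Agent.Run7.h193.FM10
import Pool.Agent.NH37.AF.Deg

set_option autoImplicit false

/-!
# Divisors of degree zero on the F-curves with two parts disjoint from five marks: the strata
-/

namespace Pool.Agent.Run7.h193.FM

open Finset Pool.Agent.NH37.FC Pool.Agent.NH37.SL Pool.Agent.NH37.MF

variable {n r : ℕ}

/-- Degree zero on the F-curves with two parts disjoint from `H`. -/
def LZ (H : Finset (Fin n)) (c : Finset (Fin n) → ℝ) : Prop :=
  ∀ A B C D : Finset (Fin n), A.Nonempty → B.Nonempty → C.Nonempty → D.Nonempty →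
    Disjoint A B → Disjoint A C → Disjoint A D → Disjoint B C → Disjoint B D → Disjoint C D →
    A ∪ B ∪ C ∪ D = univ → Disjoint A H → Disjoint B H →
    c A + c B + c C + c D = c (A ∪ B) + c (A ∪ C) + c (A ∪ D)

theorem fdeg_zero {c : Finset (Fin n) → ℝ} {H : Finset (Fin n)} (hc : IsDivisor c) (hz : LZ H c)
    {A B C : Finset (Fin n)} (h1 : Disjoint A B) (h2 : Disjoint A C) (h3 : Disjoint B C)
    (hA : Disjoint A H) (hB : Disjoint B H) : fdeg c A B C = 0 := by
  unfold fdeg
  rcases A.eq_empty_or_nonempty with e | nA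
  · rw [e, empty_union, empty_union, hc.1]
    ring
  rcases B.eq_empty_or_nonempty with e | nB
  · rw [e, union_empty, empty_union, hc.1]
    ring
  rcases C.eq_empty_or_nonempty with e | nC
  · rw [e, union_empty, union_empty, union_empty, hc.1]
    ring
  set D := (A ∪ B ∪ C)ᶜ with hD
  have hDc : c D = c (A ∪ B ∪ C) := hc.2 _
  have hAD : c (A ∪ D) = c (B ∪ C) := by
    rw [← hc.2 (B ∪ C)]
    congr 1
    ext x
    rw [hD]
    simp only [mem_union, mem_compl]
    have a1 : x ∈ A → x ∉ B := fun h => disjoint_left.1 h1 h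
    have a2 : x ∈ A → x ∉ C := fun h => disjoint_left.1 h2 h
    tauto
  rcases D.eq_empty_or_nonempty with e | hDn
  · have hu : A ∪ B ∪ C = univ := by
      rw [hD, compl_eq_empty_iff] at e
      exact e
    have k0 : c (A ∪ B ∪ C) = 0 := by rw [← hDc, e]; exact hc.1
    have hmem : ∀ x, x ∈ A ∨ x ∈ B ∨ x ∈ C := fun x => by
      have : x ∈ A ∪ B ∪ C := by rw [hu]; exact mem_univ x
      simp only [mem_union] at this
      tauto
    have k1 : c (A ∪ B) = c C := by
      rw [← hc.2 C]
      congr 1
      ext x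
      have := hmem x
      simp only [mem_union, mem_compl]
      have a2 : x ∈ A → x ∉ C := fun h => disjoint_left.1 h2 h
      have a3 : x ∈ B → x ∉ C := fun h => disjoint_left.1 h3 h
      tauto
    have k2 : c (A ∪ C) = c B := by
      rw [← hc.2 B]
      congr 1
      ext x
      have := hmem x
      simp only [mem_union, mem_compl]
      have a2 : x ∈ A → x ∉ B := fun h => disjoint_left.1 h1 h
      have a3 : x ∈ B → x ∉ C := fun h => disjoint_left.1 h3 h
      tauto
    have k3 : c (B ∪ C) = c A := by rw [← hAD, e, union_empty]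
    rw [k0, k1, k2, k3]
    ring
  · have := hz A B C D nA nB nC hDn h1 h2
      (disjoint_compl_right.mono_left (subset_union_left.trans subset_union_left)) h3
      (disjoint_compl_right.mono_left (subset_union_right.trans subset_union_left))
      (disjoint_compl_right.mono_left subset_union_right) (by rw [hD, union_compl]) hA hB
    rw [hAD, hDc] at this
    linarith

/-- The restriction of `c` to the factor of a stratum is linearly equivalent to the effective sum
`∑ (c (⋃ S) + cut G S) • δ_S` of boundary divisors. -/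
def EffS (c : Finset (Fin n) → ℝ) (B : Fin r → Finset (Fin n)) : Prop :=
  ∃ G : Fin r → Fin r → ℝ, (∀ i j, G i j = G j i) ∧
    (∀ i, c (B i) + ct G {i} = 0) ∧ ∀ S : Finset (Fin r), 0 ≤ c (S.biUnion B) + ct G S

/-- Divisors on the stratum itself. -/
theorem eff_of_card {g : Finset (Fin r) → ℝ} {H : Finset (Fin r)} (hg : IsDivisor g)
    (hF : FNef g) (hz : ∀ A B C, Disjoint A B → Disjoint A C → Disjoint B C → Disjoint A H →
      Disjoint B H → fdeg g A B C = 0) (hH : H.card = 5) :
    ∃ G : Fin r → Fin r → ℝ, (∀ i j, G i j = G j i) ∧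
      (∀ i, g {i} + ct G {i} = 0) ∧ ∀ S : Finset (Fin r), 0 ≤ g S + ct G S := by
  obtain ⟨W, hW, N⟩ := normalise hg hF hz
  have hmap : (univ : Finset (Fin 5)).map (H.orderEmbOfFin hH).toEmbedding = H :=
    map_orderEmbOfFin_univ H hH
  have N' : Norm (fun S => g S + ct W S)
      ((univ : Finset (Fin 5)).map (H.orderEmbOfFin hH).toEmbedding) := by
    rw [hmap]
    exact N
  obtain ⟨W', hW', h1, h2⟩ := main5 N'
  refine ⟨fun a b => W a b + W' a b, fun a b => ?_, fun i => ?_, fun S => ?_⟩
  · simp only
    rw [hW, hW']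
  · rw [ct_add, ← h1 i]
    ring
  · rw [ct_add]
    have := h2 S
    linarith

theorem heavy_card {B : Fin r → Finset (Fin n)} (hB : IsPartition B) (H : Finset (Fin n)) :
    (univ.filter fun l => ¬ Disjoint (B l) H).card ≤ H.card := by
  have hidx : ∀ x : Fin n, ∃ l, x ∈ B l := fun x => by
    have : x ∈ univ.biUnion B := by rw [hB.2.2]; exact mem_univ x
    obtain ⟨l, _, h⟩ := mem_biUnion.1 this
    exact ⟨l, h⟩
  choose idx hx using hidx
  refine (card_le_card (t := H.image idx) fun l hl => ?_).trans card_image_le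
  rw [mem_filter, not_disjoint_iff] at hl
  obtain ⟨_, x, h1, h2⟩ := hl
  refine mem_image.2 ⟨x, h2, ?_⟩
  by_contra hne
  exact disjoint_left.1 (hB.2.1 _ _ hne) (hx x) h1

theorem eff_strata {c : Finset (Fin n) → ℝ} {H : Finset (Fin n)} (hH : H.card ≤ 5)
    (hc : IsDivisor c) (hF : FNef c) (hz : LZ H c) (hr : 4 ≤ r) {B : Fin r → Finset (Fin n)}
    (hB : IsPartition B) : EffS c B := by
  have hBw : IsWeak B := ⟨hB.2.1, hB.2.2⟩
  have hg := pull_isDivisor hc hBw
  have hgF := pull_fnef hc hF hBw
  have hsb : ∀ i, c (({i} : Finset (Fin r)).biUnion B) = c (B i) := fun i => by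
    rw [singleton_biUnion]
  rcases Nat.lt_or_ge r 5 with h5 | h5
  · obtain rfl : r = 4 := by omega
    obtain ⟨G, h1, h2, h3⟩ := eff4 (b := fun S => c (S.biUnion B)) hg.1 hg.2 (by
      have := hgF {0} {1} {2} {3} (singleton_nonempty _) (singleton_nonempty _)
        (singleton_nonempty _) (singleton_nonempty _) (by decide) (by decide) (by decide)
        (by decide) (by decide) (by decide) (by decide)
      simp only [← insert_eq] at this
      linarith)
    exact ⟨G, h1, fun i => by rw [← hsb i]; exact h2 i, h3⟩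
  · obtain ⟨H', h1, -, h3⟩ := exists_subsuperset_card_eq
      (subset_univ (univ.filter fun l => ¬ Disjoint (B l) H)) ((heavy_card hB H).trans hH)
      (by rw [card_univ, Fintype.card_fin]; exact h5)
    have hdis : ∀ A : Finset (Fin r), Disjoint A H' → Disjoint (A.biUnion B) H := by
      intro A hA
      rw [disjoint_biUnion_left]
      intro l hl
      by_contra hn
      exact disjoint_left.1 hA hl (h1 (mem_filter.2 ⟨mem_univ l, hn⟩))
    obtain ⟨G, k1, k2, k3⟩ := eff_of_card (g := fun S => c (S.biUnion B)) hg hgF (H := H')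
      (fun X Y V d1 d2 d3 d4 d5 => by
        have := fdeg_zero hc hz (biUnion_disj hBw d1) (biUnion_disj hBw d2) (biUnion_disj hBw d3)
          (hdis X d4) (hdis Y d5)
        unfold fdeg at this ⊢
        simp only [union_biUnion]
        exact this) h3
    exact ⟨G, k1, fun i => by rw [← hsb i]; exact k2 i, k3⟩

theorem nef_of_effS {c : Finset (Fin n) → ℝ} {B : Fin r → Finset (Fin n)} (hr : 4 ≤ r)
    (h : EffS c B) {m : Finset (Fin r) → ℝ} {ψ : Fin r → ℝ} (hC : IsCurve m ψ) :
    0 ≤ degree c B m ψ := by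
  obtain ⟨G, hG, hG1, hG2⟩ := h
  rw [Pool.Agent.NH37.AF.degree_gauge hC (by omega) hG
    (v := fun S => c (S.biUnion B) + ct G S) (fun S => rfl)
    (fun i => by rw [singleton_biUnion]; exact hG1 i)]
  exact div_nonneg (sum_nonneg fun S _ => mul_nonneg (hG2 S) (hC.1 S)) (by norm_num)

end Pool.Agent.Run7.h193.FM
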