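import Pool.Agent.Run7.h193.BraidDefs

namespace Run7.h193

theorem asc_of_le {n i j : ℕ} (h : j ≤ i) : ascending n i j = 1 := by
  simp [ascending, Nat.sub_eq_zero_of_le h]

theorem asc_left {n i j : ℕ} (h : i < j) :
    ascending n i j = sig n i * ascending n (i + 1) j := by
  unfold ascending
  obtain ⟨d, rfl⟩ := Nat.exists_eq_add_of_lt h
  have h1 : i + d + 1 - i = d + 1 := by omega
  have h2 : i + d + 1 - (i + 1) = d := by omega
  rw [h1, h2, List.range'_succ]
  simp

theorem asc_right {n i j : ℕ} (h : i ≤ j) :
    ascending n i (j + 1) = ascending n i j * sig n j := by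
  unfold ascending
  obtain ⟨d, rfl⟩ := Nat.exists_eq_add_of_le h
  have h1 : i + d + 1 - i = d + 1 := by omega
  have h2 : i + d - i = d := by omega
  rw [h1, h2, List.range'_concat]
  simp

theorem asc_single {n i : ℕ} : ascending n i (i + 1) = sig n i := by
  rw [asc_right le_rfl, asc_of_le le_rfl, one_mul]

theorem asc_comm_low {n l i j : ℕ} (h : l + 2 ≤ i) (hj : j ≤ n) :
    sig n l * ascending n i j = ascending n i j * sig n l := by
  rcases le_total j i with hij | hij
  · rw [asc_of_le hij]; simp
  · induction j, hij using Nat.le_induction with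
    | base => rw [asc_of_le le_rfl]; simp
    | succ j hij ih =>
      rw [asc_right hij, ← mul_assoc, ih (by omega), mul_assoc, mul_assoc,
        sig_comm (by omega) (by omega)]

theorem asc_comm_high {n l i j : ℕ} (h : j + 1 ≤ l) (hl : l < n) :
    sig n l * ascending n i j = ascending n i j * sig n l := by
  rcases le_total j i with hij | hij
  · rw [asc_of_le hij]; simp
  · induction j, hij using Nat.le_induction with
    | base => rw [asc_of_le le_rfl]; simp
    | succ j hij ih =>
      rw [asc_right hij, ← mul_assoc, ih (by omega), mul_assoc, mul_assoc,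
        sig_comm (by omega) hl]

theorem asc_append {n i j k : ℕ} (hij : i ≤ j) (hjk : j ≤ k) :
    ascending n i k = ascending n i j * ascending n j k := by
  induction k, hjk using Nat.le_induction with
  | base => rw [asc_of_le (le_refl j)]; simp
  | succ k hjk ih => rw [asc_right (by omega), asc_right hjk, ih, mul_assoc]

theorem sig_mul_asc {n l i j : ℕ} (hil : i < l) (hlj : l < j) (hj : j ≤ n) :
    sig n l * ascending n i j = ascending n i j * sig n (l - 1) := by
  obtain ⟨m, rfl⟩ : ∃ m, l = m + 1 := ⟨l - 1, by omega⟩
  have h1 : ascending n i j =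
      ascending n i m * (sig n m * sig n (m + 1)) * ascending n (m + 2) j := by
    rw [asc_append (j := m) (by omega) (by omega), asc_left (i := m) (by omega),
      asc_left (i := m + 1) (by omega)]
    simp [mul_assoc]
  rw [h1, Nat.add_sub_cancel]
  calc sig n (m + 1) * (ascending n i m * (sig n m * sig n (m + 1)) * ascending n (m + 2) j)
      = (sig n (m + 1) * ascending n i m) * (sig n m * sig n (m + 1)) *
          ascending n (m + 2) j := by simp [mul_assoc]
    _ = ascending n i m * (sig n (m + 1) * sig n m * sig n (m + 1)) *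
          ascending n (m + 2) j := by
        rw [asc_comm_high (by omega) (by omega)]; simp [mul_assoc]
    _ = ascending n i m * (sig n m * sig n (m + 1)) *
          (sig n m * ascending n (m + 2) j) := by
        rw [← sig_braid (by omega)]; simp [mul_assoc]
    _ = _ := by
        rw [asc_comm_low (by omega) hj]; simp [mul_assoc]

theorem asc_mul_asc {n i j a b : ℕ} (hia : i < a) (hbj : b ≤ j) (hj : j ≤ n) :
    ascending n a b * ascending n i j = ascending n i j * ascending n (a - 1) (b - 1) := by
  rcases le_total b a with hab | hab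
  · rw [asc_of_le hab, asc_of_le (i := a - 1) (j := b - 1) (by omega)]; simp
  · induction b, hab using Nat.le_induction with
    | base => rw [asc_of_le le_rfl, asc_of_le le_rfl]; simp
    | succ b hab ih =>
      obtain ⟨c, rfl⟩ : ∃ c, b = c + 1 := ⟨b - 1, by omega⟩
      have h1 : c + 1 + 1 - 1 = c + 1 := by omega
      have h2 : c + 1 - 1 = c := by omega
      rw [asc_right hab, mul_assoc, sig_mul_asc (by omega) (by omega) hj, ← mul_assoc,
        ih (by omega), h1, h2, asc_right (by omega), mul_assoc]

/-- The second form of the band generators. -/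
theorem bandGen_eq {n i j : ℕ} (hij : i < j) (hj : j ≤ n) :
    bandGen n i j = (ascending n (i + 1) j)⁻¹ * sig n i * ascending n (i + 1) j := by
  have h := asc_mul_asc (n := n) (i := i) (j := j) (a := i + 1) (b := j) (by omega) le_rfl hj
  rw [Nat.add_sub_cancel] at h
  obtain ⟨c, rfl⟩ : ∃ c, j = c + 1 := ⟨j - 1, by omega⟩
  unfold bandGen
  rw [Nat.add_sub_cancel] at *
  rw [mul_inv_eq_iff_eq_mul, mul_assoc, mul_assoc, eq_inv_mul_iff_mul_eq]
  rw [asc_left (n := n) (i := i) (j := c + 1) (by omega)] at h
  have h3 : ascending n i c * sig n c = sig n i * ascending n (i + 1) (c + 1) := by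
    rw [← asc_right (by omega), asc_left (by omega)]
  rw [h3, h]
  simp [mul_assoc]

theorem isSQP_one {n : ℕ} : IsStronglyQuasipositive (1 : Braid n) := Submonoid.one_mem _

theorem IsStronglyQuasipositive.mul {n : ℕ} {x y : Braid n} (hx : IsStronglyQuasipositive x)
    (hy : IsStronglyQuasipositive y) : IsStronglyQuasipositive (x * y) :=
  Submonoid.mul_mem _ hx hy

theorem isSQP_bandGen {n i j : ℕ} (hij : i < j) (hj : j ≤ n) :
    IsStronglyQuasipositive (bandGen n i j) :=
  Submonoid.subset_closure ⟨i, j, hij, hj, rfl⟩

theorem isSQP_sig {n i : ℕ} (hi : i < n) : IsStronglyQuasipositive (sig n i) := by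
  have h := isSQP_bandGen (n := n) (i := i) (j := i + 1) (by omega) (by omega)
  simpa [bandGen, asc_of_le] using h

/-- Conjugating a generator by `σ_k ... σ_{n-1}` gives a band generator. -/
theorem isSQP_conj {n k i : ℕ} (hi : i < n) (hk : k ≤ n) :
    IsStronglyQuasipositive ((ascending n k n)⁻¹ * sig n i * ascending n k n) := by
  rcases lt_trichotomy (i + 1) k with h | h | h
  · rw [mul_assoc, asc_comm_low (by omega) le_rfl, ← mul_assoc, inv_mul_cancel, one_mul]
    exact isSQP_sig hi
  · subst h
    rw [← bandGen_eq (by omega) le_rfl]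
    exact isSQP_bandGen (by omega) le_rfl
  · rcases Nat.lt_or_ge k i with h' | h'
    · rw [mul_assoc, sig_mul_asc h' hi le_rfl, ← mul_assoc, inv_mul_cancel, one_mul]
      exact isSQP_sig (by omega)
    · obtain rfl : k = i := by omega
      have : (ascending n k n)⁻¹ * sig n k * ascending n k n =
          (ascending n (k + 1) n)⁻¹ * sig n k * ascending n (k + 1) n := by
        rw [asc_left hi]; group
      rw [this, ← bandGen_eq hi le_rfl]
      exact isSQP_bandGen hi le_rfl

/-- The positive braid spelled by a list of indices. -/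
def posWord (n : ℕ) (P : List ℕ) : Braid n := (P.map (sig n)).prod

@[simp] theorem posWord_nil {n : ℕ} : posWord n [] = 1 := rfl
@[simp] theorem posWord_cons {n i : ℕ} {P : List ℕ} :
    posWord n (i :: P) = sig n i * posWord n P := by simp [posWord]
theorem posWord_append {n : ℕ} {P Q : List ℕ} :
    posWord n (P ++ Q) = posWord n P * posWord n Q := by simp [posWord]

theorem isSQP_posWord {n : ℕ} {P : List ℕ} (hP : ∀ i ∈ P, i < n) :
    IsStronglyQuasipositive (posWord n P) := by
  induction P with
  | nil => exact isSQP_one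
  | cons i P ih =>
    rw [posWord_cons]
    exact (isSQP_sig (hP i (by simp))).mul (ih fun j hj => hP j (by simp [hj]))

/-- If `σ_k, ..., σ_{n-1}` occur in this order in the positive word `P`, then
`(σ_k ... σ_{n-1})⁻¹ P` is strongly quasipositive. -/
theorem isSQP_of_sublist {n : ℕ} {P : List ℕ} (hP : ∀ i ∈ P, i < n) :
    ∀ k ≤ n, (List.range' k (n - k)).Sublist P →
      IsStronglyQuasipositive ((ascending n k n)⁻¹ * posWord n P) := by
  induction P with
  | nil =>
    intro k hk h
    have h1 : n - k = 0 := by
      have := h.length_le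
      simpa using this
    rw [asc_of_le (by omega)]
    simpa using isSQP_one
  | cons i P ih =>
    intro k hk h
    have hi : i < n := hP i (by simp)
    have hP' : ∀ j ∈ P, j < n := fun j hj => hP j (by simp [hj])
    rcases Nat.eq_or_lt_of_le hk with rfl | hkn
    · rw [asc_of_le le_rfl]
      simpa using isSQP_posWord hP
    · have hr : List.range' k (n - k) = k :: List.range' (k + 1) (n - (k + 1)) := by
        have : n - k = (n - (k + 1)) + 1 := by omega
        rw [this, List.range'_succ]
      by_cases hs : (List.range' k (n - k)).Sublist P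
      · have h1 := ih hP' k hk hs
        have h2 := (isSQP_conj hi hk).mul h1
        have h3 : (ascending n k n)⁻¹ * sig n i * ascending n k n *
            ((ascending n k n)⁻¹ * posWord n P) = (ascending n k n)⁻¹ * posWord n (i :: P) := by
          rw [posWord_cons]; group
        rwa [h3] at h2
      · rw [hr] at h hs
        rcases List.sublist_cons_iff.1 h with h' | ⟨r, hr', h'⟩
        · exact absurd h' hs
        · obtain ⟨rfl, rfl⟩ : k = i ∧ List.range' (k + 1) (n - (k + 1)) = r := by
            simpa using hr'
          have h1 := ih hP' (k + 1) (by omega) h'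
          have h3 : (ascending n k n)⁻¹ * posWord n (k :: P) =
              (ascending n (k + 1) n)⁻¹ * posWord n P := by
            rw [posWord_cons, asc_left hkn]; group
          rwa [h3]

/-- Trichotomy for positive words. -/
theorem trichotomy {n : ℕ} {P : List ℕ} (hP : ∀ i ∈ P, i < n) :
    ∀ k ≤ n, (List.range' k (n - k)).Sublist P ∨
      (∃ P₁ i P₂, P = P₁ ++ i :: P₂ ∧ k < i ∧ ∀ x ∈ P₁, x + 2 ≤ i) ∨
      (k < n ∧ ∀ x ∈ P, x + 1 < n) := by
  induction P with
  | nil =>
    intro k hk
    rcases Nat.eq_or_lt_of_le hk with rfl | hkn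
    · left; simp
    · right; right; exact ⟨hkn, by simp⟩
  | cons i P ih =>
    intro k hk
    have hi : i < n := hP i (by simp)
    have hP' : ∀ j ∈ P, j < n := fun j hj => hP j (by simp [hj])
    rcases lt_trichotomy i k with h | h | h
    · rcases ih hP' k hk with h1 | ⟨P₁, j, P₂, rfl, hkj, hx⟩ | ⟨hkn, hx⟩
      · left; exact h1.cons _
      · right; left
        refine ⟨i :: P₁, j, P₂, rfl, hkj, ?_⟩
        intro x hx'
        rcases List.mem_cons.1 hx' with rfl | hx'
        · omega
        · exact hx x hx'
      · right; right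
        refine ⟨hkn, ?_⟩
        intro x hx'
        rcases List.mem_cons.1 hx' with rfl | hx'
        · omega
        · exact hx x hx'
    · subst h
      have hr : List.range' i (n - i) = i :: List.range' (i + 1) (n - (i + 1)) := by
        have : n - i = (n - (i + 1)) + 1 := by omega
        rw [this, List.range'_succ]
      rcases ih hP' (i + 1) (by omega) with h1 | ⟨P₁, j, P₂, rfl, hkj, hx⟩ | ⟨hkn, hx⟩
      · left; rw [hr]; exact h1.cons_cons _
      · right; left
        refine ⟨i :: P₁, j, P₂, rfl, by omega, ?_⟩
        intro x hx'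
        rcases List.mem_cons.1 hx' with rfl | hx'
        · omega
        · exact hx x hx'
      · right; right
        refine ⟨by omega, ?_⟩
        intro x hx'
        rcases List.mem_cons.1 hx' with rfl | hx'
        · omega
        · exact hx x hx'
    · right; left
      exact ⟨[], i, P, rfl, h, by simp⟩

/-! ### Markov equivalence -/

theorem MarkovEquiv.refl (x : Σ n, Braid n) : MarkovEquiv x x := Relation.EqvGen.refl x
theorem MarkovEquiv.symm {x y : Σ n, Braid n} (h : MarkovEquiv x y) : MarkovEquiv y x :=
  Relation.EqvGen.symm _ _ h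
theorem MarkovEquiv.trans {x y z : Σ n, Braid n} (h : MarkovEquiv x y) (h' : MarkovEquiv y z) :
    MarkovEquiv x z := Relation.EqvGen.trans _ _ _ h h'

theorem markov_comm {n : ℕ} (α β : Braid n) : MarkovEquiv ⟨n, α * β⟩ ⟨n, β * α⟩ := by
  have h := Relation.EqvGen.rel _ _ (MarkovMove.conj n (α * β) β)
  have h2 : β * (α * β) * β⁻¹ = β * α := by group
  rwa [h2] at h

theorem addStrand_sig {n i : ℕ} (h : i < n) : addStrand n (sig n i) = sig (n + 1) i := by
  rw [sig_of_lt h, sig_of_lt (by omega)]
  exact PresentedGroup.toGroup.of _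

theorem addStrand_posWord {n : ℕ} {P : List ℕ} (hP : ∀ i ∈ P, i < n) :
    addStrand n (posWord n P) = posWord (n + 1) P := by
  induction P with
  | nil => simp
  | cons i P ih =>
    rw [posWord_cons, posWord_cons, map_mul, addStrand_sig (hP i (by simp)),
      ih fun j hj => hP j (by simp [hj])]

theorem asc_eq_posWord {n i j : ℕ} : ascending n i j = posWord n (List.range' i (j - i)) := rfl

theorem addStrand_asc {n i j : ℕ} (hj : j ≤ n) :
    addStrand n (ascending n i j) = ascending (n + 1) i j := by
  rw [asc_eq_posWord, asc_eq_posWord, addStrand_posWord]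
  intro x hx
  rw [List.mem_range'_1] at hx
  omega

theorem sigma_last {n : ℕ} : sigma (Fin.last n) = sig (n + 1) n := by
  rw [sig_of_lt (by omega)]; rfl

theorem markov_stabPos {n : ℕ} (α : Braid n) :
    MarkovEquiv ⟨n, α⟩ ⟨n + 1, addStrand n α * sig (n + 1) n⟩ := by
  rw [← sigma_last]
  exact Relation.EqvGen.rel _ _ (MarkovMove.stabPos n α)

theorem markov_stabNeg {n : ℕ} (α : Braid n) :
    MarkovEquiv ⟨n, α⟩ ⟨n + 1, addStrand n α * (sig (n + 1) n)⁻¹⟩ := by
  rw [← sigma_last]
  exact Relation.EqvGen.rel _ _ (MarkovMove.stabNeg n α)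

/-- Every braid `(σ_q ... σ_{n-1})⁻¹ P` with `P` a positive word is Markov equivalent to a strongly
quasipositive braid. -/
theorem markov_sqp_of_pos (n : ℕ) : ∀ (q : ℕ), q ≤ n → ∀ (s : ℕ) (P : List ℕ), P.sum ≤ s →
    (∀ i ∈ P, i < n) →
    ∃ (m : ℕ) (β : Braid m), IsStronglyQuasipositive β ∧
      MarkovEquiv ⟨n, (ascending n q n)⁻¹ * posWord n P⟩ ⟨m, β⟩ := by
  induction n with
  | zero =>
    intro q hq s P _ hP
    refine ⟨0, posWord 0 P, isSQP_posWord hP, ?_⟩
    rw [asc_of_le (by omega)]
    simpa using MarkovEquiv.refl _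
  | succ n ihn =>
    intro q hq s
    induction s with
    | zero =>
      intro P hs hP
      rcases trichotomy hP q hq with h | ⟨P₁, i, P₂, rfl, hqi, -⟩ | ⟨hqn, hx⟩
      · exact ⟨n + 1, _, isSQP_of_sublist hP q hq h, MarkovEquiv.refl _⟩
      · exfalso
        simp at hs
        omega
      · have hP' : ∀ i ∈ P, i < n := fun i hi => by have := hx i hi; omega
        obtain ⟨m, β, hβ, hM⟩ := ihn q (by omega) P.sum P le_rfl hP'
        refine ⟨m, β, hβ, MarkovEquiv.trans ?_ hM⟩
        have h1 := markov_stabNeg ((ascending n q n)⁻¹ * posWord n P)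
        rw [map_mul, map_inv, addStrand_asc le_rfl, addStrand_posWord hP'] at h1
        have h2 : (ascending (n + 1) q (n + 1))⁻¹ * posWord (n + 1) P =
            (sig (n + 1) n)⁻¹ * ((ascending (n + 1) q n)⁻¹ * posWord (n + 1) P) := by
          rw [asc_right (by omega)]; group
        rw [h2]
        exact (markov_comm _ _).trans h1.symm
    | succ s ihs =>
      intro P hs hP
      rcases trichotomy hP q hq with h | ⟨P₁, i, P₂, rfl, hqi, hx⟩ | ⟨hqn, hx⟩
      · exact ⟨n + 1, _, isSQP_of_sublist hP q hq h, MarkovEquiv.refl _⟩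
      · have hi : i < n + 1 := hP i (by simp)
        obtain ⟨m, β, hβ, hM⟩ := ihs (P₁ ++ P₂ ++ [i - 1]) (by
          simp at hs ⊢
          omega) (by
          intro j hj
          rcases List.mem_append.1 hj with hj | hj
          · apply hP
            rcases List.mem_append.1 hj with hj | hj
            · simp [hj]
            · simp [hj]
          · simp at hj
            omega)
        refine ⟨m, β, hβ, MarkovEquiv.trans ?_ hM⟩
        have h1 : posWord (n + 1) (P₁ ++ i :: P₂) =
            sig (n + 1) i * posWord (n + 1) (P₁ ++ P₂) := by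
          rw [posWord_append, posWord_cons, posWord_append, ← mul_assoc, ← mul_assoc]
          congr 1
          have hP₁ : ∀ x ∈ P₁, x + 2 ≤ i := hx
          clear hx hM hP hs
          induction P₁ with
          | nil => simp
          | cons a P₁ ih =>
            rw [posWord_cons, mul_assoc, ih fun x hx => hP₁ x (by simp [hx])]
            rw [← mul_assoc, sig_comm (hP₁ a (by simp)) hi, mul_assoc]
        have h2 : (ascending (n + 1) q (n + 1))⁻¹ * posWord (n + 1) (P₁ ++ i :: P₂) =
            sig (n + 1) (i - 1) *
              ((ascending (n + 1) q (n + 1))⁻¹ * posWord (n + 1) (P₁ ++ P₂)) := by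
          rw [h1]
          have h3 := sig_mul_asc (n := n + 1) (i := q) (l := i) (j := n + 1) hqi hi le_rfl
          have h4 : (ascending (n + 1) q (n + 1))⁻¹ * sig (n + 1) i =
              sig (n + 1) (i - 1) * (ascending (n + 1) q (n + 1))⁻¹ := by
            rw [inv_mul_eq_iff_eq_mul, ← mul_assoc, eq_mul_inv_iff_mul_eq, h3]
          rw [← mul_assoc, h4, mul_assoc]
        have h5 : (ascending (n + 1) q (n + 1))⁻¹ * posWord (n + 1) (P₁ ++ P₂ ++ [i - 1]) =
            ((ascending (n + 1) q (n + 1))⁻¹ * posWord (n + 1) (P₁ ++ P₂)) *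
              sig (n + 1) (i - 1) := by
          rw [posWord_append]; simp [mul_assoc]
        rw [h2, h5]
        exact markov_comm _ _
      · have hP' : ∀ i ∈ P, i < n := fun i hi => by have := hx i hi; omega
        obtain ⟨m, β, hβ, hM⟩ := ihn q (by omega) P.sum P le_rfl hP'
        refine ⟨m, β, hβ, MarkovEquiv.trans ?_ hM⟩
        have h1 := markov_stabNeg ((ascending n q n)⁻¹ * posWord n P)
        rw [map_mul, map_inv, addStrand_asc le_rfl, addStrand_posWord hP'] at h1
        have h2 : (ascending (n + 1) q (n + 1))⁻¹ * posWord (n + 1) P =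
            (sig (n + 1) n)⁻¹ * ((ascending (n + 1) q n)⁻¹ * posWord (n + 1) P) := by
          rw [asc_right (by omega)]; group
        rw [h2]
        exact (markov_comm _ _).trans h1.symm

end Run7.h193
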