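import Pool.Agent.Run7.h193.BraidAlg

namespace Run7.h193

/-- Words with natural number indices. -/
abbrev NWord := List (ℕ × Bool)

/-- value of a word -/
def ev (n : ℕ) (w : NWord) : Braid n :=
  (w.map fun l => if l.2 then sig n l.1 else (sig n l.1)⁻¹).prod

@[simp] theorem ev_nil {n : ℕ} : ev n [] = 1 := rfl
theorem ev_cons {n : ℕ} (l : ℕ × Bool) (w : NWord) :
    ev n (l :: w) = (if l.2 then sig n l.1 else (sig n l.1)⁻¹) * ev n w := by simp [ev]
theorem ev_append {n : ℕ} (u v : NWord) : ev n (u ++ v) = ev n u * ev n v := by simp [ev]

/-- final position of the strand starting at `p` -/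
def endPos : ℕ → NWord → ℕ
  | p, [] => p
  | p, l :: w => endPos (move l.1 p) w

/-- the strand starting at `p` is over everywhere -/
def Over : ℕ → NWord → Prop
  | _, [] => True
  | p, l :: w => ((p = l.1 → l.2 = true) ∧ (p = l.1 + 1 → l.2 = false)) ∧ Over (move l.1 p) w

/-- delete the strand starting at `p` -/
def del : ℕ → NWord → NWord
  | _, [] => []
  | p, l :: w =>
    if p = l.1 ∨ p = l.1 + 1 then del (move l.1 p) w
    else (if l.1 < p then l.1 else l.1 - 1, l.2) :: del (move l.1 p) w

@[simp] theorem endPos_nil (p : ℕ) : endPos p [] = p := rfl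
@[simp] theorem endPos_cons (p : ℕ) (l : ℕ × Bool) (w : NWord) :
    endPos p (l :: w) = endPos (move l.1 p) w := rfl

theorem endPos_append (u v : NWord) : ∀ p, endPos p (u ++ v) = endPos (endPos p u) v := by
  induction u with
  | nil => intro p; rfl
  | cons l u ih => intro p; simp [ih]

theorem over_append (u v : NWord) : ∀ p, Over p (u ++ v) ↔ Over p u ∧ Over (endPos p u) v := by
  induction u with
  | nil => intro p; simp [Over]
  | cons l u ih => intro p; simp [Over, ih, and_assoc]

theorem move_le {n i p : ℕ} (hi : i < n) (hp : p ≤ n) : move i p ≤ n := by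
  unfold move; split_ifs <;> omega

theorem endPos_le {n : ℕ} {w : NWord} (hw : ∀ l ∈ w, l.1 < n) : ∀ {p}, p ≤ n → endPos p w ≤ n := by
  induction w with
  | nil => intro p hp; exact hp
  | cons l w ih =>
    intro p hp
    exact ih (fun x hx => hw x (by simp [hx])) (move_le (hw l (by simp)) hp)

/-- Pulling out a strand which is over everything. -/
theorem ev_eq_of_over {n : ℕ} {w : NWord} (hw : ∀ l ∈ w, l.1 < n) :
    ∀ {p}, p ≤ n → Over p w →
      ev n w = ascending n p n * ev n (del p w) * (ascending n (endPos p w) n)⁻¹ := by
  induction w with
  | nil => intro p _ _; simp [del]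
  | cons l w ih =>
    intro p hp ho
    obtain ⟨i, b⟩ := l
    have hi : i < n := hw (i, b) (by simp)
    have hw' : ∀ l ∈ w, l.1 < n := fun x hx => hw x (by simp [hx])
    simp only [Over] at ho
    obtain ⟨⟨h1, h2⟩, ho'⟩ := ho
    have IH := ih hw' (move_le hi hp) ho'
    rw [ev_cons, IH]
    simp only [endPos_cons]
    by_cases hc : p = i ∨ p = i + 1
    · have hd : del p ((i, b) :: w) = del (move i p) w := by simp [del, hc]
      rw [hd]
      rcases hc with rfl | rfl
      · have hb : b = true := h1 rfl
        subst hb
        have hm : move p p = p + 1 := by simp [move]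
        rw [hm, asc_left hi]
        simp [mul_assoc]
      · have hb : b = false := h2 rfl
        subst hb
        have hm : move i (i + 1) = i := by simp [move]
        rw [hm, asc_left (n := n) (i := i) (j := n) hi]
        simp [mul_assoc]
    · have hd : del p ((i, b) :: w) =
          (if i < p then i else i - 1, b) :: del (move i p) w := by simp [del, hc]
      rw [hd, ev_cons]
      push Not at hc
      have hm : move i p = p := by simp [move, hc]
      rw [hm]
      rcases lt_or_gt_of_ne hc.1 with h | h
      · -- p < i
        have h' : ¬ i < p := by omega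
        simp only [if_neg h']
        have hcm := sig_mul_asc (n := n) (i := p) (l := i) (j := n) h hi le_rfl
        have hcm' : (sig n i)⁻¹ * ascending n p n = ascending n p n * (sig n (i - 1))⁻¹ := by
          rw [inv_mul_eq_iff_eq_mul, ← mul_assoc, eq_mul_inv_iff_mul_eq, hcm]
        cases b
        · simp only [Bool.false_eq_true, if_false]
          rw [← mul_assoc, ← mul_assoc, hcm']; simp [mul_assoc]
        · simp only [if_true]
          rw [← mul_assoc, ← mul_assoc, hcm]; simp [mul_assoc]
      · have hip : i + 2 ≤ p := by omega
        simp only [if_pos h]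
        have hcm := asc_comm_low (n := n) (l := i) (i := p) (j := n) hip le_rfl
        have hcm' : (sig n i)⁻¹ * ascending n p n = ascending n p n * (sig n i)⁻¹ := by
          rw [inv_mul_eq_iff_eq_mul, ← mul_assoc, eq_mul_inv_iff_mul_eq, hcm]
        cases b
        · simp only [Bool.false_eq_true, if_false]
          rw [← mul_assoc, ← mul_assoc, hcm']; simp [mul_assoc]
        · simp only [if_true]
          rw [← mul_assoc, ← mul_assoc, hcm]; simp [mul_assoc]

/-- new label after deleting the strand at position `c` -/
def sh (c x : ℕ) : ℕ := if x < c then x else x - 1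

theorem del_lt {n : ℕ} {w : NWord} (hw : ∀ l ∈ w, l.1 < n + 1) :
    ∀ {p}, p ≤ n + 1 → ∀ l ∈ del p w, l.1 < n := by
  induction w with
  | nil => intro p _ l hl; simp [del] at hl
  | cons l w ih =>
    intro p hp
    obtain ⟨i, b⟩ := l
    have hi : i < n + 1 := hw (i, b) (by simp)
    have hw' : ∀ l ∈ w, l.1 < n + 1 := fun x hx => hw x (by simp [hx])
    intro x hx
    unfold del at hx
    split_ifs at hx with hc hc'
    · exact ih hw' (move_le hi hp) x hx
    · rcases List.mem_cons.1 hx with rfl | hx
      · simp only at hc' hc ⊢; omega
      · exact ih hw' (move_le hi hp) x hx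
    · rcases List.mem_cons.1 hx with rfl | hx
      · simp only at hc' hc ⊢
        omega
      · exact ih hw' (move_le hi hp) x hx

theorem move_inj {i x y : ℕ} (h : x ≠ y) : move i x ≠ move i y := by
  unfold move; split_ifs <;> omega

theorem endPos_ne {w : NWord} : ∀ {x y}, x ≠ y → endPos x w ≠ endPos y w := by
  induction w with
  | nil => intro x y h; exact h
  | cons l w ih => intro x y h; exact ih (move_inj h)

theorem endPos_del {w : NWord} : ∀ {p x}, x ≠ p →
    endPos (sh p x) (del p w) = sh (endPos p w) (endPos x w) := by
  induction w with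
  | nil => intro p x _; simp [del]
  | cons l w ih =>
    intro p x hx
    obtain ⟨i, b⟩ := l
    by_cases hc : p = i ∨ p = i + 1
    · have hd : del p ((i, b) :: w) = del (move i p) w := by simp [del, hc]
      rw [hd, endPos_cons, endPos_cons, ← ih (move_inj hx)]
      congr 1
      simp only [sh, move]
      split_ifs <;> omega
    · have hd : del p ((i, b) :: w) =
          (if i < p then i else i - 1, b) :: del (move i p) w := by simp [del, hc]
      rw [hd, endPos_cons, endPos_cons, endPos_cons, ← ih (move_inj hx)]
      congr 1
      simp only [sh, move]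
      split_ifs <;> omega

theorem over_del {w : NWord} : ∀ {p x}, x ≠ p → Over x w → Over (sh p x) (del p w) := by
  induction w with
  | nil => intro p x _ _; simp [del, Over]
  | cons l w ih =>
    intro p x hx ho
    obtain ⟨i, b⟩ := l
    simp only [Over] at ho
    obtain ⟨⟨h1, h2⟩, ho'⟩ := ho
    have IH := ih (move_inj (i := i) hx) ho'
    by_cases hc : p = i ∨ p = i + 1
    · have hd : del p ((i, b) :: w) = del (move i p) w := by simp [del, hc]
      rw [hd]
      have : sh p x = sh (move i p) (move i x) := by
        simp only [sh, move]
        split_ifs <;> omega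
      rw [this]; exact IH
    · have hd : del p ((i, b) :: w) =
          (if i < p then i else i - 1, b) :: del (move i p) w := by simp [del, hc]
      rw [hd]
      simp only [Over]
      refine ⟨⟨?_, ?_⟩, ?_⟩
      · intro h
        apply h1
        simp only [sh] at h
        split_ifs at h <;> omega
      · intro h
        apply h2
        simp only [sh] at h
        split_ifs at h <;> omega
      · have : move (if i < p then i else i - 1) (sh p x) = sh (move i p) (move i x) := by
          simp only [sh, move]
          split_ifs <;> omega
        rw [this]; exact IH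

theorem del_append (u v : NWord) : ∀ p, del p (u ++ v) = del p u ++ del (endPos p u) v := by
  induction u with
  | nil => intro p; simp [del]
  | cons l u ih =>
    intro p
    simp only [List.cons_append, del, endPos_cons, ih]
    split_ifs <;> simp

/-- Splitting of a word with a deleted strand comes from a splitting of the word. -/
theorem del_split {w : NWord} : ∀ {p : ℕ} {x' : NWord} {i' : ℕ} {b : Bool} {y' : NWord},
    del p w = x' ++ (i', b) :: y' →
    ∃ x i y, w = x ++ (i, b) :: y ∧ del p x = x' ∧ endPos p x ≠ i ∧ endPos p x ≠ i + 1 ∧
      i' = (if i < endPos p x then i else i - 1) := by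
  induction w with
  | nil => intro p x' i' b y' h; simp [del] at h
  | cons l w ih =>
    intro p x' i' b y' h
    obtain ⟨j, c⟩ := l
    by_cases hc : p = j ∨ p = j + 1
    · have hd : del p ((j, c) :: w) = del (move j p) w := by simp [del, hc]
      rw [hd] at h
      obtain ⟨x, i, y, rfl, h1, h2, h3, h4⟩ := ih h
      refine ⟨(j, c) :: x, i, y, rfl, ?_, h2, h3, h4⟩
      simp [del, hc, h1]
    · have hd : del p ((j, c) :: w) =
          (if j < p then j else j - 1, c) :: del (move j p) w := by simp [del, hc]
      rw [hd] at h
      rcases x' with _ | ⟨a, x'⟩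
      · simp only [List.nil_append, List.cons.injEq, Prod.mk.injEq] at h
        obtain ⟨⟨h1, rfl⟩, -⟩ := h
        push Not at hc
        refine ⟨[], j, w, rfl, rfl, ?_, ?_, ?_⟩
        · simpa using hc.1
        · simpa using hc.2
        · rw [endPos_nil]
          by_cases h' : j < p
          · rw [if_pos h'] at h1 ⊢; exact h1.symm
          · rw [if_neg h'] at h1 ⊢; exact h1.symm
      · simp only [List.cons_append, List.cons.injEq] at h
        obtain ⟨rfl, h⟩ := h
        obtain ⟨x, i, y, rfl, h1, h2, h3, h4⟩ := ih h
        refine ⟨(j, c) :: x, i, y, rfl, ?_, h2, h3, h4⟩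
        simp [del, hc, h1]

theorem endPos_lt_of_over {w : NWord} : ∀ {x y}, x < y → Over x w → Over y w →
    endPos x w < endPos y w := by
  induction w with
  | nil => intro x y h _ _; exact h
  | cons l w ih =>
    intro x y h hx hy
    obtain ⟨i, b⟩ := l
    simp only [Over] at hx hy
    refine ih ?_ hx.2 hy.2
    obtain ⟨⟨h1, h2⟩, -⟩ := hx
    obtain ⟨⟨h3, h4⟩, -⟩ := hy
    unfold move
    split_ifs with ha hb hc hd he hf
    all_goals try omega
    exfalso
    have := h1 ha
    have := h4 hc
    simp_all

/-- turn positions -/
def turn (w : NWord) (p : ℕ) : ℕ → ℕ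
  | 0 => p
  | j + 1 => endPos (turn w p j) w

/-- An overarc starting at position `p` at time `0`, running `a` times through `w` and then through
the prefix `u` of `w = u ++ v`, and containing all negative crossings. -/
structure Arc (u v : NWord) (p a : ℕ) : Prop where
  full : ∀ j < a, Over (turn (u ++ v) p j) (u ++ v)
  part : Over (turn (u ++ v) p a) u
  cov : ∀ x i y, u ++ v = x ++ (i, false) :: y →
    (∃ j < a, endPos (turn (u ++ v) p j) x = i + 1) ∨
      (x.length < u.length ∧ endPos (turn (u ++ v) p a) x = i + 1)

/-- the ascending run from position `s` to position `s + d`, over everything -/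
def upRun : ℕ → ℕ → NWord
  | _, 0 => []
  | s, d + 1 => (s, true) :: upRun (s + 1) d

/-- the descending run from position `t + d` to position `t`, over everything -/
def downRun : ℕ → ℕ → NWord
  | _, 0 => []
  | t, d + 1 => (t + d, false) :: downRun t d

theorem endPos_upRun (d : ℕ) : ∀ s, endPos s (upRun s d) = s + d := by
  induction d with
  | zero => intro s; rfl
  | succ d ih =>
    intro s
    have : move s s = s + 1 := by simp [move]
    simp only [upRun, endPos_cons, this, ih]; omega

theorem over_upRun (d : ℕ) : ∀ s, Over s (upRun s d) := by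
  induction d with
  | zero => intro s; trivial
  | succ d ih =>
    intro s
    have : move s s = s + 1 := by simp [move]
    simp only [upRun, Over, this]
    exact ⟨⟨fun _ => trivial, by omega⟩, ih _⟩

theorem endPos_upRun_of (d : ℕ) : ∀ s x, (x < s ∨ s + d < x) →
    endPos x (upRun s d) = x ∧ Over x (upRun s d) := by
  induction d with
  | zero => intro s x _; exact ⟨rfl, trivial⟩
  | succ d ih =>
    intro s x hx
    have : move s x = x := by unfold move; split_ifs <;> omega
    simp only [upRun, endPos_cons, this, Over]
    obtain ⟨h1, h2⟩ := ih (s + 1) x (by omega)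
    exact ⟨h1, ⟨by omega, by omega⟩, h2⟩

theorem upRun_lt (d : ℕ) : ∀ s, ∀ l ∈ upRun s d, l.1 < s + d := by
  induction d with
  | zero => intro s l hl; simp [upRun] at hl
  | succ d ih =>
    intro s l hl
    simp only [upRun, List.mem_cons] at hl
    rcases hl with rfl | hl
    · simp
    · have := ih _ l hl; omega

theorem upRun_pos (d : ℕ) : ∀ s, ∀ l ∈ upRun s d, l.2 = true := by
  induction d with
  | zero => intro s l hl; simp [upRun] at hl
  | succ d ih =>
    intro s l hl
    simp only [upRun, List.mem_cons] at hl
    rcases hl with rfl | hl
    · rfl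
    · exact ih _ l hl

theorem ev_upRun {n : ℕ} (d : ℕ) : ∀ s, ev n (upRun s d) = ascending n s (s + d) := by
  induction d with
  | zero => intro s; simp [upRun, asc_of_le]
  | succ d ih =>
    intro s
    rw [upRun, ev_cons, ih, asc_left (n := n) (i := s) (j := s + (d + 1)) (by omega)]
    have : s + 1 + d = s + (d + 1) := by omega
    simp [this]

theorem endPos_downRun (d : ℕ) : ∀ t, endPos (t + d) (downRun t d) = t := by
  induction d with
  | zero => intro t; rfl
  | succ d ih =>
    intro t
    have : move (t + d) (t + (d + 1)) = t + d := by unfold move; split_ifs <;> omega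
    simp only [downRun, endPos_cons, this, ih]

theorem over_downRun (d : ℕ) : ∀ t, Over (t + d) (downRun t d) := by
  induction d with
  | zero => intro t; trivial
  | succ d ih =>
    intro t
    have : move (t + d) (t + (d + 1)) = t + d := by unfold move; split_ifs <;> omega
    simp only [downRun, Over, this]
    exact ⟨⟨by omega, fun _ => trivial⟩, ih _⟩

theorem endPos_downRun_of (d : ℕ) : ∀ t x, (x < t ∨ t + d < x) →
    endPos x (downRun t d) = x ∧ Over x (downRun t d) := by
  induction d with
  | zero => intro t x _; exact ⟨rfl, trivial⟩
  | succ d ih =>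
    intro t x hx
    have : move (t + d) x = x := by unfold move; split_ifs <;> omega
    simp only [downRun, endPos_cons, this, Over]
    obtain ⟨h1, h2⟩ := ih t x (by omega)
    exact ⟨h1, ⟨by omega, by omega⟩, h2⟩

theorem downRun_lt (d : ℕ) : ∀ t, ∀ l ∈ downRun t d, l.1 < t + d := by
  induction d with
  | zero => intro t l hl; simp [downRun] at hl
  | succ d ih =>
    intro t l hl
    simp only [downRun, List.mem_cons] at hl
    rcases hl with rfl | hl
    · simp
    · have := ih _ l hl; omega

theorem ev_downRun {n : ℕ} (d : ℕ) : ∀ t, ev n (downRun t d) = (ascending n t (t + d))⁻¹ := by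
  induction d with
  | zero => intro t; simp [downRun, asc_of_le]
  | succ d ih =>
    intro t
    have h : t + (d + 1) = (t + d) + 1 := by omega
    rw [downRun, ev_cons, ih, h, asc_right (n := n) (i := t) (j := t + d) (by omega)]
    simp

theorem downRun_split (d : ℕ) : ∀ t x i b y, downRun t d = x ++ (i, b) :: y →
    endPos (t + d) x = i + 1 := by
  induction d with
  | zero => intro t x i b y h; simp [downRun] at h
  | succ d ih =>
    intro t x i b y h
    rcases x with _ | ⟨a, x⟩
    · simp only [downRun, List.nil_append, List.cons.injEq, Prod.mk.injEq] at h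
      simp; omega
    · simp only [downRun, List.cons_append, List.cons.injEq] at h
      obtain ⟨rfl, h⟩ := h
      have : move (t + d) (t + (d + 1)) = t + d := by unfold move; split_ifs <;> omega
      rw [endPos_cons]
      simp only [this]
      exact ih t x i b y h

end Run7.h193
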