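import Mathlib

/-!
# Braid groups, Markov equivalence, strongly quasipositive braids,
and closed braid diagrams that are weakly successively almost positive.

Throughout, `Braid n` is Artin's braid group on `n + 1` strands, with the `n` generators
`sigma 0, ..., sigma (n-1)`; strands sit at the positions `0, ..., n`.
-/

namespace Run7.h193

/-- Artin's relations for the generators with indices in `Fin n`. -/
def braidRels (n : ℕ) : Set (FreeGroup (Fin n)) :=
  {r | ∃ i j : Fin n, (i : ℕ) + 2 ≤ (j : ℕ) ∧
      r = FreeGroup.of i * FreeGroup.of j * (FreeGroup.of j * FreeGroup.of i)⁻¹} ∪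
  {r | ∃ i j : Fin n, (i : ℕ) + 1 = (j : ℕ) ∧
      r = FreeGroup.of i * FreeGroup.of j * FreeGroup.of i *
        (FreeGroup.of j * FreeGroup.of i * FreeGroup.of j)⁻¹}

/-- Artin's braid group on `n + 1` strands (it has `n` generators). -/
abbrev Braid (n : ℕ) : Type := PresentedGroup (braidRels n)

/-- The Artin generator exchanging the strands at positions `i` and `i + 1`. -/
def sigma {n : ℕ} (i : Fin n) : Braid n := PresentedGroup.of i

/-- The Artin generator with index `i`, with junk value `1` when `i` is out of range. -/
def sig (n i : ℕ) : Braid n := if h : i < n then sigma ⟨i, h⟩ else 1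

theorem sig_of_lt {n i : ℕ} (h : i < n) : sig n i = sigma ⟨i, h⟩ := dif_pos h

theorem sig_comm {n i j : ℕ} (hij : i + 2 ≤ j) (hj : j < n) :
    sig n i * sig n j = sig n j * sig n i := by
  have hi : i < n := by omega
  rw [sig_of_lt hi, sig_of_lt hj]
  have h : (PresentedGroup.mk (braidRels n)
      (FreeGroup.of (⟨i, hi⟩ : Fin n) * FreeGroup.of ⟨j, hj⟩ *
        (FreeGroup.of ⟨j, hj⟩ * FreeGroup.of ⟨i, hi⟩)⁻¹)) = 1 := by
    apply PresentedGroup.one_of_mem
    left
    exact ⟨⟨i, hi⟩, ⟨j, hj⟩, hij, rfl⟩
  rw [map_mul, map_inv, mul_inv_eq_one] at h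
  simpa [sigma, PresentedGroup.of] using h

theorem sig_braid {n i : ℕ} (hi : i + 1 < n) :
    sig n i * sig n (i + 1) * sig n i = sig n (i + 1) * sig n i * sig n (i + 1) := by
  have hi' : i < n := by omega
  rw [sig_of_lt hi', sig_of_lt hi]
  have h : (PresentedGroup.mk (braidRels n)
      (FreeGroup.of (⟨i, hi'⟩ : Fin n) * FreeGroup.of ⟨i + 1, hi⟩ * FreeGroup.of ⟨i, hi'⟩ *
        (FreeGroup.of ⟨i + 1, hi⟩ * FreeGroup.of ⟨i, hi'⟩ * FreeGroup.of ⟨i + 1, hi⟩)⁻¹)) = 1 := by
    apply PresentedGroup.one_of_mem
    right
    exact ⟨⟨i, hi'⟩, ⟨i + 1, hi⟩, rfl, rfl⟩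
  rw [map_mul, map_inv, mul_inv_eq_one] at h
  simpa [sigma, PresentedGroup.of] using h

/-- Adding a trivial strand on the right: the inclusion of the braid group on `n + 1` strands
into the braid group on `n + 2` strands. -/
def addStrand (n : ℕ) : Braid n →* Braid (n + 1) :=
  PresentedGroup.toGroup (f := fun i : Fin n => sigma (Fin.castSucc i)) (by
    rintro r (⟨i, j, hij, rfl⟩ | ⟨i, j, hij, rfl⟩)
    · have h := sig_comm (n := n + 1) (i := i) (j := j) hij (by omega)
      rw [sig_of_lt (by omega), sig_of_lt (by omega)] at h
      simp only [map_mul, map_inv, FreeGroup.lift_apply_of]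
      rw [mul_inv_eq_one]
      exact h
    · have h := sig_braid (n := n + 1) (i := i) (by omega)
      rw [sig_of_lt (by omega), sig_of_lt (by omega)] at h
      simp only [map_mul, map_inv, FreeGroup.lift_apply_of]
      rw [mul_inv_eq_one]
      have hj : Fin.castSucc j = ⟨(i : ℕ) + 1, by omega⟩ := by
        ext; simp [← hij]
      rw [hj]
      exact h)

/-- One Markov move: conjugation, or (positive or negative) stabilization. -/
inductive MarkovMove : (Σ n, Braid n) → (Σ n, Braid n) → Prop
  | conj (n : ℕ) (α β : Braid n) : MarkovMove ⟨n, α⟩ ⟨n, β * α * β⁻¹⟩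
  | stabPos (n : ℕ) (α : Braid n) :
      MarkovMove ⟨n, α⟩ ⟨n + 1, addStrand n α * sigma (Fin.last n)⟩
  | stabNeg (n : ℕ) (α : Braid n) :
      MarkovMove ⟨n, α⟩ ⟨n + 1, addStrand n α * (sigma (Fin.last n))⁻¹⟩

/-- Markov equivalence of braids (with any numbers of strands): the equivalence relation generated
by conjugation and stabilization.  Markov equivalent braids have the same closure. -/
def MarkovEquiv (x y : Σ n, Braid n) : Prop := Relation.EqvGen MarkovMove x y

/-- The product `σ_i σ_{i+1} ... σ_{j-1}` (empty if `j ≤ i`). -/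
def ascending (n i j : ℕ) : Braid n := ((List.range' i (j - i)).map (sig n)).prod

/-- The band generator joining the strands at positions `i < j`:
`a_{i,j} = (σ_i ... σ_{j-2}) σ_{j-1} (σ_i ... σ_{j-2})⁻¹`. -/
def bandGen (n i j : ℕ) : Braid n :=
  ascending n i (j - 1) * sig n (j - 1) * (ascending n i (j - 1))⁻¹

/-- A braid is strongly quasipositive if it is a product of band generators. -/
def IsStronglyQuasipositive {n : ℕ} (β : Braid n) : Prop :=
  β ∈ Submonoid.closure {x : Braid n | ∃ i j : ℕ, i < j ∧ j ≤ n ∧ x = bandGen n i j}

/-- The braid spelled by a word; the letter `(i, true)` is `σ_i`, the letter `(i, false)` is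
`σ_i⁻¹`. -/
def wordBraid {n : ℕ} (w : List (Fin n × Bool)) : Braid n :=
  (w.map fun l => if l.2 then sigma l.1 else (sigma l.1)⁻¹).prod

/-- The position of a strand after a crossing `σ_i^{±1}`, if it was at position `p` before. -/
def move (i p : ℕ) : ℕ := if p = i then i + 1 else if p = i + 1 then i else p

/-- Following the closed braid diagram of the word `w` from the point at position `p` just before
the letter number `k` (all letter numbers are read modulo the length of `w`, since the diagram is
closed): `follow w k p t` is the position just before letter number `k + t`. -/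
def follow {n : ℕ} (w : List (Fin n × Bool)) (hw : 0 < w.length) (k p : ℕ) : ℕ → ℕ
  | 0 => p
  | t + 1 => move (w.get ⟨(k + t) % w.length, Nat.mod_lt _ hw⟩).1 (follow w hw k p t)

/-- The strand arriving at position `p` at the crossing `l` passes over there, or does not meet that
crossing: in `σ_i` the strand going from position `i` to position `i + 1` is the over-strand, and in
`σ_i⁻¹` the strand going from position `i + 1` to position `i` is the over-strand. -/
def OverAt {n : ℕ} (l : Fin n × Bool) (p : ℕ) : Prop :=
  (p = (l.1 : ℕ) → l.2 = true) ∧ (p = (l.1 : ℕ) + 1 → l.2 = false)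

/-- The closed braid diagram of the word `w` is weakly successively almost positive: some arc of the
diagram is the over-strand at every crossing it passes through, and every negative crossing of the
diagram lies on this arc.  The arc starts at the point at position `p` just before the letter number
`k` and runs through `m` consecutive letters, counted cyclically (so it may run around the closed
braid several times).  -/
def ClosedBraidWSAP {n : ℕ} (w : List (Fin n × Bool)) : Prop :=
  (∀ l ∈ w, l.2 = true) ∨
  ∃ (hw : 0 < w.length) (k p m : ℕ), p ≤ n ∧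
    (∀ t < m, OverAt (w.get ⟨(k + t) % w.length, Nat.mod_lt _ hw⟩) (follow w hw k p t)) ∧
    (∀ j : Fin w.length, (w.get j).2 = false →
      ∃ t < m, (k + t) % w.length = j ∧ follow w hw k p t = ((w.get j).1 : ℕ) + 1)

end Run7.h193
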