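import Pool.Agent.Run7.h193.BraidMain

namespace Run7.h193

/-- forget the bound -/
def toN {n : ℕ} (w : List (Fin n × Bool)) : NWord := w.map fun l => ((l.1 : ℕ), l.2)

theorem wordBraid_eq {n : ℕ} (w : List (Fin n × Bool)) : wordBraid w = ev n (toN w) := by
  unfold wordBraid ev toN
  rw [List.map_map]
  congr 1
  apply List.map_congr_left
  rintro ⟨i, b⟩ -
  simp [sig_of_lt i.2]

theorem over_of_forall {w : NWord} : ∀ {x},
    (∀ (s : ℕ) (h : s < w.length), (endPos x (w.take s) = w[s].1 → w[s].2 = true) ∧
      (endPos x (w.take s) = w[s].1 + 1 → w[s].2 = false)) → Over x w := by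
  induction w with
  | nil => intro x _; trivial
  | cons l w ih =>
    intro x h
    refine ⟨h 0 (by simp), ih fun s hs => ?_⟩
    have := h (s + 1) (by simp; omega)
    simpa using this

theorem rotate_equiv {n : ℕ} (w : NWord) (k : ℕ) :
    MarkovEquiv ⟨n, ev n w⟩ ⟨n, ev n (w.rotate k)⟩ := by
  rw [List.rotate_eq_drop_append_take_mod, ev_append]
  have h : ev n w = ev n (w.take (k % w.length)) * ev n (w.drop (k % w.length)) := by
    rw [← ev_append, List.take_append_drop]
  rw [h]
  exact markov_comm _ _

/-- **Main theorem**, internal form. -/
theorem closedBraid_wsap {n : ℕ} (w : List (Fin n × Bool)) (hw : ClosedBraidWSAP w) :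
    ∃ (m : ℕ) (β : Braid m), IsStronglyQuasipositive β ∧ MarkovEquiv ⟨n, wordBraid w⟩ ⟨m, β⟩ := by
  rw [wordBraid_eq]
  have hlt : ∀ l ∈ toN w, l.1 < n := by
    intro l hl
    obtain ⟨a, -, rfl⟩ := List.mem_map.1 hl
    exact a.1.2
  rcases hw with hpos | ⟨hL, k, p, m, hp, hover, hcov⟩
  · apply good_pos hlt
    intro l hl
    obtain ⟨a, ha, rfl⟩ := List.mem_map.1 hl
    exact hpos a ha
  · set L := w.length with hLdef
    set V : NWord := (toN w).rotate k with hV
    have hVlen : V.length = L := by simp [hV, toN, hLdef]
    have hWlen : (toN w).length = L := by simp [toN, hLdef]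
    have hVget : ∀ (t : ℕ) (s : ℕ) (hs : s < V.length), t % L = s →
        V[s] = (((w.get ⟨(k + t) % L, Nat.mod_lt _ hL⟩).1 : ℕ),
          (w.get ⟨(k + t) % L, Nat.mod_lt _ hL⟩).2) := by
      intro t s hs hts
      have h1 : V[s] = (toN w)[(s + k) % (toN w).length]'(by rw [hWlen]; exact Nat.mod_lt _ hL) := by
        simp only [hV]
        exact List.getElem_rotate _ _ _ _
      rw [h1]
      have h2 : (s + k) % (toN w).length = (k + t) % L := by
        rw [hWlen, ← hts]
        conv_rhs => rw [Nat.add_mod]
        rw [Nat.add_comm, Nat.add_mod, Nat.mod_mod]
      simp only [h2]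
      simp [toN]
    -- following the diagram
    have hfol : ∀ j s, s ≤ L →
        follow w hL k p (j * L + s) = endPos (turn V p j) (V.take s) := by
      intro j
      induction j with
      | zero =>
        intro s
        induction s with
        | zero => intro _; simp [follow, turn]
        | succ s ihs =>
          intro hs
          have ih := ihs (by omega)
          have h1 : V.take (s + 1) = V.take s ++ [V[s]] := by
            rw [List.take_append_getElem]
          rw [h1, endPos_append, ← ih, endPos_cons, endPos_nil,
            hVget (0 * L + s) s (by omega) (by simp; exact Nat.mod_eq_of_lt (by omega))]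
          rfl
      | succ j ihj =>
        intro s
        induction s with
        | zero =>
          intro _
          have h0 := ihj L le_rfl
          have h1 : (j + 1) * L + 0 = j * L + L := by ring
          rw [h1, h0, List.take_of_length_le (by omega)]
          simp [turn]
        | succ s ihs =>
          intro hs
          have ih := ihs (by omega)
          have h1 : V.take (s + 1) = V.take s ++ [V[s]] := by
            rw [List.take_append_getElem]
          rw [h1, endPos_append, ← ih, endPos_cons, endPos_nil,
            hVget ((j + 1) * L + s) s (by omega)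
              (by rw [Nat.add_comm, Nat.add_mul_mod_self_right]; exact Nat.mod_eq_of_lt (by omega))]
          rfl
    have hoverV : ∀ j s, (hs : s < V.length) → j * L + s < m →
        (endPos (turn V p j) (V.take s) = V[s].1 → V[s].2 = true) ∧
        (endPos (turn V p j) (V.take s) = V[s].1 + 1 → V[s].2 = false) := by
      intro j s hs hjs
      have h1 := hover (j * L + s) hjs
      rw [hfol j s (by omega)] at h1
      rw [hVget (j * L + s) s hs
        (by rw [Nat.add_comm, Nat.add_mul_mod_self_right]; exact Nat.mod_eq_of_lt (by omega))]
      exact h1
    have hdiv : m / L * L + m % L = m := by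
      rw [Nat.mul_comm]; exact Nat.div_add_mod m L
    have hmod : m % L < L := Nat.mod_lt _ hL
    have hsplit : V.take (m % L) ++ V.drop (m % L) = V := List.take_append_drop _ _
    have harc : Arc (V.take (m % L)) (V.drop (m % L)) p (m / L) := by
      refine ⟨?_, ?_, ?_⟩
      · rw [hsplit]
        intro j hj
        apply over_of_forall
        intro s hs
        apply hoverV j s hs
        have h9 : (j + 1) * L ≤ m / L * L := Nat.mul_le_mul_right _ hj
        rw [Nat.add_mul, Nat.one_mul] at h9
        omega
      · rw [hsplit]
        apply over_of_forall
        intro s hs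
        simp only [List.length_take] at hs
        have h1 := hoverV (m / L) s (by omega) (by omega)
        have h2 : (V.take (m % L)).take s = V.take s := by
          rw [List.take_take, min_eq_left (by omega)]
        rw [h2]
        simpa using h1
      · intro x i y hxy
        rw [hsplit] at hxy ⊢
        have hs : x.length < V.length := by rw [hxy]; simp
        have hVx : V[x.length] = (i, false) := by
          simp only [hxy]
          simp
        have htake : V.take x.length = x := by rw [hxy]; simp
        have hg := hVget x.length x.length hs (Nat.mod_eq_of_lt (by omega))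
        rw [hVx] at hg
        simp only [Prod.mk.injEq] at hg
        obtain ⟨hg1, hg2⟩ := hg
        obtain ⟨t, ht, htk, htf⟩ := hcov ⟨(k + x.length) % L, Nat.mod_lt _ hL⟩ hg2.symm
        simp only at htk
        have htm : t % L = x.length := by
          have h1 : (k + t) ≡ (k + x.length) [MOD L] := htk
          have h2 := Nat.ModEq.add_left_cancel' k h1
          have h3 : t % L = x.length % L := h2
          rw [h3, Nat.mod_eq_of_lt (by omega)]
        have htd : t / L * L + x.length = t := by
          rw [← htm, Nat.mul_comm]; exact Nat.div_add_mod t L
        have hpos' : endPos (turn V p (t / L)) x = i + 1 := by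
          have h4 := hfol (t / L) x.length (by omega)
          rw [htd, htake] at h4
          rw [← h4, htf, ← hg1]
        rcases Nat.lt_or_ge (t / L) (m / L) with h5 | h5
        · exact Or.inl ⟨t / L, h5, hpos'⟩
        · have h6 : t / L = m / L := le_antisymm (Nat.div_le_div_right ht.le) h5
          right
          rw [h6] at hpos'
          refine ⟨?_, hpos'⟩
          rw [List.length_take]
          rw [h6] at htd
          omega
    have hVlt : ∀ l ∈ V.take (m % L) ++ V.drop (m % L), l.1 < n := by
      rw [hsplit]
      intro l hl
      exact hlt l (List.mem_rotate.1 hl)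
    have hgood := good_arc (m / L) hVlt hp harc
    rw [hsplit] at hgood
    exact Good.of_equiv (rotate_equiv _ k) hgood

end Run7.h193
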