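import Pool.Agent.Run7.h193.BraidArc

namespace Run7.h193

theorem ev_pos {n : ℕ} {w : NWord} (hw : ∀ l ∈ w, l.2 = true) :
    ev n w = posWord n (w.map Prod.fst) := by
  induction w with
  | nil => rfl
  | cons l w ih =>
    rw [ev_cons, ih fun x hx => hw x (by simp [hx])]
    simp [hw l (by simp)]

theorem addStrand_ev {n : ℕ} {w : NWord} (hw : ∀ l ∈ w, l.1 < n) :
    addStrand n (ev n w) = ev (n + 1) w := by
  induction w with
  | nil => simp
  | cons l w ih =>
    rw [ev_cons, ev_cons, map_mul, ih fun x hx => hw x (by simp [hx])]
    have := addStrand_sig (hw l (by simp))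
    split_ifs <;> simp [this]

/-- The target: being Markov equivalent to a strongly quasipositive braid. -/
def Good (n : ℕ) (β : Braid n) : Prop :=
  ∃ (m : ℕ) (γ : Braid m), IsStronglyQuasipositive γ ∧ MarkovEquiv ⟨n, β⟩ ⟨m, γ⟩

theorem Good.of_equiv {n k : ℕ} {β : Braid n} {γ : Braid k} (h : MarkovEquiv ⟨n, β⟩ ⟨k, γ⟩)
    (hg : Good k γ) : Good n β := by
  obtain ⟨m, δ, h1, h2⟩ := hg
  exact ⟨m, δ, h1, h.trans h2⟩

theorem good_pos {n : ℕ} {w : NWord} (hn : ∀ l ∈ w, l.1 < n) (hw : ∀ l ∈ w, l.2 = true) :
    Good n (ev n w) := by
  refine ⟨n, _, ?_, MarkovEquiv.refl _⟩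
  rw [ev_pos hw]
  apply isSQP_posWord
  intro i hi
  obtain ⟨l, hl, rfl⟩ := List.mem_map.1 hi
  exact hn l hl

theorem good_base {n : ℕ} {u v : NWord} {p : ℕ} (hw : ∀ l ∈ u ++ v, l.1 < n) (hp : p ≤ n)
    (h : Arc u v p 0) : Good n (ev n (u ++ v)) := by
  have hu : ∀ l ∈ u, l.1 < n := fun l hl => hw l (by simp [hl])
  have hv : ∀ l ∈ v, l.1 < n := fun l hl => hw l (by simp [hl])
  have hpart : Over p u := h.part
  have hvpos : ∀ l ∈ v, l.2 = true := by
    intro l hl
    by_contra hb
    obtain ⟨i, b⟩ := l
    simp only [Bool.not_eq_true] at hb
    subst hb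
    obtain ⟨x, y, rfl⟩ := List.append_of_mem hl
    rcases h.cov (u ++ x) i y (by simp) with ⟨j, hj, -⟩ | ⟨hlt, -⟩
    · omega
    · simp at hlt
  have hdpos : ∀ l ∈ del p u, l.2 = true := by
    intro l hl
    by_contra hb
    obtain ⟨i, b⟩ := l
    simp only [Bool.not_eq_true] at hb
    subst hb
    obtain ⟨x, y, hxy⟩ := List.append_of_mem hl
    obtain ⟨x₀, i₀, y₀, hsp, -, -, hne, -⟩ := del_split hxy
    rcases h.cov x₀ i₀ (y₀ ++ v) (by simp [hsp]) with ⟨j, hj, -⟩ | ⟨-, he⟩
    · omega
    · exact hne he
  have hq : endPos p u ≤ n := endPos_le hu hp
  have hdlt : ∀ l ∈ del p u, l.1 < n := by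
    cases n with
    | zero =>
      intro l hl
      have : u = [] := by
        cases u with
        | nil => rfl
        | cons a u => exact absurd (hu a (by simp)) (by omega)
      subst this
      simp [del] at hl
    | succ n =>
      intro l hl
      have := del_lt hu hp l hl
      omega
  rw [ev_append, ev_eq_of_over hu hp hpart, ev_pos hvpos, ev_pos hdpos]
  have h1 : ascending n p n * posWord n ((del p u).map Prod.fst) *
      (ascending n (endPos p u) n)⁻¹ * posWord n (v.map Prod.fst) =
      (ascending n p n * posWord n ((del p u).map Prod.fst)) *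
      ((ascending n (endPos p u) n)⁻¹ * posWord n (v.map Prod.fst)) := by
    simp [mul_assoc]
  rw [h1]
  refine Good.of_equiv (markov_comm _ _) ?_
  have h2 : (ascending n (endPos p u) n)⁻¹ * posWord n (v.map Prod.fst) *
      (ascending n p n * posWord n ((del p u).map Prod.fst)) =
      (ascending n (endPos p u) n)⁻¹ *
        posWord n (v.map Prod.fst ++ (List.range' p (n - p) ++ (del p u).map Prod.fst)) := by
    have h3 : posWord n (List.range' p (n - p)) = ascending n p n := rfl
    rw [posWord_append, posWord_append, h3]
    simp [mul_assoc]
  rw [h2]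
  refine markov_sqp_of_pos n _ hq _ _ le_rfl ?_
  intro i hi
  rcases List.mem_append.1 hi with hi | hi
  · obtain ⟨l, hl, rfl⟩ := List.mem_map.1 hi
    exact hv l hl
  rcases List.mem_append.1 hi with hi | hi
  · rw [List.mem_range'_1] at hi
    omega
  · obtain ⟨l, hl, rfl⟩ := List.mem_map.1 hi
    exact hdlt l hl

/-- identity used for removing a full turn -/
theorem asc_inv_mul_asc {n p q : ℕ} (hpq : p < q) (hq : q ≤ n + 1) :
    (ascending (n + 1) q (n + 1))⁻¹ * ascending (n + 1) p (n + 1) =
      ascending (n + 1) p (q - 1) * (ascending (n + 1) (q - 1) n * sig (n + 1) n *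
        (ascending (n + 1) (q - 1) n)⁻¹) := by
  obtain ⟨r, rfl⟩ : ∃ r, q = r + 1 := ⟨q - 1, by omega⟩
  rw [Nat.add_sub_cancel]
  have hb : ascending (n + 1) r n * sig (n + 1) n * (ascending (n + 1) r n)⁻¹ =
      bandGen (n + 1) r (n + 1) := rfl
  rw [hb, bandGen_eq (by omega) le_rfl]
  have hA : ascending (n + 1) p (n + 1) =
      ascending (n + 1) p r * (sig (n + 1) r * ascending (n + 1) (r + 1) (n + 1)) := by
    rw [asc_append (j := r) (by omega) (by omega), asc_left (i := r) (by omega)]
  have hcomm : ascending (n + 1) p r * ascending (n + 1) (r + 1) (n + 1) =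
      ascending (n + 1) (r + 1) (n + 1) * ascending (n + 1) p r := by
    rcases le_total r p with h | h
    · rw [asc_of_le h]; simp
    · have : ∀ t, p ≤ t → t ≤ r → ascending (n + 1) p t * ascending (n + 1) (r + 1) (n + 1) =
          ascending (n + 1) (r + 1) (n + 1) * ascending (n + 1) p t := by
        intro t ht
        induction t, ht using Nat.le_induction with
        | base => intro _; rw [asc_of_le le_rfl]; simp
        | succ t ht ih =>
          intro htr
          rw [asc_right ht, mul_assoc, asc_comm_low (by omega) le_rfl, ← mul_assoc,
            ih (by omega), mul_assoc]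
      exact this r h le_rfl
  rw [hA, inv_mul_eq_iff_eq_mul]
  calc ascending (n + 1) p r * (sig (n + 1) r * ascending (n + 1) (r + 1) (n + 1))
      = ascending (n + 1) p r * ascending (n + 1) (r + 1) (n + 1) *
        ((ascending (n + 1) (r + 1) (n + 1))⁻¹ * sig (n + 1) r *
          ascending (n + 1) (r + 1) (n + 1)) := by simp [mul_assoc]
    _ = _ := by rw [hcomm]; simp [mul_assoc]

theorem markov_turn_up {n p q : ℕ} (hpq : p < q) (hq : q ≤ n + 1) (W : Braid n) :
    MarkovEquiv ⟨n + 1, ascending (n + 1) p (n + 1) * addStrand n W *
      (ascending (n + 1) q (n + 1))⁻¹⟩ ⟨n, ascending n p (q - 1) * W⟩ := by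
  refine (markov_comm _ _).trans ?_
  rw [← mul_assoc, asc_inv_mul_asc hpq hq, ← addStrand_asc (by omega : q - 1 ≤ n),
    ← addStrand_asc (le_refl n)]
  have h1 : addStrand n (ascending n p (q - 1)) * (addStrand n (ascending n (q - 1) n) *
      sig (n + 1) n * (addStrand n (ascending n (q - 1) n))⁻¹) * addStrand n W =
      (addStrand n (ascending n p (q - 1) * ascending n (q - 1) n) * sig (n + 1) n) *
        addStrand n ((ascending n (q - 1) n)⁻¹ * W) := by
    simp [mul_assoc]
  rw [h1]
  refine (markov_comm _ _).trans ?_
  rw [← mul_assoc, ← map_mul]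
  refine (markov_stabPos _).symm.trans ?_
  have h2 : (ascending n (q - 1) n)⁻¹ * W * (ascending n p (q - 1) * ascending n (q - 1) n) =
      (ascending n (q - 1) n)⁻¹ * (W * ascending n p (q - 1) * ascending n (q - 1) n) := by
    simp [mul_assoc]
  rw [h2]
  refine (markov_comm _ _).trans ?_
  rw [mul_inv_cancel_right]
  exact markov_comm _ _

theorem markov_turn_down {n p q : ℕ} (hpq : q < p) (hp : p ≤ n + 1) (W : Braid n) :
    MarkovEquiv ⟨n + 1, ascending (n + 1) p (n + 1) * addStrand n W *
      (ascending (n + 1) q (n + 1))⁻¹⟩ ⟨n, (ascending n q (p - 1))⁻¹ * W⟩ := by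
  refine (markov_comm _ _).trans ?_
  have h0 : (ascending (n + 1) q (n + 1))⁻¹ * ascending (n + 1) p (n + 1) =
      ((ascending (n + 1) p (n + 1))⁻¹ * ascending (n + 1) q (n + 1))⁻¹ := by
    simp
  rw [← mul_assoc, h0, asc_inv_mul_asc hpq hp, ← addStrand_asc (by omega : p - 1 ≤ n),
    ← addStrand_asc (le_refl n)]
  have h1 : (addStrand n (ascending n q (p - 1)) * (addStrand n (ascending n (p - 1) n) *
      sig (n + 1) n * (addStrand n (ascending n (p - 1) n))⁻¹))⁻¹ * addStrand n W =
      (addStrand n (ascending n (p - 1) n) * (sig (n + 1) n)⁻¹) *
        addStrand n ((ascending n (p - 1) n)⁻¹ * (ascending n q (p - 1))⁻¹ * W) := by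
    simp [mul_assoc]
  rw [h1]
  refine (markov_comm _ _).trans ?_
  rw [← mul_assoc, ← map_mul]
  refine (markov_stabNeg _).symm.trans ?_
  have h2 : (ascending n (p - 1) n)⁻¹ * (ascending n q (p - 1))⁻¹ * W * ascending n (p - 1) n =
      (ascending n (p - 1) n)⁻¹ * ((ascending n q (p - 1))⁻¹ * W * ascending n (p - 1) n) := by
    simp [mul_assoc]
  rw [h2]
  refine (markov_comm _ _).trans ?_
  rw [mul_inv_cancel_right]
  exact MarkovEquiv.refl _

theorem turn_succ' (w : NWord) (p j : ℕ) : turn w p (j + 1) = endPos (turn w p j) w := rfl

/-- Main induction: the number of full turns. -/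
theorem good_arc (a : ℕ) : ∀ {n : ℕ} {u v : NWord} {p : ℕ}, (∀ l ∈ u ++ v, l.1 < n) → p ≤ n →
    Arc u v p a → Good n (ev n (u ++ v)) := by
  induction a with
  | zero => intro n u v p hw hp h; exact good_base hw hp h
  | succ a ih =>
    intro n u v p hw hp h
    set w := u ++ v with hwdef
    have hover : Over p w := h.full 0 (by omega)
    set q := endPos p w with hq
    have hqn : q ≤ n := endPos_le hw hp
    rcases eq_or_ne q p with hqp | hqp
    · -- a closed component passing over everything
      have hturn : ∀ j, turn w p j = p := by
        intro j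
        induction j with
        | zero => rfl
        | succ j ihj => rw [turn_succ', ihj]; exact hqp
      have hdpos : ∀ l ∈ del p w, l.2 = true := by
        intro l hl
        by_contra hb
        obtain ⟨i, b⟩ := l
        simp only [Bool.not_eq_true] at hb
        subst hb
        obtain ⟨x, y, hxy⟩ := List.append_of_mem hl
        obtain ⟨x₀, i₀, y₀, hsp, -, -, hne, -⟩ := del_split hxy
        rcases h.cov x₀ i₀ y₀ hsp with ⟨j, -, he⟩ | ⟨-, he⟩
        · rw [hturn] at he; exact hne he
        · rw [hturn] at he; exact hne he
      have hdlt : ∀ l ∈ del p w, l.1 < n := by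
        cases n with
        | zero =>
          intro l hl
          have : w = [] := by
            cases hww : w with
            | nil => rfl
            | cons b w' => exact absurd (hw b (by rw [hww]; simp)) (by omega)
          rw [this] at hl
          simp [del] at hl
        | succ n =>
          intro l hl
          have := del_lt hw hp l hl
          omega
      rw [ev_eq_of_over hw hp hover, ← hq, hqp, mul_assoc]
      refine Good.of_equiv (markov_comm _ _) ?_
      rw [mul_assoc, inv_mul_cancel, mul_one]
      exact good_pos hdlt hdpos
    · -- remove one full turn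
      obtain ⟨n, rfl⟩ : ∃ k, n = k + 1 := ⟨n - 1, by omega⟩
      have hdlt : ∀ l ∈ del p w, l.1 < n := del_lt hw hp
      have hdsplit : del p w = del p u ++ del (endPos p u) v := del_append u v p
      -- properties of the new run
      obtain ⟨R, hR0, hR0', hRj, hRneg, hRlt, hRM⟩ : ∃ R : NWord,
          endPos (sh q p) R = sh p q ∧ Over (sh q p) R ∧
          (∀ x, (p < q → q < x) → (q < p → x < q) →
            endPos (sh q x) R = sh p x ∧ Over (sh q x) R) ∧
          (∀ x i y, R = x ++ (i, false) :: y → endPos (sh q p) x = i + 1) ∧
          (∀ l ∈ R, l.1 < n) ∧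
          MarkovEquiv ⟨n + 1, ev (n + 1) w⟩ ⟨n, ev n (R ++ del p w)⟩ := by
        rcases lt_or_gt_of_ne hqp with hlt | hgt
        · -- q < p
          refine ⟨downRun q (p - 1 - q), ?_, ?_, ?_, ?_, ?_, ?_⟩
          · have h1 : sh q p = q + (p - 1 - q) := by unfold sh; split_ifs <;> omega
            have h2 : sh p q = q := by unfold sh; split_ifs <;> omega
            rw [h1, h2]; exact endPos_downRun _ _
          · have h1 : sh q p = q + (p - 1 - q) := by unfold sh; split_ifs <;> omega
            rw [h1]; exact over_downRun _ _
          · intro x _ hx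
            have hx := hx hlt
            have h1 : sh q x = x := by unfold sh; split_ifs <;> omega
            have h2 : sh p x = x := by unfold sh; split_ifs <;> omega
            rw [h1, h2]
            exact endPos_downRun_of _ _ _ (Or.inl hx)
          · intro x i y hs
            have h1 : sh q p = q + (p - 1 - q) := by unfold sh; split_ifs <;> omega
            rw [h1]; exact downRun_split _ _ x i false y hs
          · intro l hl
            have := downRun_lt _ _ l hl
            omega
          · rw [ev_eq_of_over hw hp hover, ← hq, ← addStrand_ev hdlt, ev_append, ev_downRun]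
            have h1 : q + (p - 1 - q) = p - 1 := by omega
            rw [h1]
            exact markov_turn_down hlt hp _
        · -- p < q
          refine ⟨upRun p (q - 1 - p), ?_, ?_, ?_, ?_, ?_, ?_⟩
          · have h1 : sh q p = p := by unfold sh; split_ifs <;> omega
            have h2 : sh p q = p + (q - 1 - p) := by unfold sh; split_ifs <;> omega
            rw [h1, h2]; exact endPos_upRun _ _
          · have h1 : sh q p = p := by unfold sh; split_ifs <;> omega
            rw [h1]; exact over_upRun _ _
          · intro x hx _
            have hx := hx hgt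
            have h1 : sh q x = x - 1 := by unfold sh; split_ifs <;> omega
            have h2 : sh p x = x - 1 := by unfold sh; split_ifs <;> omega
            rw [h1, h2]
            exact endPos_upRun_of _ _ _ (Or.inr (by omega))
          · intro x i y hs
            have := upRun_pos _ _ (i, false) (by rw [hs]; simp)
            simp at this
          · intro l hl
            have := upRun_lt _ _ l hl
            omega
          · rw [ev_eq_of_over hw hp hover, ← hq, ← addStrand_ev hdlt, ev_append, ev_upRun]
            have h1 : p + (q - 1 - p) = q - 1 := by omega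
            rw [h1]
            exact markov_turn_up hgt hqn _
      -- monotonicity of the turns
      have hmono : ∀ j, j < a + 1 → (p < q → turn w p j < turn w p (j + 1)) ∧
          (q < p → turn w p (j + 1) < turn w p j) := by
        intro j
        induction j with
        | zero => intro _; exact ⟨fun h => h, fun h => h⟩
        | succ j ihj =>
          intro hj
          obtain ⟨h1, h2⟩ := ihj (by omega)
          exact ⟨fun hh => endPos_lt_of_over (h1 hh) (h.full j (by omega)) (h.full (j + 1) hj),
            fun hh => endPos_lt_of_over (h2 hh) (h.full (j + 1) hj) (h.full j (by omega))⟩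
      have hbeyond : ∀ j, j < a → (p < q → q < turn w p (j + 2)) ∧
          (q < p → turn w p (j + 2) < q) := by
        intro j
        induction j with
        | zero =>
          intro h0
          exact ⟨fun hh => (hmono 1 (by omega)).1 hh, fun hh => (hmono 1 (by omega)).2 hh⟩
        | succ j ihj =>
          intro hj
          obtain ⟨h1, h2⟩ := ihj (by omega)
          exact ⟨fun hh => lt_trans (h1 hh) ((hmono (j + 2) (by omega)).1 hh),
            fun hh => lt_trans ((hmono (j + 2) (by omega)).2 hh) (h2 hh)⟩
      have hne : ∀ j, j < a + 1 → turn w p (j + 1) ≠ p := by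
        intro j hj
        rcases j with _ | j
        · exact hqp
        · obtain ⟨h1, h2⟩ := hbeyond j (by omega)
          rcases lt_or_gt_of_ne hqp with hlt | hgt
          · have := h2 hlt
            show turn w p (j + 2) ≠ p
            omega
          · have := h1 hgt
            show turn w p (j + 2) ≠ p
            omega
      -- turns of the new word
      have hturn : ∀ j, j < a + 1 →
          endPos (turn (R ++ del p w) (sh q p) j) R = sh p (turn w p (j + 1)) ∧
            Over (turn (R ++ del p w) (sh q p) j) R := by
        intro j
        induction j with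
        | zero => intro _; exact ⟨hR0, hR0'⟩
        | succ j ihj =>
          intro hj
          obtain ⟨h1, -⟩ := ihj (by omega)
          have h3 : turn (R ++ del p w) (sh q p) (j + 1) = sh q (turn w p (j + 2)) := by
            rw [turn_succ', endPos_append, h1, endPos_del (hne j (by omega))]
            rfl
          rw [h3]
          obtain ⟨h4, h5⟩ := hbeyond j (by omega)
          exact hRj _ h4 h5
      refine Good.of_equiv hRM ?_
      have hsplit' : R ++ del p w = (R ++ del p u) ++ del (endPos p u) v := by
        rw [hdsplit, List.append_assoc]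
      rw [hsplit']
      refine ih (p := sh q p) ?_ ?_ ⟨?_, ?_, ?_⟩
      · rw [← hsplit']
        intro l hl
        rcases List.mem_append.1 hl with hl | hl
        · exact hRlt l hl
        · exact hdlt l hl
      · unfold sh; split_ifs <;> omega
      · intro j hj
        rw [← hsplit', over_append]
        obtain ⟨h1, h2⟩ := hturn j (by omega)
        refine ⟨h2, ?_⟩
        rw [h1]
        exact over_del (hne j (by omega)) (h.full (j + 1) (by omega))
      · rw [← hsplit', over_append]
        obtain ⟨h1, h2⟩ := hturn a (by omega)
        refine ⟨h2, ?_⟩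
        rw [h1]
        exact over_del (hne a (by omega)) h.part
      · intro x' i' y' hs
        rw [← hsplit'] at hs ⊢
        rcases List.append_eq_append_iff.1 hs with ⟨z, hz1, hz2⟩ | ⟨z, hz1, hz2⟩
        · -- x' = R ++ z
          obtain ⟨x, i, y, hw0, hdx, hn1, hn2, hi'⟩ := del_split hz2
          have hsh : sh (endPos p x) (i + 1) = i' + 1 := by
            rw [hi']; unfold sh; split_ifs <;> omega
          have hkey : ∀ j, j < a + 1 → endPos (turn w p (j + 1)) x = i + 1 →
              endPos (turn (R ++ del p w) (sh q p) j) x' = i' + 1 := by
            intro j hj he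
            rw [hz1, endPos_append, (hturn j hj).1, ← hdx, endPos_del (hne j hj), he, hsh]
          rcases h.cov x i y hw0 with ⟨j, hj, he⟩ | ⟨hlen, he⟩
          · rcases j with _ | j
            · exact absurd he hn2
            · left
              exact ⟨j, by omega, hkey j (by omega) he⟩
          · right
            refine ⟨?_, hkey a (by omega) he⟩
            have hu : ∃ z', u = x ++ (i, false) :: z' := by
              rw [hwdef] at hw0
              rcases List.append_eq_append_iff.1 hw0 with ⟨t, ht1, ht2⟩ | ⟨t, ht1, ht2⟩
              · rw [ht1] at hlen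
                simp at hlen
              · rcases t with _ | ⟨t0, t⟩
                · rw [ht1] at hlen; simp at hlen
                · simp only [List.cons_append, List.cons.injEq] at ht2
                  obtain ⟨rfl, -⟩ := ht2
                  exact ⟨t, ht1⟩
            obtain ⟨z', rfl⟩ := hu
            have hd : del p (x ++ (i, false) :: z') = del p x ++
                (if i < endPos p x then i else i - 1, false) ::
                  del (move i (endPos p x)) z' := by
              rw [del_append, del, if_neg (by push Not; exact ⟨hn1, hn2⟩)]
            rw [hz1, hd, ← hdx]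
            simp
        · -- R = x' ++ z
          rcases z with _ | ⟨z0, z⟩
          · -- x' = R exactly
            simp only [List.append_nil] at hz1
            simp only [List.nil_append] at hz2
            obtain ⟨x, i, y, hw0, hdx, hn1, hn2, hi'⟩ := del_split (x' := []) hz2.symm
            have hsh : sh (endPos p x) (i + 1) = i' + 1 := by
              rw [hi']; unfold sh; split_ifs <;> omega
            have hkey : ∀ j, j < a + 1 → endPos (turn w p (j + 1)) x = i + 1 →
                endPos (turn (R ++ del p w) (sh q p) j) x' = i' + 1 := by
              intro j hj he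
              have h6 := endPos_del (w := x) (hne j hj)
              rw [hdx, he, hsh] at h6
              rw [← hz1, (hturn j hj).1]
              exact h6
            rcases h.cov x i y hw0 with ⟨j, hj, he⟩ | ⟨hlen, he⟩
            · rcases j with _ | j
              · exact absurd he hn2
              · left
                exact ⟨j, by omega, hkey j (by omega) he⟩
            · right
              refine ⟨?_, hkey a (by omega) he⟩
              have hu : ∃ z', u = x ++ (i, false) :: z' := by
                rw [hwdef] at hw0
                rcases List.append_eq_append_iff.1 hw0 with ⟨t, ht1, ht2⟩ | ⟨t, ht1, ht2⟩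
                · rw [ht1] at hlen
                  simp at hlen
                · rcases t with _ | ⟨t0, t⟩
                  · rw [ht1] at hlen; simp at hlen
                  · simp only [List.cons_append, List.cons.injEq] at ht2
                    obtain ⟨rfl, -⟩ := ht2
                    exact ⟨t, ht1⟩
              obtain ⟨z', rfl⟩ := hu
              have hd : del p (x ++ (i, false) :: z') = del p x ++
                  (if i < endPos p x then i else i - 1, false) ::
                    del (move i (endPos p x)) z' := by
                rw [del_append, del, if_neg (by push Not; exact ⟨hn1, hn2⟩)]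
              rw [hd, hz1]
              simp
          · simp only [List.cons_append, List.cons.injEq] at hz2
            obtain ⟨hz0, hz2⟩ := hz2
            have h7 := hRneg x' i' z (by rw [hz1, hz0])
            rcases a with _ | a
            · right
              refine ⟨?_, h7⟩
              rw [hz1]; simp
            · left
              exact ⟨0, by omega, h7⟩

end Run7.h193
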