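import Mathlib

set_option autoImplicit false

/-!
# Fractional vertex covers of the complete graph on five vertices: the conditions
-/

namespace Pool.Agent.Run7.h193.FM

open Finset

/-- The positive part. -/
noncomputable def pp (t : ℝ) : ℝ := max t 0

/-- The negative part. -/
noncomputable def nn (t : ℝ) : ℝ := max (-t) 0

theorem pp_nonneg (t : ℝ) : 0 ≤ pp t := le_max_right _ _
theorem nn_nonneg (t : ℝ) : 0 ≤ nn t := le_max_right _ _
theorem pp_of_nonneg {t : ℝ} (h : 0 ≤ t) : pp t = t := max_eq_left h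
theorem pp_of_nonpos {t : ℝ} (h : t ≤ 0) : pp t = 0 := max_eq_right h
theorem nn_of_nonneg {t : ℝ} (h : 0 ≤ t) : nn t = 0 := max_eq_right (by linarith)
theorem nn_of_nonpos {t : ℝ} (h : t ≤ 0) : nn t = -t := max_eq_left (by linarith)
theorem pp_neg (t : ℝ) : pp (-t) = nn t := rfl
theorem nn_neg (t : ℝ) : nn (-t) = pp t := by unfold nn pp; rw [neg_neg]

/-- The condition for the F-curve with the parts `{a, b}`, `{c}`, `{d}`, `{e}`. -/
def G (zab zcd zce zde pc pd pe : ℝ) : Prop :=
  nn zcd + nn zce + nn zde ≤ pp zab ∨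
  pp zcd + pp zce + nn zde ≤ nn zab + pc ∨
  pp zcd + pp zde + nn zce ≤ nn zab + pd ∨
  pp zce + pp zde + nn zcd ≤ nn zab + pe

theorem G.swap1 {zab zcd zce zde pc pd pe : ℝ} (h : G zab zcd zce zde pc pd pe) :
    G zab zcd zde zce pd pc pe := by
  unfold G at *
  rcases h with h | h | h | h
  · left; linarith
  · right; right; left; linarith
  · right; left; linarith
  · right; right; right; linarith

theorem G.swap2 {zab zcd zce zde pc pd pe : ℝ} (h : G zab zcd zce zde pc pd pe) :
    G zab zce zcd zde pc pe pd := by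
  unfold G at *
  rcases h with h | h | h | h
  · left; linarith
  · right; left; linarith
  · right; right; right; linarith
  · right; right; left; linarith

/-- Five different elements. -/
def Five (a b c d e : Fin 5) : Prop :=
  a ≠ b ∧ a ≠ c ∧ a ≠ d ∧ a ≠ e ∧ b ≠ c ∧ b ≠ d ∧ b ≠ e ∧ c ≠ d ∧ c ≠ e ∧ d ≠ e

instance (a b c d e : Fin 5) : Decidable (Five a b c d e) := by unfold Five; infer_instance

/-- The condition for `a, b, c, d, e`. -/
def GG (x : Fin 5 → Fin 5 → ℝ) (p : Fin 5 → ℝ) (a b c d e : Fin 5) : Prop :=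
  G (p a + p b - x a b) (p c + p d - x c d) (p c + p e - x c e) (p d + p e - x d e)
    (p c) (p d) (p e)

/-- The condition for all F-curves. -/
def AllGood (x : Fin 5 → Fin 5 → ℝ) (p : Fin 5 → ℝ) : Prop :=
  ∀ a b c d e : Fin 5, Five a b c d e → GG x p a b c d e

theorem sum_five {a b c d e : Fin 5} (h : Five a b c d e) (f : Fin 5 → ℝ) :
    ∑ i, f i = f a + f b + f c + f d + f e := by
  obtain ⟨h1, h2, h3, h4, h5, h6, h7, h8, h9, h10⟩ := h
  have hu : (univ : Finset (Fin 5)) = {a, b, c, d, e} := by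
    symm
    apply eq_univ_of_card
    rw [Fintype.card_fin, card_insert_of_notMem, card_insert_of_notMem, card_insert_of_notMem,
      card_insert_of_notMem, card_singleton] <;> simp [*]
  rw [hu, sum_insert (by simp [*]), sum_insert (by simp [*]), sum_insert (by simp [*]),
    sum_insert (by simp [*]), sum_singleton]
  ring

/-- The case in which the fifth vertex has weight zero. -/
theorem mixG {zab zcd zce zde pc pd : ℝ} (hab : 0 ≤ zab) (hcd : 0 ≤ zcd) (hpc : 0 ≤ pc)
    (hpd : 0 ≤ pd) (h1 : zce ≤ 0 ∨ 0 ≤ zde ∨ zcd ≤ pd ∨ -zde ≤ zab)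
    (h2 : zde ≤ 0 ∨ 0 ≤ zce ∨ zcd ≤ pc ∨ -zce ≤ zab) : G zab zcd zce zde pc pd 0 := by
  unfold G
  rw [nn_of_nonneg hcd, pp_of_nonneg hcd, pp_of_nonneg hab, nn_of_nonneg hab]
  rcases le_total 0 zce with hc | hc
  · rcases le_total 0 zde with hd | hd
    · left
      rw [nn_of_nonneg hc, nn_of_nonneg hd]
      linarith
    · rw [nn_of_nonneg hc, nn_of_nonpos hd, pp_of_nonneg hc, pp_of_nonpos hd]
      rcases h1 with h | h | h | h
      · right; right; right; linarith
      · left; linarith
      · right; right; left; linarith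
      · left; linarith
  · rcases le_total 0 zde with hd | hd
    · rw [nn_of_nonpos hc, nn_of_nonneg hd, pp_of_nonpos hc, pp_of_nonneg hd]
      rcases h2 with h | h | h | h
      · right; right; right; linarith
      · left; linarith
      · right; left; linarith
      · left; linarith
    · right; right; right
      rw [pp_of_nonpos hc, pp_of_nonpos hd]
      linarith

/-- The mixed condition for `k`, `l`; the vertex `e` has weight zero. -/
def Mx (x : Fin 5 → Fin 5 → ℝ) (D : ℝ) (p : Fin 5 → ℝ) (i j k l e : Fin 5) : Prop :=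
  p k ≤ x k e ∨ x l e ≤ p l ∨ p k ≤ x k l ∨ p k + x l e + x i j ≤ D

theorem core {x : Fin 5 → Fin 5 → ℝ} (hs : ∀ i j, x i j = x j i) {D : ℝ} {p : Fin 5 → ℝ}
    (hp : ∀ i, 0 ≤ p i) (hD : ∑ i, p i = D) {e : Fin 5} (he : p e = 0)
    (hcov : ∀ i j, i ≠ j → i ≠ e → j ≠ e → x i j ≤ p i + p j)
    (hmix : ∀ i j k l, Five i j k l e → Mx x D p i j k l e) : AllGood x p := by
  -- the fifth vertex last
  have key : ∀ a b c d : Fin 5, Five a b c d e → GG x p a b c d e := by
    intro a b c d h
    have hsum := sum_five h p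
    have m1 := hmix a b c d h
    have h' := h
    obtain ⟨h1, h2, h3, h4, h5, h6, h7, h8, h9, h10⟩ := h
    have m2 := hmix a b d c ⟨h1, h3, h2, h4, h6, h5, h7, h8.symm, h10, h9⟩
    have c1 := hcov a b h1 h4 h7
    have c2 := hcov c d h8 h9 h10
    unfold GG
    rw [he]
    unfold Mx at m1 m2
    refine mixG (by linarith) (by linarith) (hp c) (hp d) ?_ ?_
    · rcases m1 with h | h | h | h
      · left; linarith
      · right; left; linarith
      · right; right; left; linarith
      · right; right; right; linarith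
    · rcases m2 with h | h | h | h
      · left; linarith
      · right; left; linarith
      · right; right; left; rw [hs d c] at h; linarith
      · right; right; right; linarith
  intro a b c d f h
  have h' := h
  obtain ⟨h1, h2, h3, h4, h5, h6, h7, h8, h9, h10⟩ := h
  by_cases e1 : e = f
  · subst e1; exact key a b c d h'
  by_cases e2 : e = d
  · subst e2
    have := key a b c f ⟨h1, h2, h4, h3, h5, h7, h6, h9, h8, h10.symm⟩
    unfold GG at this ⊢
    rw [hs e f, add_comm (p e) (p f)]
    exact this.swap2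
  by_cases e3 : e = c
  · subst e3
    have := key a b d f ⟨h1, h3, h4, h2, h6, h7, h5, h10, h8.symm, h9.symm⟩
    unfold GG at this ⊢
    rw [hs e d, hs e f, add_comm (p e) (p d), add_comm (p e) (p f)]
    exact this.swap2.swap1
  · left
    have z : ∀ i j, i ≠ j → i ≠ e → j ≠ e → nn (p i + p j - x i j) = 0 := fun i j a b c =>
      nn_of_nonneg (by have := hcov i j a b c; linarith)
    rw [z c d h8 (Ne.symm e3) (Ne.symm e2), z c f h9 (Ne.symm e3) (Ne.symm e1),
      z d f h10 (Ne.symm e2) (Ne.symm e1)]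
    have := pp_nonneg (p a + p b - x a b)
    linarith

/-- The conditions do not depend on the numbering. -/
theorem transport {x : Fin 5 → Fin 5 → ℝ} {D : ℝ} (σ : Equiv.Perm (Fin 5))
    (h : ∃ p : Fin 5 → ℝ, (∀ i, 0 ≤ p i) ∧ ∑ i, p i = D ∧ AllGood (fun i j => x (σ i) (σ j)) p) :
    ∃ p : Fin 5 → ℝ, (∀ i, 0 ≤ p i) ∧ ∑ i, p i = D ∧ AllGood x p := by
  obtain ⟨p, h1, h2, h3⟩ := h
  refine ⟨fun i => p (σ.symm i), fun i => h1 _, ?_, ?_⟩
  · rw [Equiv.sum_comp σ.symm p]
    exact h2
  · intro a b c d e hf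
    have inj : ∀ i j : Fin 5, i ≠ j → σ.symm i ≠ σ.symm j := fun i j hij h => hij (σ.symm.injective h)
    obtain ⟨k1, k2, k3, k4, k5, k6, k7, k8, k9, k10⟩ := hf
    have := h3 (σ.symm a) (σ.symm b) (σ.symm c) (σ.symm d) (σ.symm e)
      ⟨inj _ _ k1, inj _ _ k2, inj _ _ k3, inj _ _ k4, inj _ _ k5, inj _ _ k6, inj _ _ k7,
        inj _ _ k8, inj _ _ k9, inj _ _ k10⟩
    unfold GG at this ⊢
    simpa using this

end Pool.Agent.Run7.h193.FM
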