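import Pool.Agent.Run7.h193.FM9

set_option autoImplicit false

/-!
# Divisors of degree zero on the F-curves with two parts disjoint from five marks: the theorem
-/

namespace Pool.Agent.Run7.h193.FM

open Finset Pool.Agent.NH37.FC Pool.Agent.NH37.SL Pool.Agent.NH37.MF

variable {q : ℕ} {g : Finset (Fin q) → ℝ} {h : Fin 5 ↪ Fin q} {P : Fin q → Fin 5 → ℝ}

/-- The contribution of a mark attached to the part number `k`. -/
noncomputable def cb (u : Finset (Fin 5) → ℝ) (A B C : Finset (Fin 5)) (k : Fin 4) : ℝ :=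
  (if k = 0 ∨ k = 1 then u (A ∪ B) else 0) + (if k = 0 ∨ k = 2 then u (A ∪ C) else 0) +
    (if k = 1 ∨ k = 2 then u (B ∪ C) else 0) - (if k = 0 then u A else 0) -
    (if k = 1 then u B else 0) - (if k = 2 then u C else 0) -
    (if k = 0 ∨ k = 1 ∨ k = 2 then u (A ∪ B ∪ C) else 0)

/-- The degree of a function on an F-curve of `M̄_{0,5}`. -/
def fd (b : Finset (Fin 5) → ℝ) (A B C : Finset (Fin 5)) : ℝ :=
  b (A ∪ B) + b (A ∪ C) + b (B ∪ C) - b A - b B - b C - b (A ∪ B ∪ C)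

theorem exists_k (N : Norm g (univ.map h))
    (hP : ∀ i, i ∉ (univ : Finset (Fin 5)).map h →
      (∀ j, 0 ≤ P i j) ∧ ∑ j, P i j = g {i} ∧ AllGood (xx g h i) (P i))
    {A B C : Finset (Fin 5)} (hp : Part4 A B C (A ∪ B ∪ C)ᶜ) {i : Fin q}
    (hi : i ∉ (univ : Finset (Fin 5)).map h) :
    ∃ k : Fin 4, cb (U g h i) A B C k + fd (fun T => nn (Z g h P i T)) A B C ≤ 0 := by
  obtain ⟨h0, hs, hG⟩ := hP i hi
  have hs4 := esum (z := Z g h P i) h0 hG (Z_single N hi) (fun j l hjl => Z_pair hjl)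
    (Z_compl N hi hs) hp
  obtain ⟨-, -, -, -, d1, d2, d3, d4, d5, d6, -⟩ := hp
  have eAB : C ∪ (A ∪ B ∪ C)ᶜ = (A ∪ B)ᶜ := by
    ext x
    simp only [mem_union, mem_compl, not_or]
    have a2 : x ∈ A → x ∉ C := fun h => disjoint_left.1 d2 h
    have a3 : x ∈ B → x ∉ C := fun h => disjoint_left.1 d4 h
    tauto
  have eAC : B ∪ (A ∪ B ∪ C)ᶜ = (A ∪ C)ᶜ := by
    ext x
    simp only [mem_union, mem_compl, not_or]
    have a2 : x ∈ A → x ∉ B := fun h => disjoint_left.1 d1 h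
    have a3 : x ∈ B → x ∉ C := fun h => disjoint_left.1 d4 h
    tauto
  have eBC : A ∪ (A ∪ B ∪ C)ᶜ = (B ∪ C)ᶜ := by
    ext x
    simp only [mem_union, mem_compl, not_or]
    have a2 : x ∈ A → x ∉ B := fun h => disjoint_left.1 d1 h
    have a3 : x ∈ A → x ∉ C := fun h => disjoint_left.1 d2 h
    tauto
  have pAB : ∑ j ∈ A ∪ B, P i j = ∑ j ∈ A, P i j + ∑ j ∈ B, P i j := sum_union d1
  have pAC : ∑ j ∈ A ∪ C, P i j = ∑ j ∈ A, P i j + ∑ j ∈ C, P i j := sum_union d2
  have pBC : ∑ j ∈ B ∪ C, P i j = ∑ j ∈ B, P i j + ∑ j ∈ C, P i j := sum_union d4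
  have pABC : ∑ j ∈ A ∪ B ∪ C, P i j = ∑ j ∈ A, P i j + ∑ j ∈ B, P i j + ∑ j ∈ C, P i j := by
    rw [sum_union (disjoint_union_left.2 ⟨d2, d4⟩), pAB]
  have zAB : U g h i (A ∪ B) = Z g h P i (A ∪ B) + g {i} - 2 * ∑ j ∈ A ∪ B, P i j := by
    unfold Z; ring
  have zAC : U g h i (A ∪ C) = Z g h P i (A ∪ C) + g {i} - 2 * ∑ j ∈ A ∪ C, P i j := by
    unfold Z; ring
  have zBC : U g h i (B ∪ C) = Z g h P i (B ∪ C) + g {i} - 2 * ∑ j ∈ B ∪ C, P i j := by
    unfold Z; ring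
  have zABC : U g h i (A ∪ B ∪ C) =
      Z g h P i (A ∪ B ∪ C) + g {i} - 2 * ∑ j ∈ A ∪ B ∪ C, P i j := by
    unfold Z; ring
  have zA : U g h i A = Z g h P i A + g {i} - 2 * ∑ j ∈ A, P i j := by
    unfold Z; ring
  have zB : U g h i B = Z g h P i B + g {i} - 2 * ∑ j ∈ B, P i j := by
    unfold Z; ring
  have zC : U g h i C = Z g h P i C + g {i} - 2 * ∑ j ∈ C, P i j := by
    unfold Z; ring
  unfold Some4 EA at hs4
  rw [eAB, eAC, eBC] at hs4
  simp only [Z_compl N hi hs, nn_neg, pp_neg, pp_eq] at hs4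
  rcases hs4 with hs4 | hs4 | hs4 | hs4
  · refine ⟨0, ?_⟩
    have : cb (U g h i) A B C 0 =
        U g h i (A ∪ B) + U g h i (A ∪ C) - U g h i A - U g h i (A ∪ B ∪ C) := by
      simp [cb]
    rw [this]
    unfold fd
    linarith
  · refine ⟨1, ?_⟩
    have : cb (U g h i) A B C 1 =
        U g h i (A ∪ B) + U g h i (B ∪ C) - U g h i B - U g h i (A ∪ B ∪ C) := by
      simp [cb]
    rw [this]
    unfold fd
    linarith
  · refine ⟨2, ?_⟩
    have : cb (U g h i) A B C 2 =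
        U g h i (A ∪ C) + U g h i (B ∪ C) - U g h i C - U g h i (A ∪ B ∪ C) := by
      simp [cb]
    rw [this]
    unfold fd
    linarith
  · refine ⟨3, ?_⟩
    have : cb (U g h i) A B C 3 = 0 := by
      simp [cb]
    rw [this]
    unfold fd
    linarith

/-- The divisor on `M̄_{0,5}` is F-nef. -/
theorem BB_fd (N : Norm g (univ.map h))
    (hP : ∀ i, i ∉ (univ : Finset (Fin 5)).map h →
      (∀ j, 0 ≤ P i j) ∧ ∑ j, P i j = g {i} ∧ AllGood (xx g h i) (P i))
    {A B C : Finset (Fin 5)} (hp : Part4 A B C (A ∪ B ∪ C)ᶜ) : 0 ≤ fd (BB g h P) A B C := by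
  set L := ((univ : Finset (Fin 5)).map h)ᶜ with hL
  have hk := fun i (hi : i ∉ (univ : Finset (Fin 5)).map h) => exists_k N hP hp hi
  choose! k hk using hk
  obtain ⟨-, -, -, -, d1, d2, d3, d4, d5, d6, -⟩ := hp
  have dmL : ∀ (T : Finset (Fin 5)) (Q : Fin q → Prop) [DecidablePred Q],
      Disjoint (T.map h) (L.filter Q) := fun T Q _ =>
    (disjoint_compl_right.mono_right (filter_subset _ _)).mono_left (map_sub T)
  have dLL : ∀ (a b : Fin 4), a ≠ b →
      Disjoint (L.filter fun i => k i = a) (L.filter fun i => k i = b) := by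
    intro a b hab
    rw [disjoint_filter]
    intro i _ h1 h2
    exact hab (h1 ▸ h2)
  have dis : ∀ (S T : Finset (Fin 5)) (a b : Fin 4), Disjoint S T → a ≠ b →
      Disjoint (S.map h ∪ L.filter fun i => k i = a) (T.map h ∪ L.filter fun i => k i = b) := by
    intro S T a b hST hab
    rw [disjoint_union_left, disjoint_union_right, disjoint_union_right]
    exact ⟨⟨(disjoint_map h).2 hST, dmL S _⟩, ⟨(dmL T _).symm, dLL a b hab⟩⟩
  have h1 := N.nonneg (A.map h ∪ L.filter fun i => k i = 0) (B.map h ∪ L.filter fun i => k i = 1)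
    (C.map h ∪ L.filter fun i => k i = 2) (dis A B 0 1 d1 (by decide)) (dis A C 0 2 d2 (by decide))
    (dis B C 1 2 d4 (by decide))
  have u1 : (A.map h ∪ L.filter fun i => k i = 0) ∪ (B.map h ∪ L.filter fun i => k i = 1) =
      (A ∪ B).map h ∪ L.filter fun i => k i = 0 ∨ k i = 1 := by
    rw [filter_or, map_union]
    ext x
    simp only [mem_union]
    tauto
  have u2 : (A.map h ∪ L.filter fun i => k i = 0) ∪ (C.map h ∪ L.filter fun i => k i = 2) =
      (A ∪ C).map h ∪ L.filter fun i => k i = 0 ∨ k i = 2 := by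
    rw [filter_or, map_union]
    ext x
    simp only [mem_union]
    tauto
  have u3 : (B.map h ∪ L.filter fun i => k i = 1) ∪ (C.map h ∪ L.filter fun i => k i = 2) =
      (B ∪ C).map h ∪ L.filter fun i => k i = 1 ∨ k i = 2 := by
    rw [filter_or, map_union]
    ext x
    simp only [mem_union]
    tauto
  have u4 : ((A ∪ B).map h ∪ L.filter fun i => k i = 0 ∨ k i = 1) ∪
      (C.map h ∪ L.filter fun i => k i = 2) =
      (A ∪ B ∪ C).map h ∪ L.filter fun i => k i = 0 ∨ k i = 1 ∨ k i = 2 := by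
    rw [filter_or, filter_or, filter_or]
    simp only [map_union]
    ext x
    simp only [mem_union]
    tauto
  unfold fdeg at h1
  rw [u1, u2, u3, u4] at h1
  rw [mixf N, mixf N, mixf N, mixf N, mixf N, mixf N, mixf N] at h1
  have h2 : ∑ i ∈ L, (cb (U g h i) A B C (k i) + fd (fun T => nn (Z g h P i T)) A B C) ≤ 0 :=
    sum_nonpos fun i hi => hk i (mem_compl.1 hi)
  have pAB : ∀ i, ∑ j ∈ A ∪ B, P i j = ∑ j ∈ A, P i j + ∑ j ∈ B, P i j := fun i => sum_union d1
  have pAC : ∀ i, ∑ j ∈ A ∪ C, P i j = ∑ j ∈ A, P i j + ∑ j ∈ C, P i j := fun i => sum_union d2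
  have pBC : ∀ i, ∑ j ∈ B ∪ C, P i j = ∑ j ∈ B, P i j + ∑ j ∈ C, P i j := fun i => sum_union d4
  have pABC : ∀ i, ∑ j ∈ A ∪ B ∪ C, P i j =
      ∑ j ∈ A, P i j + ∑ j ∈ B, P i j + ∑ j ∈ C, P i j := fun i => by
    rw [sum_union (disjoint_union_left.2 ⟨d2, d4⟩), pAB]
  unfold fd BB
  unfold cb fd at h2
  simp only [sum_add_distrib, sum_sub_distrib] at h2 ⊢
  simp only [pAB, pAC, pBC, pABC, sum_add_distrib]
  linarith

/-- The gauge. -/
noncomputable def WW (h : Fin 5 ↪ Fin q) (P : Fin q → Fin 5 → ℝ) (G : Fin 5 → Fin 5 → ℝ)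
    (a b : Fin q) : ℝ :=
  if a ∈ (univ : Finset (Fin 5)).map h then
    (if b ∈ (univ : Finset (Fin 5)).map h then G (Function.invFun h a) (Function.invFun h b)
      else - P b (Function.invFun h a))
  else (if b ∈ (univ : Finset (Fin 5)).map h then - P a (Function.invFun h b) else 0)

theorem WW_symm {G : Fin 5 → Fin 5 → ℝ} (hG : ∀ i j, G i j = G j i) (a b : Fin q) :
    WW h P G a b = WW h P G b a := by
  unfold WW
  split_ifs
  · exact hG _ _
  · rfl
  · rfl
  · rfl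

theorem inv_h (j : Fin 5) : Function.invFun h (h j) = j := Function.leftInverse_invFun h.injective j

theorem WW1 (G : Fin 5 → Fin 5 → ℝ) (j l : Fin 5) : WW h P G (h j) (h l) = G j l := by
  unfold WW
  rw [if_pos (mem_H j), if_pos (mem_H l), inv_h, inv_h]

theorem WW2 (G : Fin 5 → Fin 5 → ℝ) (j : Fin 5) {i : Fin q}
    (hi : i ∉ (univ : Finset (Fin 5)).map h) : WW h P G (h j) i = - P i j := by
  unfold WW
  rw [if_pos (mem_H j), if_neg hi, inv_h]

theorem WW3 (G : Fin 5 → Fin 5 → ℝ) (j : Fin 5) {i : Fin q}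
    (hi : i ∉ (univ : Finset (Fin 5)).map h) : WW h P G i (h j) = - P i j := by
  unfold WW
  rw [if_neg hi, if_pos (mem_H j), inv_h]

theorem WW4 (G : Fin 5 → Fin 5 → ℝ) {i i' : Fin q} (hi : i ∉ (univ : Finset (Fin 5)).map h)
    (hi' : i' ∉ (univ : Finset (Fin 5)).map h) : WW h P G i i' = 0 := by
  unfold WW
  rw [if_neg hi, if_neg hi']

theorem ct_WW (G : Fin 5 → Fin 5 → ℝ) (T : Finset (Fin 5)) {X Y : Finset (Fin q)}
    (hXY : Disjoint X Y) (hu : X ∪ Y = ((univ : Finset (Fin 5)).map h)ᶜ) :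
    ct (WW h P G) (T.map h ∪ X) =
      ct G T - ∑ i ∈ Y, ∑ j ∈ T, P i j - ∑ i ∈ X, ∑ j ∈ Tᶜ, P i j := by
  have hX : ∀ i ∈ X, i ∉ (univ : Finset (Fin 5)).map h := fun i hi =>
    mem_compl.1 (hu ▸ mem_union_left _ hi)
  have hY : ∀ i ∈ Y, i ∉ (univ : Finset (Fin 5)).map h := fun i hi =>
    mem_compl.1 (hu ▸ mem_union_right _ hi)
  have ec : (T.map h ∪ X)ᶜ = Tᶜ.map h ∪ Y := by
    ext x
    rw [mem_compl, mem_union, mem_union]
    by_cases hx : x ∈ (univ : Finset (Fin 5)).map h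
    · obtain ⟨j, -, rfl⟩ := mem_map.1 hx
      have e1 : ∀ S : Finset (Fin 5), h j ∈ S.map h ↔ j ∈ S := fun S => mem_map' h
      have e2 : h j ∉ X := fun h' => hX _ h' hx
      have e3 : h j ∉ Y := fun h' => hY _ h' hx
      rw [e1, e1, mem_compl]
      tauto
    · have e1 : x ∈ X ∨ x ∈ Y := mem_union.1 (hu ▸ mem_compl.2 hx)
      have e2 : x ∉ T.map h := fun h' => hx (map_sub T h')
      have e3 : x ∉ Tᶜ.map h := fun h' => hx (map_sub Tᶜ h')
      have e4 : x ∈ X → x ∉ Y := fun h' => disjoint_left.1 hXY h'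
      tauto
  have dX : Disjoint (T.map h) X := by
    rw [disjoint_left]
    intro x hx hx'
    exact hX x hx' (map_sub T hx)
  have dY : Disjoint (Tᶜ.map h) Y := by
    rw [disjoint_left]
    intro x hx hx'
    exact hY x hx' (map_sub Tᶜ hx)
  change ∑ a ∈ T.map h ∪ X, ∑ b ∈ (T.map h ∪ X)ᶜ, WW h P G a b = _
  rw [ec, sum_union dX, sum_map]
  have e1 : ∀ j ∈ T, ∑ b ∈ Tᶜ.map h ∪ Y, WW h P G (h j) b = ∑ l ∈ Tᶜ, G j l - ∑ i ∈ Y, P i j := by
    intro j _
    rw [sum_union dY, sum_map, sum_congr rfl fun l _ => WW1 G j l,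
      sum_congr rfl fun i hi => WW2 G j (hY i hi), sum_neg_distrib]
    ring
  have e2 : ∀ i ∈ X, ∑ b ∈ Tᶜ.map h ∪ Y, WW h P G i b = - ∑ j ∈ Tᶜ, P i j := by
    intro i hi
    rw [sum_union dY, sum_map, sum_congr rfl fun l _ => WW3 G l (hX i hi),
      sum_congr rfl fun i' hi' => WW4 G (hX i hi) (hY i' hi'), sum_neg_distrib, sum_const_zero,
      add_zero]
  have e3 : ∑ j ∈ T, ∑ i ∈ Y, P i j = ∑ i ∈ Y, ∑ j ∈ T, P i j := sum_comm
  rw [sum_congr rfl e1, sum_congr rfl e2, sum_sub_distrib, sum_neg_distrib, e3]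
  change _ = ∑ i ∈ T, ∑ j ∈ Tᶜ, G i j - _ - _
  ring

theorem value (N : Norm g (univ.map h)) (G : Fin 5 → Fin 5 → ℝ)
    (hP : ∀ i, i ∉ (univ : Finset (Fin 5)).map h → ∑ j, P i j = g {i})
    (T : Finset (Fin 5)) {X Y : Finset (Fin q)}
    (hXY : Disjoint X Y) (hu : X ∪ Y = ((univ : Finset (Fin 5)).map h)ᶜ) :
    g (T.map h ∪ X) + ct (WW h P G) (T.map h ∪ X) =
      BB g h P T + ct G T + ∑ i ∈ X, pp (Z g h P i T) + ∑ i ∈ Y, nn (Z g h P i T) := by
  have hX : ∀ i ∈ X, i ∉ (univ : Finset (Fin 5)).map h := fun i hi =>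
    mem_compl.1 (hu ▸ mem_union_left _ hi)
  have dX : Disjoint X ((univ : Finset (Fin 5)).map h) := by
    rw [disjoint_left]
    exact hX
  rw [ct_WW G T hXY hu, N.mix (map_sub T) dX]
  unfold BB
  rw [← hu, sum_union hXY, sum_add_distrib, sum_add_distrib]
  have e1 : ∑ i ∈ X, (g (insert i (T.map h)) - g (T.map h)) =
      ∑ i ∈ X, pp (Z g h P i T) - ∑ i ∈ X, nn (Z g h P i T) + ∑ i ∈ X, ∑ j ∈ Tᶜ, P i j
        - ∑ i ∈ X, ∑ j ∈ T, P i j := by
    rw [← sum_sub_distrib, ← sum_add_distrib, ← sum_sub_distrib]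
    refine sum_congr rfl fun i hi => ?_
    have h1 := hP i (hX i hi)
    have h2 := sum_add_sum_compl T (P i)
    rw [pp_eq]
    unfold Z U
    linarith
  rw [e1]
  ring

theorem main5 (N : Norm g (univ.map h)) : ∃ W : Fin q → Fin q → ℝ, (∀ a b, W a b = W b a) ∧
    (∀ i, g {i} + ct W {i} = 0) ∧ ∀ S, 0 ≤ g S + ct W S := by
  classical
  obtain ⟨P, hP⟩ := exists_P N
  have hs : ∀ i, i ∉ (univ : Finset (Fin 5)).map h → ∑ j, P i j = g {i} := fun i hi =>
    (hP i hi).2.1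
  obtain ⟨G, hG, hG1, hG2⟩ := eff5 (b := BB g h P) (BB_empty N) (BB_compl N hs) (by
    intro u v w x y hf
    have h1 : ({u} ∪ {v} ∪ {w} : Finset (Fin 5)) = ({x, y} : Finset (Fin 5))ᶜ := triple_compl hf
    obtain ⟨k1, k2, k3, k4, k5, k6, k7, k8, k9, k10⟩ := hf
    have h2 := BB_fd N hP (A := {u}) (B := {v}) (C := {w}) (by
      rw [h1, compl_compl]
      refine ⟨singleton_nonempty _, singleton_nonempty _, singleton_nonempty _,
        insert_nonempty _ _, disjoint_singleton.2 k1, disjoint_singleton.2 k2, ?_,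
        disjoint_singleton.2 k5, ?_, ?_, ?_⟩
      · rw [disjoint_singleton_left]; simp [k3, k4]
      · rw [disjoint_singleton_left]; simp [k6, k7]
      · rw [disjoint_singleton_left]; simp [k8, k9]
      · rw [h1, union_comm, union_compl])
    unfold fd at h2
    rw [h1, BB_compl N hs, ← insert_eq, ← insert_eq, ← insert_eq] at h2
    linarith)
  refine ⟨WW h P G, WW_symm hG, fun v => ?_, fun S => ?_⟩
  · by_cases hv : v ∈ (univ : Finset (Fin 5)).map h
    · obtain ⟨j, -, rfl⟩ := mem_map.1 hv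
      have h1 := value N G hs {j} (X := ∅) (Y := ((univ : Finset (Fin 5)).map h)ᶜ)
        (disjoint_empty_left _) (empty_union _)
      rw [union_empty, map_singleton, hG1, sum_empty, sum_eq_zero] at h1
      · rw [h1]; ring
      · intro i hi
        rw [mem_compl] at hi
        rw [Z_single N hi, nn_of_nonneg]
        have := (hP i hi).1 j
        linarith
    · have h1 := value N G hs ∅ (X := {v}) (Y := (((univ : Finset (Fin 5)).map h)ᶜ).erase v)
        (disjoint_singleton_left.2 (notMem_erase _ _)) (by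
          rw [← insert_eq, insert_erase (mem_compl.2 hv)])
      have h2 : ct G ∅ = 0 := by
        change ∑ i ∈ (∅ : Finset (Fin 5)), ∑ j ∈ (∅ : Finset (Fin 5))ᶜ, G i j = 0
        rw [sum_empty]
      rw [map_empty, empty_union, BB_empty N, h2, sum_singleton, Z_empty N,
        pp_of_nonneg le_rfl, sum_eq_zero] at h1
      · rw [h1]; ring
      · intro i _
        rw [Z_empty N, nn_of_nonneg le_rfl]
  · have hS : S = (univ.filter fun j => h j ∈ S).map h ∪
        (((univ : Finset (Fin 5)).map h)ᶜ).filter (· ∈ S) := by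
      ext x
      simp only [mem_union, mem_map, mem_filter, mem_univ, true_and, mem_compl]
      constructor
      · intro hx
        by_cases hx' : ∃ j, h j = x
        · obtain ⟨j, rfl⟩ := hx'
          exact Or.inl ⟨j, hx, rfl⟩
        · exact Or.inr ⟨hx', hx⟩
      · rintro (⟨j, hj, rfl⟩ | ⟨_, hx⟩)
        · exact hj
        · exact hx
    rw [hS, value N G hs _ (X := (((univ : Finset (Fin 5)).map h)ᶜ).filter (· ∈ S))
      (Y := (((univ : Finset (Fin 5)).map h)ᶜ).filter (fun x => ¬ x ∈ S))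
      (disjoint_filter_filter_not _ _ _) (filter_union_filter_not_eq _ _)]
    have h1 := hG2 (univ.filter fun j => h j ∈ S)
    have h2 : 0 ≤ ∑ i ∈ (((univ : Finset (Fin 5)).map h)ᶜ).filter (· ∈ S),
        pp (Z g h P i (univ.filter fun j => h j ∈ S)) := sum_nonneg fun i _ => pp_nonneg _
    have h3 : 0 ≤ ∑ i ∈ (((univ : Finset (Fin 5)).map h)ᶜ).filter (fun x => ¬ x ∈ S),
        nn (Z g h P i (univ.filter fun j => h j ∈ S)) := sum_nonneg fun i _ => nn_nonneg _
    linarith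

end Pool.Agent.Run7.h193.FM
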