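import Pool.Agent.Run7.h193.FM1

set_option autoImplicit false

/-!
# Fractional vertex covers of the complete graph on five vertices: odd cycles
-/

namespace Pool.Agent.Run7.h193.FM

open Finset

theorem enum0 {P : Fin 5 → Fin 5 → Fin 5 → Fin 5 → Prop}
    (hsw : ∀ i j k l, P i j k l → P j i k l)
    (h12 : P 3 4 1 2) (h13 : P 2 4 1 3) (h14 : P 2 3 1 4)
    (h21 : P 3 4 2 1) (h23 : P 1 4 2 3) (h24 : P 1 3 2 4)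
    (h31 : P 2 4 3 1) (h32 : P 1 4 3 2) (h34 : P 1 2 3 4)
    (h41 : P 2 3 4 1) (h42 : P 1 3 4 2) (h43 : P 1 2 4 3) :
    ∀ i j k l, Five i j k l 0 → P i j k l := by
  have key : ∀ i j k l : Fin 5, Five i j k l 0 → (i, j, k, l) ∈ ([(3, 4, 1, 2), (4, 3, 1, 2),
      (2, 4, 1, 3), (4, 2, 1, 3), (2, 3, 1, 4), (3, 2, 1, 4), (3, 4, 2, 1), (4, 3, 2, 1),
      (1, 4, 2, 3), (4, 1, 2, 3), (1, 3, 2, 4), (3, 1, 2, 4), (2, 4, 3, 1), (4, 2, 3, 1),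
      (1, 4, 3, 2), (4, 1, 3, 2), (1, 2, 3, 4), (2, 1, 3, 4), (2, 3, 4, 1), (3, 2, 4, 1),
      (1, 3, 4, 2), (3, 1, 4, 2), (1, 2, 4, 3), (2, 1, 4, 3)] :
        List (Fin 5 × Fin 5 × Fin 5 × Fin 5)) := by decide +kernel
  intro i j k l hf
  have hm := key i j k l hf
  clear hf key
  simp only [List.mem_cons, Prod.mk.injEq, List.not_mem_nil, or_false] at hm
  rcases hm with h | h | h | h | h | h | h | h | h | h | h | h | h | h | h | h | h | h | h | h |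
    h | h | h | h <;>
    obtain ⟨rfl, rfl, rfl, rfl⟩ := h <;>
    first
      | assumption
      | exact hsw _ _ _ _ (by assumption)

/-- The case in which the vertex `0` has weight zero, and the other vertices the weights
`p1, …, p4`. -/
theorem core1 {x : Fin 5 → Fin 5 → ℝ} (hs : ∀ i j, x i j = x j i) {D p1 p2 p3 p4 : ℝ}
    (h1 : 0 ≤ p1) (h2 : 0 ≤ p2) (h3 : 0 ≤ p3) (h4 : 0 ≤ p4) (hD : p1 + p2 + p3 + p4 = D)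
    (c12 : x 1 2 ≤ p1 + p2) (c13 : x 1 3 ≤ p1 + p3) (c14 : x 1 4 ≤ p1 + p4)
    (c23 : x 2 3 ≤ p2 + p3) (c24 : x 2 4 ≤ p2 + p4) (c34 : x 3 4 ≤ p3 + p4)
    (m12 : p1 ≤ x 0 1 ∨ x 0 2 ≤ p2 ∨ p1 ≤ x 1 2 ∨ p1 + x 0 2 + x 3 4 ≤ D)
    (m13 : p1 ≤ x 0 1 ∨ x 0 3 ≤ p3 ∨ p1 ≤ x 1 3 ∨ p1 + x 0 3 + x 2 4 ≤ D)
    (m14 : p1 ≤ x 0 1 ∨ x 0 4 ≤ p4 ∨ p1 ≤ x 1 4 ∨ p1 + x 0 4 + x 2 3 ≤ D)
    (m21 : p2 ≤ x 0 2 ∨ x 0 1 ≤ p1 ∨ p2 ≤ x 1 2 ∨ p2 + x 0 1 + x 3 4 ≤ D)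
    (m23 : p2 ≤ x 0 2 ∨ x 0 3 ≤ p3 ∨ p2 ≤ x 2 3 ∨ p2 + x 0 3 + x 1 4 ≤ D)
    (m24 : p2 ≤ x 0 2 ∨ x 0 4 ≤ p4 ∨ p2 ≤ x 2 4 ∨ p2 + x 0 4 + x 1 3 ≤ D)
    (m31 : p3 ≤ x 0 3 ∨ x 0 1 ≤ p1 ∨ p3 ≤ x 1 3 ∨ p3 + x 0 1 + x 2 4 ≤ D)
    (m32 : p3 ≤ x 0 3 ∨ x 0 2 ≤ p2 ∨ p3 ≤ x 2 3 ∨ p3 + x 0 2 + x 1 4 ≤ D)
    (m34 : p3 ≤ x 0 3 ∨ x 0 4 ≤ p4 ∨ p3 ≤ x 3 4 ∨ p3 + x 0 4 + x 1 2 ≤ D)
    (m41 : p4 ≤ x 0 4 ∨ x 0 1 ≤ p1 ∨ p4 ≤ x 1 4 ∨ p4 + x 0 1 + x 2 3 ≤ D)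
    (m42 : p4 ≤ x 0 4 ∨ x 0 2 ≤ p2 ∨ p4 ≤ x 2 4 ∨ p4 + x 0 2 + x 1 3 ≤ D)
    (m43 : p4 ≤ x 0 4 ∨ x 0 3 ≤ p3 ∨ p4 ≤ x 3 4 ∨ p4 + x 0 3 + x 1 2 ≤ D) :
    ∃ p : Fin 5 → ℝ, (∀ i, 0 ≤ p i) ∧ ∑ i, p i = D ∧ AllGood x p := by
  have hp : ∀ i : Fin 5, (0 : ℝ) ≤ (![0, p1, p2, p3, p4] : Fin 5 → ℝ) i := by
    intro i
    fin_cases i
    · exact le_rfl
    · exact h1
    · exact h2
    · exact h3
    · exact h4
  have hsum : ∑ i : Fin 5, (![0, p1, p2, p3, p4] : Fin 5 → ℝ) i = D := by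
    rw [Fin.sum_univ_five]
    change 0 + p1 + p2 + p3 + p4 = D
    linarith
  refine ⟨![0, p1, p2, p3, p4], hp, hsum, ?_⟩
  refine core hs hp hsum (e := 0) rfl ?_ ?_
  · have key : ∀ i j : Fin 5, i ≠ j → i ≠ 0 → j ≠ 0 → (i, j) ∈ ([(1, 2), (1, 3), (1, 4), (2, 3),
        (2, 4), (3, 4), (2, 1), (3, 1), (4, 1), (3, 2), (4, 2), (4, 3)] :
          List (Fin 5 × Fin 5)) := by decide +kernel
    intro i j a b c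
    have hm := key i j a b c
    clear a b c key
    simp only [List.mem_cons, Prod.mk.injEq, List.not_mem_nil, or_false] at hm
    rcases hm with h | h | h | h | h | h | h | h | h | h | h | h <;>
      obtain ⟨rfl, rfl⟩ := h
    · exact c12
    · exact c13
    · exact c14
    · exact c23
    · exact c24
    · exact c34
    · rw [hs, add_comm]; exact c12
    · rw [hs, add_comm]; exact c13
    · rw [hs, add_comm]; exact c14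
    · rw [hs, add_comm]; exact c23
    · rw [hs, add_comm]; exact c24
    · rw [hs, add_comm]; exact c34
  · refine enum0 (P := fun i j k l => Mx x D ![0, p1, p2, p3, p4] i j k l 0) ?_ ?_ ?_ ?_ ?_ ?_ ?_
      ?_ ?_ ?_ ?_ ?_ ?_
    · intro i j k l h
      unfold Mx at h ⊢
      rw [hs j i]
      exact h
    · unfold Mx; rw [hs 1 0, hs 2 0]; exact m12
    · unfold Mx; rw [hs 1 0, hs 3 0]; exact m13
    · unfold Mx; rw [hs 1 0, hs 4 0]; exact m14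
    · unfold Mx; rw [hs 2 0, hs 1 0, hs 2 1]; exact m21
    · unfold Mx; rw [hs 2 0, hs 3 0]; exact m23
    · unfold Mx; rw [hs 2 0, hs 4 0]; exact m24
    · unfold Mx; rw [hs 3 0, hs 1 0, hs 3 1]; exact m31
    · unfold Mx; rw [hs 3 0, hs 2 0, hs 3 2]; exact m32
    · unfold Mx; rw [hs 3 0, hs 4 0]; exact m34
    · unfold Mx; rw [hs 4 0, hs 1 0, hs 4 1]; exact m41
    · unfold Mx; rw [hs 4 0, hs 2 0, hs 4 2]; exact m42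
    · unfold Mx; rw [hs 4 0, hs 3 0, hs 4 3]; exact m43

/-- A full cover. -/
theorem full {x : Fin 5 → Fin 5 → ℝ} {p : Fin 5 → ℝ}
    (hcov : ∀ i j, i ≠ j → x i j ≤ p i + p j) : AllGood x p := by
  intro a b c d e h
  obtain ⟨h1, h2, h3, h4, h5, h6, h7, h8, h9, h10⟩ := h
  left
  have z : ∀ i j, i ≠ j → nn (p i + p j - x i j) = 0 := fun i j a =>
    nn_of_nonneg (by have := hcov i j a; linarith)
  rw [z c d h8, z c e h9, z d e h10]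
  have := pp_nonneg (p a + p b - x a b)
  linarith

end Pool.Agent.Run7.h193.FM
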