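import Pool.Agent.Run7.h193.FM2

set_option autoImplicit false

/-!
# Fractional vertex covers of the complete graph on five vertices: the existence
-/

namespace Pool.Agent.Run7.h193.FM

open Finset

theorem mid (L U : List ℝ) (hL : L ≠ []) (h : ∀ l ∈ L, ∀ u ∈ U, l ≤ u) :
    ∃ p, (∀ l ∈ L, l ≤ p) ∧ ∀ u ∈ U, p ≤ u := by
  induction L with
  | nil => exact absurd rfl hL
  | cons a L ih =>
    rcases L.eq_nil_or_concat with hn | ⟨L', b, hb⟩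
    · subst hn
      refine ⟨a, fun l hl => ?_, fun u hu => h a (by simp) u hu⟩
      rw [List.mem_singleton] at hl
      exact hl.le
    · obtain ⟨p, h1, h2⟩ := ih (by rw [hb]; simp) fun l hl u hu => h l (List.mem_cons_of_mem _ hl) u hu
      refine ⟨max a p, fun l hl => ?_, fun u hu => max_le (h a (by simp) u hu) (h2 u hu)⟩
      rcases List.mem_cons.1 hl with rfl | hl
      · exact le_max_left _ _
      · exact (h1 l hl).trans (le_max_right _ _)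

/-- Fractional vertex covers of the complete graph on four vertices, with lower bounds. -/
theorem cover4 {l1 l2 l3 l4 x12 x13 x14 x23 x24 x34 w : ℝ}
    (hi : l1 + l2 + l3 + l4 ≤ w)
    (h12 : x12 + l3 + l4 ≤ w) (h13 : x13 + l2 + l4 ≤ w) (h14 : x14 + l2 + l3 ≤ w)
    (h23 : x23 + l1 + l4 ≤ w) (h24 : x24 + l1 + l3 ≤ w) (h34 : x34 + l1 + l2 ≤ w)
    (k1 : x12 + x34 ≤ w) (k2 : x13 + x24 ≤ w) (k3 : x14 + x23 ≤ w)
    (t4 : x12 + x13 + x23 + 2 * l4 ≤ 2 * w) (t3 : x12 + x14 + x24 + 2 * l3 ≤ 2 * w)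
    (t2 : x13 + x14 + x34 + 2 * l2 ≤ 2 * w) (t1 : x23 + x24 + x34 + 2 * l1 ≤ 2 * w) :
    ∃ p1 p2 p3 p4 : ℝ, l1 ≤ p1 ∧ l2 ≤ p2 ∧ l3 ≤ p3 ∧ l4 ≤ p4 ∧ p1 + p2 + p3 + p4 = w ∧
      x12 ≤ p1 + p2 ∧ x13 ≤ p1 + p3 ∧ x14 ≤ p1 + p4 ∧ x23 ≤ p2 + p3 ∧ x24 ≤ p2 + p4 ∧
      x34 ≤ p3 + p4 := by
  obtain ⟨p1, hl, hu⟩ := mid
    [l1, l2 + x13 + x14 - w, l3 + x12 + x14 - w, l4 + x12 + x13 - w, (x12 + x13 + x14 - w) / 2]
    [w - x34 - l2, w - x24 - l3, w - x23 - l4, w - l2 - l3 - l4, w - (x34 + x24 + x23) / 2]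
    (by simp) (by
      intro l hl u hu
      simp only [List.mem_cons, List.not_mem_nil, or_false] at hl hu
      rcases hl with rfl | rfl | rfl | rfl | rfl <;> rcases hu with rfl | rfl | rfl | rfl | rfl <;>
        linarith)
  simp only [List.mem_cons, List.not_mem_nil, or_false, forall_eq_or_imp, forall_eq] at hl hu
  obtain ⟨a1, a2, a3, a4, a5⟩ := hl
  obtain ⟨b1, b2, b3, b4, b5⟩ := hu
  obtain ⟨p2, hl, hu⟩ := mid
    [l2, x12 - p1, x23 - (w - x24 - p1)]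
    [w - x34 - p1, w - x14 - l3, w - x14 - (x13 - p1), w - l4 - p1 - l3, w - l4 - p1 - (x13 - p1)]
    (by simp) (by
      intro l hl u hu
      simp only [List.mem_cons, List.not_mem_nil, or_false] at hl hu
      rcases hl with rfl | rfl | rfl <;> rcases hu with rfl | rfl | rfl | rfl | rfl <;>
        linarith)
  simp only [List.mem_cons, List.not_mem_nil, or_false, forall_eq_or_imp, forall_eq] at hl hu
  obtain ⟨c1, c2, c3⟩ := hl
  obtain ⟨d1, d2, d3, d4, d5⟩ := hu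
  obtain ⟨p3, hl, hu⟩ := mid
    [l3, x13 - p1, x23 - p2]
    [w - x24 - p1, w - x14 - p2, w - l4 - p1 - p2]
    (by simp) (by
      intro l hl u hu
      simp only [List.mem_cons, List.not_mem_nil, or_false] at hl hu
      rcases hl with rfl | rfl | rfl <;> rcases hu with rfl | rfl | rfl <;>
        linarith)
  simp only [List.mem_cons, List.not_mem_nil, or_false, forall_eq_or_imp, forall_eq] at hl hu
  obtain ⟨e1, e2, e3⟩ := hl
  obtain ⟨f1, f2, f3⟩ := hu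
  exact ⟨p1, p2, p3, w - p1 - p2 - p3, a1, c1, e1, by linarith, by ring, by linarith, by linarith,
    by linarith, by linarith, by linarith, by linarith⟩

/-- Fractional vertex covers of the complete graph on five vertices. -/
theorem cover5 {x01 x02 x03 x04 x12 x13 x14 x23 x24 x34 D : ℝ}
    (n01 : 0 ≤ x01) (n02 : 0 ≤ x02)
    (n03 : 0 ≤ x03) (n04 : 0 ≤ x04)
    (n12 : 0 ≤ x12) (n13 : 0 ≤ x13)
    (n14 : 0 ≤ x14) (n23 : 0 ≤ x23)
    (n24 : 0 ≤ x24) (n34 : 0 ≤ x34)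
    (d0123 : x01 + x23 ≤ D) (d0124 : x01 + x24 ≤ D)
    (d0134 : x01 + x34 ≤ D) (d0213 : x02 + x13 ≤ D)
    (d0214 : x02 + x14 ≤ D) (d0234 : x02 + x34 ≤ D)
    (d0312 : x03 + x12 ≤ D) (d0314 : x03 + x14 ≤ D)
    (d0324 : x03 + x24 ≤ D) (d0412 : x04 + x12 ≤ D)
    (d0413 : x04 + x13 ≤ D) (d0423 : x04 + x23 ≤ D)
    (d1234 : x12 + x34 ≤ D) (d1324 : x13 + x24 ≤ D)
    (d1423 : x14 + x23 ≤ D) (t012 : x01 + x02 + x12 + 2 * x34 ≤ 2 * D)
    (t013 : x01 + x03 + x13 + 2 * x24 ≤ 2 * D) (t014 : x01 + x04 + x14 + 2 * x23 ≤ 2 * D)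
    (t023 : x02 + x03 + x23 + 2 * x14 ≤ 2 * D) (t024 : x02 + x04 + x24 + 2 * x13 ≤ 2 * D)
    (t034 : x03 + x04 + x34 + 2 * x12 ≤ 2 * D) (t123 : x12 + x13 + x23 + 2 * x04 ≤ 2 * D)
    (t124 : x12 + x14 + x24 + 2 * x03 ≤ 2 * D) (t134 : x13 + x14 + x34 + 2 * x02 ≤ 2 * D)
    (t234 : x23 + x24 + x34 + 2 * x01 ≤ 2 * D) (c01234 : x01 + x12 + x23 + x34 + x04 ≤ 2 * D)
    (c01243 : x01 + x12 + x24 + x34 + x03 ≤ 2 * D) (c01324 : x01 + x13 + x23 + x24 + x04 ≤ 2 * D)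
    (c01342 : x01 + x13 + x34 + x24 + x02 ≤ 2 * D) (c01423 : x01 + x14 + x24 + x23 + x03 ≤ 2 * D)
    (c01432 : x01 + x14 + x34 + x23 + x02 ≤ 2 * D) (c02134 : x02 + x12 + x13 + x34 + x04 ≤ 2 * D)
    (c02143 : x02 + x12 + x14 + x34 + x03 ≤ 2 * D) (c02314 : x02 + x23 + x13 + x14 + x04 ≤ 2 * D)
    (c02413 : x02 + x24 + x14 + x13 + x03 ≤ 2 * D) (c03124 : x03 + x13 + x12 + x24 + x04 ≤ 2 * D)
    (c03214 : x03 + x23 + x12 + x14 + x04 ≤ 2 * D)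
    : ∃ p0 p1 p2 p3 p4 : ℝ, 0 ≤ p0 ∧ 0 ≤ p1 ∧ 0 ≤ p2 ∧ 0 ≤ p3 ∧ 0 ≤ p4 ∧
      p0 + p1 + p2 + p3 + p4 = D ∧ x01 ≤ p0 + p1 ∧ x02 ≤ p0 + p2 ∧ x03 ≤ p0 + p3 ∧ x04 ≤ p0 + p4 ∧ x12 ≤ p1 + p2 ∧ x13 ≤ p1 + p3 ∧ x14 ≤ p1 + p4 ∧ x23 ≤ p2 + p3 ∧ x24 ≤ p2 + p4 ∧ x34 ≤ p3 + p4 := by
  obtain ⟨p, hl, hu⟩ := mid
    [0, x01 + x02 - D, x01 + x03 - D, x01 + x04 - D, x02 + x03 - D, x02 + x04 - D, x03 + x04 - D, (x01 + x02 + x03 - D) / 2, (x01 + x02 + x04 - D) / 2, (x01 + x03 + x04 - D) / 2, (x02 + x03 + x04 - D) / 2, (x01 + x02 + x03 + x04 - D) / 3, x12 + x03 + x04 - D, x13 + x02 + x04 - D, x14 + x02 + x03 - D, x23 + x01 + x04 - D, x24 + x01 + x03 - D, x34 + x01 + x02 - D]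
    [D, D - x12 - x34, D - x13 - x24, D - x14 - x23, D - (x12 + x13 + x23) / 2, D - (x12 + x14 + x24) / 2, D - (x13 + x14 + x34) / 2, D - (x23 + x24 + x34) / 2]
    (by simp) (by
      intro l hl u hu
      simp only [List.mem_cons, List.not_mem_nil, or_false] at hl hu
      rcases hl with rfl | rfl | rfl | rfl | rfl | rfl | rfl | rfl | rfl | rfl | rfl | rfl | rfl | rfl | rfl | rfl | rfl | rfl <;> rcases hu with rfl | rfl | rfl | rfl | rfl | rfl | rfl | rfl <;>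
        linarith)
  simp only [List.mem_cons, List.not_mem_nil, or_false, forall_eq_or_imp, forall_eq] at hl hu
  obtain ⟨a0, a1, a2, a3, a4, a5, a6, a7, a8, a9, a10, a11, a12, a13, a14, a15, a16, a17⟩ := hl
  obtain ⟨b0, b1, b2, b3, b4, b5, b6, b7⟩ := hu
  obtain ⟨p1, p2, p3, p4, q1, q2, q3, q4, q5, q6, q7, q8, q9, q10, q11⟩ :=
    cover4 (l1 := max 0 (x01 - p)) (l2 := max 0 (x02 - p)) (l3 := max 0 (x03 - p))
      (l4 := max 0 (x04 - p)) (x12 := x12) (x13 := x13) (x14 := x14) (x23 := x23) (x24 := x24)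
      (x34 := x34) (w := D - p)
      (by rcases max_cases 0 (x01 - p) with ⟨h1, _⟩ | ⟨h1, _⟩ <;>
            rcases max_cases 0 (x02 - p) with ⟨h2, _⟩ | ⟨h2, _⟩ <;>
            rcases max_cases 0 (x03 - p) with ⟨h3, _⟩ | ⟨h3, _⟩ <;>
            rcases max_cases 0 (x04 - p) with ⟨h4, _⟩ | ⟨h4, _⟩ <;>
            rw [h1, h2, h3, h4] <;> linarith)
      (by rcases max_cases 0 (x03 - p) with ⟨h1, _⟩ | ⟨h1, _⟩ <;>
            rcases max_cases 0 (x04 - p) with ⟨h2, _⟩ | ⟨h2, _⟩ <;>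
            rw [h1, h2] <;> linarith)
      (by rcases max_cases 0 (x02 - p) with ⟨h1, _⟩ | ⟨h1, _⟩ <;>
            rcases max_cases 0 (x04 - p) with ⟨h2, _⟩ | ⟨h2, _⟩ <;>
            rw [h1, h2] <;> linarith)
      (by rcases max_cases 0 (x02 - p) with ⟨h1, _⟩ | ⟨h1, _⟩ <;>
            rcases max_cases 0 (x03 - p) with ⟨h2, _⟩ | ⟨h2, _⟩ <;>
            rw [h1, h2] <;> linarith)
      (by rcases max_cases 0 (x01 - p) with ⟨h1, _⟩ | ⟨h1, _⟩ <;>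
            rcases max_cases 0 (x04 - p) with ⟨h2, _⟩ | ⟨h2, _⟩ <;>
            rw [h1, h2] <;> linarith)
      (by rcases max_cases 0 (x01 - p) with ⟨h1, _⟩ | ⟨h1, _⟩ <;>
            rcases max_cases 0 (x03 - p) with ⟨h2, _⟩ | ⟨h2, _⟩ <;>
            rw [h1, h2] <;> linarith)
      (by rcases max_cases 0 (x01 - p) with ⟨h1, _⟩ | ⟨h1, _⟩ <;>
            rcases max_cases 0 (x02 - p) with ⟨h2, _⟩ | ⟨h2, _⟩ <;>
            rw [h1, h2] <;> linarith)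
      (by linarith) (by linarith) (by linarith)
      (by rcases max_cases 0 (x04 - p) with ⟨h1, _⟩ | ⟨h1, _⟩ <;> rw [h1] <;> linarith)
      (by rcases max_cases 0 (x03 - p) with ⟨h1, _⟩ | ⟨h1, _⟩ <;> rw [h1] <;> linarith)
      (by rcases max_cases 0 (x02 - p) with ⟨h1, _⟩ | ⟨h1, _⟩ <;> rw [h1] <;> linarith)
      (by rcases max_cases 0 (x01 - p) with ⟨h1, _⟩ | ⟨h1, _⟩ <;> rw [h1] <;> linarith)
  have m1 := max_le_iff.1 q1
  have m2 := max_le_iff.1 q2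
  have m3 := max_le_iff.1 q3
  have m4 := max_le_iff.1 q4
  exact ⟨p, p1, p2, p3, p4, a0, m1.1, m2.1, m3.1, m4.1, by linarith, by linarith [m1.2],
    by linarith [m2.2], by linarith [m3.2], by linarith [m4.2], q6, q7, q8, q9, q10, q11⟩

end Pool.Agent.Run7.h193.FM
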