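import Pool.Agent.Run7.h193.FM3

set_option autoImplicit false

/-!
# The main lemma on weights on the edges of the complete graph on five vertices
-/

namespace Pool.Agent.Run7.h193.FM

open Finset

/-- Nonnegative weights on the edges, at most `D` together on disjoint edges. -/
structure WX (x : Fin 5 → Fin 5 → ℝ) (D : ℝ) : Prop where
  symm : ∀ i j, x i j = x j i
  nonneg : ∀ i j, i ≠ j → 0 ≤ x i j
  disj : ∀ a b c d e, Five a b c d e → x a b + x c d ≤ D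

/-- Twice the weight of a triangle with weights `1 / 2` and an edge. -/
def vT (x : Fin 5 → Fin 5 → ℝ) (a b c d e : Fin 5) : ℝ := x a b + x b c + x a c + 2 * x d e

/-- Twice the weight of a cycle with weights `1 / 2`. -/
def vC (x : Fin 5 → Fin 5 → ℝ) (a b c d e : Fin 5) : ℝ := x a b + x b c + x c d + x d e + x e a

theorem five_perm (σ : Equiv.Perm (Fin 5)) {a b c d e : Fin 5} (h : Five a b c d e) :
    Five (σ a) (σ b) (σ c) (σ d) (σ e) := by
  obtain ⟨h1, h2, h3, h4, h5, h6, h7, h8, h9, h10⟩ := h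
  have inj : ∀ i j : Fin 5, i ≠ j → σ i ≠ σ j := fun i j hij h => hij (σ.injective h)
  exact ⟨inj _ _ h1, inj _ _ h2, inj _ _ h3, inj _ _ h4, inj _ _ h5, inj _ _ h6, inj _ _ h7,
    inj _ _ h8, inj _ _ h9, inj _ _ h10⟩

theorem WX.comp {x : Fin 5 → Fin 5 → ℝ} {D : ℝ} (h : WX x D) (σ : Equiv.Perm (Fin 5)) :
    WX (fun i j => x (σ i) (σ j)) D :=
  ⟨fun i j => h.symm _ _, fun i j hij => h.nonneg _ _ fun e => hij (σ.injective e),
    fun a b c d e hf => h.disj _ _ _ _ (σ e) (five_perm σ hf)⟩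

/-- The number of the perfect weighting. -/
def Sol (x : Fin 5 → Fin 5 → ℝ) (D : ℝ) : Prop :=
  ∃ p : Fin 5 → ℝ, (∀ i, 0 ≤ p i) ∧ ∑ i, p i = D ∧ AllGood x p

/-- The cycle `0, 1, 2, 3, 4` has the largest weight. -/
def CycMax (x : Fin 5 → Fin 5 → ℝ) (D : ℝ) : Prop :=
  2 * D ≤ vC x 0 1 2 3 4 ∧ ∀ a b c d e, Five a b c d e → vT x a b c d e ≤ vC x 0 1 2 3 4

/-- Rotation. -/
def rot : Equiv.Perm (Fin 5) := Equiv.addRight 1

theorem CycMax.rot {x : Fin 5 → Fin 5 → ℝ} {D : ℝ} (h : CycMax x D) :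
    CycMax (fun i j => x (rot i) (rot j)) D := by
  have e : vC (fun i j => x (FM.rot i) (FM.rot j)) 0 1 2 3 4 = vC x 0 1 2 3 4 := by
    change x 1 2 + x 2 3 + x 3 4 + x 4 0 + x 0 1 = x 0 1 + x 1 2 + x 2 3 + x 3 4 + x 4 0
    ring
  unfold CycMax
  rw [e]
  exact ⟨h.1, fun a b c d e hf => h.2 _ _ _ _ _ (five_perm FM.rot hf)⟩

/-- The case of a cycle; the vertex `0` gets the weight zero. -/
theorem cyc_core {x : Fin 5 → Fin 5 → ℝ} {D : ℝ} (h : WX x D) (hM : CycMax x D)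
    (g2 : x 2 3 - x 3 4 + x 4 0 - x 0 1 + x 1 2 ≤ 2 * x 2 4 ∨
      x 2 3 - x 3 4 + x 4 0 - x 0 1 + x 1 2 ≤ 2 * x 0 2 ∨
      (x 2 3 - x 3 4 + x 4 0 - x 0 1 + x 1 2) / 2 + x 4 0 + x 1 3 ≤ D)
    (g3 : x 3 4 - x 4 0 + x 0 1 - x 1 2 + x 2 3 ≤ 2 * x 0 3 ∨
      x 3 4 - x 4 0 + x 0 1 - x 1 2 + x 2 3 ≤ 2 * x 1 3 ∨
      (x 3 4 - x 4 0 + x 0 1 - x 1 2 + x 2 3) / 2 + x 0 1 + x 2 4 ≤ D) : Sol x D := by
  have hs := h.symm
  obtain ⟨hM1, hM2⟩ := hM
  have d0 := h.disj 1 2 3 4 0 (by decide)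
  have d1 := h.disj 2 3 4 0 1 (by decide)
  have d2 := h.disj 3 4 0 1 2 (by decide)
  have d3 := h.disj 4 0 1 2 3 (by decide)
  have d4 := h.disj 0 1 2 3 4 (by decide)
  have t13 := hM2 1 2 3 4 0 (by decide)
  have t14 := hM2 4 0 1 2 3 (by decide)
  have t24 := hM2 2 3 4 0 1 (by decide)
  have n01 := h.nonneg 0 1 (by decide)
  have n12 := h.nonneg 1 2 (by decide)
  have n23 := h.nonneg 2 3 (by decide)
  have n34 := h.nonneg 3 4 (by decide)
  have n40 := h.nonneg 4 0 (by decide)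
  unfold vC at hM1 t13 t14 t24
  unfold vT at t13 t14 t24
  have e40 := hs 4 0
  have e41 := hs 4 1
  refine core1 hs (D := D)
    (p1 := (x 1 2 - x 2 3 + x 3 4 - x 4 0 + x 0 1) / 2 + (D - x 1 2 - x 3 4))
    (p2 := (x 2 3 - x 3 4 + x 4 0 - x 0 1 + x 1 2) / 2)
    (p3 := (x 3 4 - x 4 0 + x 0 1 - x 1 2 + x 2 3) / 2)
    (p4 := (x 4 0 - x 0 1 + x 1 2 - x 2 3 + x 3 4) / 2)
    (by linarith) (by linarith) (by linarith) (by linarith) (by ring)
    (by linarith) (by linarith) (by linarith) (by linarith) (by linarith) (by linarith)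
    (Or.inl (by linarith)) (Or.inl (by linarith)) (Or.inl (by linarith))
    (Or.inr (Or.inr (Or.inl (by linarith)))) (Or.inr (Or.inr (Or.inl (by linarith)))) ?_
    ?_ (Or.inr (Or.inr (Or.inl (by linarith)))) (Or.inr (Or.inr (Or.inl (by linarith))))
    (Or.inl (by linarith)) (Or.inl (by linarith)) (Or.inl (by linarith))
  · rcases g2 with g | g | g
    · right; right; left; linarith
    · left; linarith
    · right; right; right; linarith
  · rcases g3 with g | g | g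
    · left; linarith
    · right; right; left; linarith
    · right; right; right; linarith

/-- The vertex `v` is good. -/
def gd (x : Fin 5 → Fin 5 → ℝ) (D : ℝ) (v v1 v2 v3 v4 : Fin 5) : Prop :=
  x v v1 - x v1 v2 + x v2 v3 - x v3 v4 + x v4 v ≤ 2 * x v v2 ∨
    x v v1 - x v1 v2 + x v2 v3 - x v3 v4 + x v4 v ≤ 2 * x v v3 ∨
      (x v v1 - x v1 v2 + x v2 v3 - x v3 v4 + x v4 v) / 2 + x v2 v3 + x v4 v1 ≤ D

theorem adj {x : Fin 5 → Fin 5 → ℝ} {D : ℝ} (h : WX x D) {a b c d e : Fin 5}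
    (hf : Five a b c d e) : gd x D a b c d e ∨ gd x D b c d e a := by
  by_contra hn
  rw [not_or] at hn
  obtain ⟨h1, h2⟩ := hn
  unfold gd at h1 h2
  simp only [not_or, not_le] at h1 h2
  have d1 := h.disj a b d e c (by
    obtain ⟨h1, h2, h3, h4, h5, h6, h7, h8, h9, h10⟩ := hf
    exact ⟨h1, h3, h4, h2, h6, h7, h5, h10, h8.symm, h9.symm⟩)
  linarith [h1.1, h1.2.1, h1.2.2, h2.1, h2.2.1, h2.2.2]

theorem cyc {x : Fin 5 → Fin 5 → ℝ} {D : ℝ} (h : WX x D) (hM : CycMax x D) : Sol x D := by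
  have hs := h.symm
  have key : ∀ y : Fin 5 → Fin 5 → ℝ, WX y D → CycMax y D → gd y D 2 3 4 0 1 →
      gd y D 3 4 0 1 2 → Sol y D := by
    intro y h1 h2 g1 g2
    refine cyc_core h1 h2 ?_ ?_
    · unfold gd at g1
      rw [h1.symm 2 0] at g1
      exact g1
    · unfold gd at g2
      rw [h1.symm 3 0, h1.symm 3 1] at g2
      exact g2
  have a0 := adj h (a := 0) (b := 1) (c := 2) (d := 3) (e := 4) (by decide)
  have a1 := adj h (a := 1) (b := 2) (c := 3) (d := 4) (e := 0) (by decide)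
  have a2 := adj h (a := 2) (b := 3) (c := 4) (d := 0) (e := 1) (by decide)
  have a3 := adj h (a := 3) (b := 4) (c := 0) (d := 1) (e := 2) (by decide)
  have a4 := adj h (a := 4) (b := 0) (c := 1) (d := 2) (e := 3) (by decide)
  by_cases c0 : gd x D 0 1 2 3 4 ∧ gd x D 1 2 3 4 0
  · exact transport rot (transport rot (transport rot (key _ (((h.comp rot).comp rot).comp rot)
      hM.rot.rot.rot c0.1 c0.2)))
  by_cases c1 : gd x D 1 2 3 4 0 ∧ gd x D 2 3 4 0 1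
  · exact transport rot (transport rot (transport rot (transport rot (key _
      ((((h.comp rot).comp rot).comp rot).comp rot) hM.rot.rot.rot.rot c1.1 c1.2))))
  by_cases c2 : gd x D 2 3 4 0 1 ∧ gd x D 3 4 0 1 2
  · exact key x h hM c2.1 c2.2
  by_cases c3 : gd x D 3 4 0 1 2 ∧ gd x D 4 0 1 2 3
  · exact transport rot (key _ (h.comp rot) hM.rot c3.1 c3.2)
  by_cases c4 : gd x D 4 0 1 2 3 ∧ gd x D 0 1 2 3 4
  · exact transport rot (transport rot (key _ ((h.comp rot).comp rot) hM.rot.rot c4.1 c4.2))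
  exfalso
  tauto

end Pool.Agent.Run7.h193.FM
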