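import Pool.Agent.Run7.h193.FM4

set_option autoImplicit false

/-!
# The main lemma on weights on the edges of the complete graph on five vertices: triangles
-/

namespace Pool.Agent.Run7.h193.FM

open Finset

/-- The triangle `0, 1, 2` with the edge `3, 4` has the largest weight. -/
def TriMax (x : Fin 5 → Fin 5 → ℝ) (D : ℝ) : Prop :=
  2 * D ≤ vT x 0 1 2 3 4 ∧ ∀ a b c d e, Five a b c d e →
    vT x a b c d e ≤ vT x 0 1 2 3 4 ∧ vC x a b c d e ≤ vT x 0 1 2 3 4

theorem TriMax.comp {x : Fin 5 → Fin 5 → ℝ} {D : ℝ} (h : TriMax x D) (σ : Equiv.Perm (Fin 5))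
    (e : vT (fun i j => x (σ i) (σ j)) 0 1 2 3 4 = vT x 0 1 2 3 4) :
    TriMax (fun i j => x (σ i) (σ j)) D := by
  unfold TriMax
  rw [e]
  exact ⟨h.1, fun a b c d e hf => h.2 _ _ _ _ _ (five_perm σ hf)⟩

theorem tri_core {x : Fin 5 → Fin 5 → ℝ} {D : ℝ} (h : WX x D) (hM : TriMax x D) {p q : ℝ}
    (hp : 0 ≤ p) (hq : 0 ≤ q) (hpq : p + q = x 3 4)
    (l13 : x 1 3 ≤ p + (x 0 1 + x 1 2 - x 0 2) / 2) (l23 : x 2 3 ≤ p + (x 0 2 + x 1 2 - x 0 1) / 2)
    (l14 : x 1 4 ≤ q + (x 0 1 + x 1 2 - x 0 2) / 2) (l24 : x 2 4 ≤ q + (x 0 2 + x 1 2 - x 0 1) / 2)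
    (m31 : p ≤ x 0 3 ∨ p ≤ x 1 3 ∨ p + x 0 1 + x 2 4 ≤ D)
    (m32 : p ≤ x 0 3 ∨ p ≤ x 2 3 ∨ p + x 0 2 + x 1 4 ≤ D)
    (m41 : q ≤ x 0 4 ∨ q ≤ x 1 4 ∨ q + x 0 1 + x 2 3 ≤ D)
    (m42 : q ≤ x 0 4 ∨ q ≤ x 2 4 ∨ q + x 0 2 + x 1 3 ≤ D) : Sol x D := by
  have hs := h.symm
  have hM1 := hM.1
  unfold vT at hM1
  have d0 := h.disj 1 2 3 4 0 (by decide)
  have d1 := h.disj 0 2 3 4 1 (by decide)
  have d2 := h.disj 0 1 3 4 2 (by decide)
  refine core1 hs (D := D)
    (p1 := (x 0 1 + x 1 2 - x 0 2) / 2 + (D - x 1 2 - x 3 4))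
    (p2 := (x 0 2 + x 1 2 - x 0 1) / 2) (p3 := p) (p4 := q)
    (by linarith) (by linarith) hp hq (by linarith)
    (by linarith) (by linarith) (by linarith) (by linarith) (by linarith) (by linarith)
    (Or.inl (by linarith)) (Or.inl (by linarith)) (Or.inl (by linarith))
    (Or.inl (by linarith)) (Or.inl (by linarith)) (Or.inl (by linarith))
    ?_ ?_ (Or.inr (Or.inr (Or.inl (by linarith)))) ?_ ?_ (Or.inr (Or.inr (Or.inl (by linarith))))
  · rcases m31 with g | g | g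
    · exact Or.inl g
    · exact Or.inr (Or.inr (Or.inl g))
    · exact Or.inr (Or.inr (Or.inr g))
  · rcases m32 with g | g | g
    · exact Or.inl g
    · exact Or.inr (Or.inr (Or.inl g))
    · exact Or.inr (Or.inr (Or.inr g))
  · rcases m41 with g | g | g
    · exact Or.inl g
    · exact Or.inr (Or.inr (Or.inl g))
    · exact Or.inr (Or.inr (Or.inr g))
  · rcases m42 with g | g | g
    · exact Or.inl g
    · exact Or.inr (Or.inr (Or.inl g))
    · exact Or.inr (Or.inr (Or.inr g))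

theorem tri_a {x : Fin 5 → Fin 5 → ℝ} {D : ℝ} (h : WX x D) (hM : TriMax x D)
    (hs1 : x 1 3 ≤ x 0 3) (hs2 : x 2 3 ≤ x 0 3)
    (ht : (x 1 4 ≤ x 0 4 ∧ x 2 4 ≤ x 0 4) ∨ (x 0 4 ≤ x 1 4 ∧ x 2 4 ≤ x 1 4)) : Sol x D := by
  have hs := h.symm
  have hM1 := hM.1
  have v034 := (hM.2 0 3 4 1 2 (by decide)).1
  have v134 := (hM.2 1 3 4 0 2 (by decide)).1
  have v234 := (hM.2 2 3 4 0 1 (by decide)).1
  have c01 := (hM.2 3 0 2 1 4 (by decide)).2
  have c02 := (hM.2 3 0 1 2 4 (by decide)).2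
  have c10 := (hM.2 3 1 2 0 4 (by decide)).2
  have c12 := (hM.2 3 1 0 2 4 (by decide)).2
  have c20 := (hM.2 3 2 1 0 4 (by decide)).2
  have c21 := (hM.2 3 2 0 1 4 (by decide)).2
  have d0 := h.disj 1 2 3 4 0 (by decide)
  have d1 := h.disj 0 2 3 4 1 (by decide)
  have d2 := h.disj 0 1 3 4 2 (by decide)
  have f03 := h.disj 0 3 1 2 4 (by decide)
  have f13 := h.disj 1 3 0 2 4 (by decide)
  have f23 := h.disj 2 3 0 1 4 (by decide)
  have f04 := h.disj 0 4 1 2 3 (by decide)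
  have f14 := h.disj 1 4 0 2 3 (by decide)
  have f24 := h.disj 2 4 0 1 3 (by decide)
  have n03 := h.nonneg 0 3 (by decide)
  have n13 := h.nonneg 1 3 (by decide)
  have n23 := h.nonneg 2 3 (by decide)
  have n04 := h.nonneg 0 4 (by decide)
  have n14 := h.nonneg 1 4 (by decide)
  have n24 := h.nonneg 2 4 (by decide)
  have n34 := h.nonneg 3 4 (by decide)
  have s30 := hs 3 0
  have s31 := hs 3 1
  have s32 := hs 3 2
  have s40 := hs 4 0
  have s41 := hs 4 1
  have s42 := hs 4 2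
  have s43 := hs 4 3
  have s10 := hs 1 0
  have s20 := hs 2 0
  have s21 := hs 2 1
  unfold vT vC at *
  have hq0 : 0 ≤ (x 0 1 + x 0 2 - x 1 2) / 2 := by linarith
  have hq1 : 0 ≤ (x 0 1 + x 1 2 - x 0 2) / 2 := by linarith
  have hq2 : 0 ≤ (x 0 2 + x 1 2 - x 0 1) / 2 := by linarith
  obtain ⟨T, hT0, hT1, hT2, hT⟩ : ∃ T, x 0 4 ≤ T ∧ x 1 4 ≤ T ∧ x 2 4 ≤ T ∧
      (T = x 0 4 ∨ T = x 1 4) := by
    rcases ht with ht | ht
    · exact ⟨x 0 4, le_rfl, ht.1, ht.2, Or.inl rfl⟩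
    · exact ⟨x 1 4, ht.1, le_rfl, ht.2, Or.inr rfl⟩
  by_cases hb : x 0 3 + T ≤ x 3 4
  · refine tri_core h hM (p := x 0 3) (q := x 3 4 - x 0 3) n03 (by linarith) (by ring)
      (by linarith) (by linarith) (by linarith) (by linarith)
      (Or.inl le_rfl) (Or.inl le_rfl) (Or.inr (Or.inr (by linarith)))
      (Or.inr (Or.inr (by linarith)))
  · rw [not_le] at hb
    obtain ⟨p, hl, hu⟩ := mid
      [x 3 4 - T, 0, x 0 3 - (x 0 1 + x 0 2 - x 1 2) / 2, x 1 3 - (x 0 1 + x 1 2 - x 0 2) / 2,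
        x 2 3 - (x 0 2 + x 1 2 - x 0 1) / 2]
      [x 0 3, x 3 4, x 3 4 - (x 0 4 - (x 0 1 + x 0 2 - x 1 2) / 2),
        x 3 4 - (x 1 4 - (x 0 1 + x 1 2 - x 0 2) / 2),
        x 3 4 - (x 2 4 - (x 0 2 + x 1 2 - x 0 1) / 2)]
      (by simp) (by
        intro l hl u hu
        simp only [List.mem_cons, List.not_mem_nil, or_false] at hl hu
        clear hM ht hT
        rcases hl with hl | hl | hl | hl | hl <;> rcases hu with hu | hu | hu | hu | hu <;>
          rw [hl, hu] <;> linarith)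
    simp only [List.mem_cons, List.not_mem_nil, or_false, forall_eq_or_imp, forall_eq] at hl hu
    obtain ⟨a1, a2, a3, a4, a5⟩ := hl
    obtain ⟨b1, b2, b3, b4, b5⟩ := hu
    rcases hT with hT | hT
    · exact tri_core h hM (p := p) (q := x 3 4 - p) a2 (by linarith) (by ring)
        (by linarith) (by linarith) (by linarith) (by linarith)
        (Or.inl b1) (Or.inl b1) (Or.inl (by linarith)) (Or.inl (by linarith))
    · by_cases hc : p ≤ x 1 3
      · refine transport (Equiv.swap 0 1) (tri_core (h.comp (Equiv.swap 0 1))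
          (hM.comp (Equiv.swap 0 1) ?_) (p := p) (q := x 3 4 - p) a2 (by linarith) ?_ ?_ ?_ ?_ ?_
          (Or.inl ?_) (Or.inl ?_) (Or.inl ?_) (Or.inl ?_))
        · change x 1 0 + x 0 2 + x 1 2 + 2 * x 3 4 = x 0 1 + x 1 2 + x 0 2 + 2 * x 3 4
          linarith
        · change p + (x 3 4 - p) = x 3 4
          ring
        · change x 0 3 ≤ p + (x 1 0 + x 0 2 - x 1 2) / 2
          linarith
        · change x 2 3 ≤ p + (x 1 2 + x 0 2 - x 1 0) / 2
          linarith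
        · change x 0 4 ≤ (x 3 4 - p) + (x 1 0 + x 0 2 - x 1 2) / 2
          linarith
        · change x 2 4 ≤ (x 3 4 - p) + (x 1 2 + x 0 2 - x 1 0) / 2
          linarith
        · exact hc
        · exact hc
        · change x 3 4 - p ≤ x 1 4
          linarith
        · change x 3 4 - p ≤ x 1 4
          linarith
      · exact tri_core h hM (p := p) (q := x 3 4 - p) a2 (by linarith) (by ring)
          (by linarith) (by linarith) (by linarith) (by linarith)
          (Or.inl b1) (Or.inl b1) (Or.inr (Or.inl (by linarith)))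
          (Or.inr (Or.inr (by linarith)))

theorem tri_b {x : Fin 5 → Fin 5 → ℝ} {D : ℝ} (h : WX x D) (hM : TriMax x D)
    (hs1 : x 1 3 ≤ x 0 3) (hs2 : x 2 3 ≤ x 0 3) : Sol x D := by
  have hs := h.symm
  rcases le_total (x 1 4) (x 0 4) with a | a
  · rcases le_total (x 2 4) (x 0 4) with b | b
    · exact tri_a h hM hs1 hs2 (Or.inl ⟨a, b⟩)
    · refine transport (Equiv.swap 1 2) (tri_a (h.comp (Equiv.swap 1 2))
        (hM.comp (Equiv.swap 1 2) ?_) ?_ ?_ (Or.inr ⟨?_, ?_⟩))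
      · change x 0 2 + x 2 1 + x 0 1 + 2 * x 3 4 = x 0 1 + x 1 2 + x 0 2 + 2 * x 3 4
        rw [hs 2 1]
        ring
      · exact hs2
      · exact hs1
      · exact b
      · exact a.trans b
  · rcases le_total (x 2 4) (x 1 4) with b | b
    · exact tri_a h hM hs1 hs2 (Or.inr ⟨a, b⟩)
    · refine transport (Equiv.swap 1 2) (tri_a (h.comp (Equiv.swap 1 2))
        (hM.comp (Equiv.swap 1 2) ?_) ?_ ?_ (Or.inr ⟨?_, ?_⟩))
      · change x 0 2 + x 2 1 + x 0 1 + 2 * x 3 4 = x 0 1 + x 1 2 + x 0 2 + 2 * x 3 4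
        rw [hs 2 1]
        ring
      · exact hs2
      · exact hs1
      · exact a.trans b
      · exact b

theorem tri {x : Fin 5 → Fin 5 → ℝ} {D : ℝ} (h : WX x D) (hM : TriMax x D) : Sol x D := by
  have hs := h.symm
  have r1 : x 2 3 ≤ x 1 3 → x 0 3 ≤ x 1 3 → Sol x D := by
    intro a b
    refine transport (Equiv.swap 0 1) (tri_b (h.comp (Equiv.swap 0 1))
      (hM.comp (Equiv.swap 0 1) ?_) ?_ ?_)
    · change x 1 0 + x 0 2 + x 1 2 + 2 * x 3 4 = x 0 1 + x 1 2 + x 0 2 + 2 * x 3 4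
      rw [hs 1 0]
      ring
    · exact b
    · exact a
  have r2 : x 1 3 ≤ x 2 3 → x 0 3 ≤ x 2 3 → Sol x D := by
    intro a b
    refine transport (Equiv.swap 0 2) (tri_b (h.comp (Equiv.swap 0 2))
      (hM.comp (Equiv.swap 0 2) ?_) ?_ ?_)
    · change x 2 1 + x 1 0 + x 2 0 + 2 * x 3 4 = x 0 1 + x 1 2 + x 0 2 + 2 * x 3 4
      rw [hs 2 1, hs 1 0, hs 2 0]
      ring
    · exact a
    · exact b
  rcases le_total (x 1 3) (x 0 3) with a | a
  · rcases le_total (x 2 3) (x 0 3) with b | b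
    · exact tri_b h hM a b
    · exact r2 (a.trans b) b
  · rcases le_total (x 2 3) (x 1 3) with b | b
    · exact r1 b a
    · exact r2 b (a.trans b)

theorem five_exists {a b c d e : Fin 5} (h : Five a b c d e) :
    ∃ σ : Equiv.Perm (Fin 5), σ 0 = a ∧ σ 1 = b ∧ σ 2 = c ∧ σ 3 = d ∧ σ 4 = e := by
  have key : ∀ a b c d e : Fin 5, Five a b c d e → Function.Injective ![a, b, c, d, e] := by
    intro a b c d e h i j hij
    obtain ⟨h1, h2, h3, h4, h5, h6, h7, h8, h9, h10⟩ := h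
    fin_cases i <;> fin_cases j <;> first
      | rfl
      | exact absurd hij h1 | exact absurd hij h2 | exact absurd hij h3 | exact absurd hij h4
      | exact absurd hij h5 | exact absurd hij h6 | exact absurd hij h7 | exact absurd hij h8
      | exact absurd hij h9 | exact absurd hij h10
      | exact absurd hij.symm h1 | exact absurd hij.symm h2 | exact absurd hij.symm h3
      | exact absurd hij.symm h4 | exact absurd hij.symm h5 | exact absurd hij.symm h6
      | exact absurd hij.symm h7 | exact absurd hij.symm h8 | exact absurd hij.symm h9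
      | exact absurd hij.symm h10
  exact ⟨Equiv.ofBijective _ (Finite.injective_iff_bijective.1 (key a b c d e h)), rfl, rfl, rfl,
    rfl, rfl⟩

/-- The case in which there is a fractional vertex cover. -/
theorem small {x : Fin 5 → Fin 5 → ℝ} {D : ℝ} (h : WX x D)
    (gT : ∀ a b c d e, Five a b c d e → vT x a b c d e ≤ 2 * D)
    (gC : ∀ a b c d e, Five a b c d e → vC x a b c d e ≤ 2 * D) : Sol x D := by
  have hs := h.symm
  have t012 : x 0 1 + x 0 2 + x 1 2 + 2 * x 3 4 ≤ 2 * D := by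
    have := gT 0 1 2 3 4 (by decide)
    unfold vT at this; linarith
  have t013 : x 0 1 + x 0 3 + x 1 3 + 2 * x 2 4 ≤ 2 * D := by
    have := gT 0 1 3 2 4 (by decide)
    unfold vT at this; linarith
  have t014 : x 0 1 + x 0 4 + x 1 4 + 2 * x 2 3 ≤ 2 * D := by
    have := gT 0 1 4 2 3 (by decide)
    unfold vT at this; linarith
  have t023 : x 0 2 + x 0 3 + x 2 3 + 2 * x 1 4 ≤ 2 * D := by
    have := gT 0 2 3 1 4 (by decide)
    unfold vT at this; linarith
  have t024 : x 0 2 + x 0 4 + x 2 4 + 2 * x 1 3 ≤ 2 * D := by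
    have := gT 0 2 4 1 3 (by decide)
    unfold vT at this; linarith
  have t034 : x 0 3 + x 0 4 + x 3 4 + 2 * x 1 2 ≤ 2 * D := by
    have := gT 0 3 4 1 2 (by decide)
    unfold vT at this; linarith
  have t123 : x 1 2 + x 1 3 + x 2 3 + 2 * x 0 4 ≤ 2 * D := by
    have := gT 1 2 3 0 4 (by decide)
    unfold vT at this; linarith
  have t124 : x 1 2 + x 1 4 + x 2 4 + 2 * x 0 3 ≤ 2 * D := by
    have := gT 1 2 4 0 3 (by decide)
    unfold vT at this; linarith
  have t134 : x 1 3 + x 1 4 + x 3 4 + 2 * x 0 2 ≤ 2 * D := by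
    have := gT 1 3 4 0 2 (by decide)
    unfold vT at this; linarith
  have t234 : x 2 3 + x 2 4 + x 3 4 + 2 * x 0 1 ≤ 2 * D := by
    have := gT 2 3 4 0 1 (by decide)
    unfold vT at this; linarith
  have c01234 : x 0 1 + x 1 2 + x 2 3 + x 3 4 + x 0 4 ≤ 2 * D := by
    have := gC 0 1 2 3 4 (by decide)
    unfold vC at this; rw [hs 4 0] at this; exact this
  have c01243 : x 0 1 + x 1 2 + x 2 4 + x 3 4 + x 0 3 ≤ 2 * D := by
    have := gC 0 1 2 4 3 (by decide)
    unfold vC at this; rw [hs 4 3, hs 3 0] at this; exact this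
  have c01324 : x 0 1 + x 1 3 + x 2 3 + x 2 4 + x 0 4 ≤ 2 * D := by
    have := gC 0 1 3 2 4 (by decide)
    unfold vC at this; rw [hs 3 2, hs 4 0] at this; exact this
  have c01342 : x 0 1 + x 1 3 + x 3 4 + x 2 4 + x 0 2 ≤ 2 * D := by
    have := gC 0 1 3 4 2 (by decide)
    unfold vC at this; rw [hs 4 2, hs 2 0] at this; exact this
  have c01423 : x 0 1 + x 1 4 + x 2 4 + x 2 3 + x 0 3 ≤ 2 * D := by
    have := gC 0 1 4 2 3 (by decide)
    unfold vC at this; rw [hs 4 2, hs 3 0] at this; exact this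
  have c01432 : x 0 1 + x 1 4 + x 3 4 + x 2 3 + x 0 2 ≤ 2 * D := by
    have := gC 0 1 4 3 2 (by decide)
    unfold vC at this; rw [hs 4 3, hs 3 2, hs 2 0] at this; exact this
  have c02134 : x 0 2 + x 1 2 + x 1 3 + x 3 4 + x 0 4 ≤ 2 * D := by
    have := gC 0 2 1 3 4 (by decide)
    unfold vC at this; rw [hs 2 1, hs 4 0] at this; exact this
  have c02143 : x 0 2 + x 1 2 + x 1 4 + x 3 4 + x 0 3 ≤ 2 * D := by
    have := gC 0 2 1 4 3 (by decide)
    unfold vC at this; rw [hs 2 1, hs 4 3, hs 3 0] at this; exact this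
  have c02314 : x 0 2 + x 2 3 + x 1 3 + x 1 4 + x 0 4 ≤ 2 * D := by
    have := gC 0 2 3 1 4 (by decide)
    unfold vC at this; rw [hs 3 1, hs 4 0] at this; exact this
  have c02413 : x 0 2 + x 2 4 + x 1 4 + x 1 3 + x 0 3 ≤ 2 * D := by
    have := gC 0 2 4 1 3 (by decide)
    unfold vC at this; rw [hs 4 1, hs 3 0] at this; exact this
  have c03124 : x 0 3 + x 1 3 + x 1 2 + x 2 4 + x 0 4 ≤ 2 * D := by
    have := gC 0 3 1 2 4 (by decide)
    unfold vC at this; rw [hs 3 1, hs 4 0] at this; exact this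
  have c03214 : x 0 3 + x 2 3 + x 1 2 + x 1 4 + x 0 4 ≤ 2 * D := by
    have := gC 0 3 2 1 4 (by decide)
    unfold vC at this; rw [hs 3 2, hs 2 1, hs 4 0] at this; exact this
  obtain ⟨p0, p1, p2, p3, p4, q0, q1, q2, q3, q4, hsum, r01, r02, r03, r04, r12, r13, r14, r23, r24,
    r34⟩ := cover5
      (h.nonneg 0 1 (by decide)) (h.nonneg 0 2 (by decide)) (h.nonneg 0 3 (by decide))
      (h.nonneg 0 4 (by decide)) (h.nonneg 1 2 (by decide)) (h.nonneg 1 3 (by decide))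
      (h.nonneg 1 4 (by decide)) (h.nonneg 2 3 (by decide)) (h.nonneg 2 4 (by decide))
      (h.nonneg 3 4 (by decide)) (h.disj 0 1 2 3 4 (by decide)) (h.disj 0 1 2 4 3 (by decide))
      (h.disj 0 1 3 4 2 (by decide)) (h.disj 0 2 1 3 4 (by decide)) (h.disj 0 2 1 4 3 (by decide))
      (h.disj 0 2 3 4 1 (by decide)) (h.disj 0 3 1 2 4 (by decide)) (h.disj 0 3 1 4 2 (by decide))
      (h.disj 0 3 2 4 1 (by decide)) (h.disj 0 4 1 2 3 (by decide)) (h.disj 0 4 1 3 2 (by decide))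
      (h.disj 0 4 2 3 1 (by decide)) (h.disj 1 2 3 4 0 (by decide)) (h.disj 1 3 2 4 0 (by decide))
      (h.disj 1 4 2 3 0 (by decide)) t012 t013
      t014 t023 t024
      t034 t123 t124
      t134 t234 c01234
      c01243 c01324 c01342
      c01423 c01432 c02134
      c02143 c02314 c02413
      c03124 c03214
  refine ⟨![p0, p1, p2, p3, p4], ?_, ?_, full ?_⟩
  · intro i
    fin_cases i
    · exact q0
    · exact q1
    · exact q2
    · exact q3
    · exact q4
  · rw [Fin.sum_univ_five]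
    exact hsum
  · have key : ∀ i j : Fin 5, i < j → x i j ≤ (![p0, p1, p2, p3, p4] : Fin 5 → ℝ) i +
        (![p0, p1, p2, p3, p4] : Fin 5 → ℝ) j := by
      have hlist : ∀ i j : Fin 5, i < j → (i, j) ∈ ([(0, 1), (0, 2), (0, 3), (0, 4), (1, 2), (1, 3),
          (1, 4), (2, 3), (2, 4), (3, 4)] : List (Fin 5 × Fin 5)) := by decide +kernel
      intro i j hij
      have hm := hlist i j hij
      clear hij hlist
      simp only [List.mem_cons, Prod.mk.injEq, List.not_mem_nil, or_false] at hm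
      rcases hm with h | h | h | h | h | h | h | h | h | h <;> obtain ⟨rfl, rfl⟩ := h <;> assumption
    intro i j hij
    rcases lt_or_gt_of_ne hij with h1 | h1
    · exact key i j h1
    · rw [hs i j, add_comm]
      exact key j i h1

/-- **The main lemma.** -/
theorem sol {x : Fin 5 → Fin 5 → ℝ} {D : ℝ} (h : WX x D) : Sol x D := by
  have hs := h.symm
  obtain ⟨σ, hσ⟩ := Finite.exists_max fun σ : Equiv.Perm (Fin 5) =>
    vT x (σ 0) (σ 1) (σ 2) (σ 3) (σ 4)
  obtain ⟨τ, hτ⟩ := Finite.exists_max fun σ : Equiv.Perm (Fin 5) =>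
    vC x (σ 0) (σ 1) (σ 2) (σ 3) (σ 4)
  have hT : ∀ a b c d e, Five a b c d e → vT x a b c d e ≤ vT x (σ 0) (σ 1) (σ 2) (σ 3) (σ 4) := by
    intro a b c d e hf
    obtain ⟨ρ, rfl, rfl, rfl, rfl, rfl⟩ := five_exists hf
    exact hσ ρ
  have hC : ∀ a b c d e, Five a b c d e → vC x a b c d e ≤ vC x (τ 0) (τ 1) (τ 2) (τ 3) (τ 4) := by
    intro a b c d e hf
    obtain ⟨ρ, rfl, rfl, rfl, rfl, rfl⟩ := five_exists hf
    exact hτ ρ
  rcases le_total (vC x (τ 0) (τ 1) (τ 2) (τ 3) (τ 4)) (vT x (σ 0) (σ 1) (σ 2) (σ 3) (σ 4))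
    with hTC | hTC
  · by_cases hD : 2 * D ≤ vT x (σ 0) (σ 1) (σ 2) (σ 3) (σ 4)
    · exact transport σ (tri (h.comp σ) ⟨hD, fun a b c d e hf => ⟨hT _ _ _ _ _ (five_perm σ hf),
        (hC _ _ _ _ _ (five_perm σ hf)).trans hTC⟩⟩)
    · rw [not_le] at hD
      have gT : ∀ a b c d e, Five a b c d e → vT x a b c d e ≤ 2 * D := fun a b c d e hf =>
        (hT a b c d e hf).trans hD.le
      have gC : ∀ a b c d e, Five a b c d e → vC x a b c d e ≤ 2 * D := fun a b c d e hf =>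
        ((hC a b c d e hf).trans hTC).trans hD.le
      exact small h gT gC
  · by_cases hD : 2 * D ≤ vC x (τ 0) (τ 1) (τ 2) (τ 3) (τ 4)
    · exact transport τ (cyc (h.comp τ) ⟨hD, fun a b c d e hf =>
        (hT _ _ _ _ _ (five_perm τ hf)).trans hTC⟩)
    · rw [not_le] at hD
      have gT : ∀ a b c d e, Five a b c d e → vT x a b c d e ≤ 2 * D := fun a b c d e hf =>
        ((hT a b c d e hf).trans hTC).trans hD.le
      have gC : ∀ a b c d e, Five a b c d e → vC x a b c d e ≤ 2 * D := fun a b c d e hf =>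
        (hC a b c d e hf).trans hD.le
      exact small h gT gC

end Pool.Agent.Run7.h193.FM
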