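import Pool.Agent.Run7.h193.FM5
import Pool.Agent.NH46.F8.Stmt
import Pool.Agent.NH37.MF.Defs
import Pool.Agent.NH37.SL.Gauge

set_option autoImplicit false

/-!
# Divisors of degree zero on the F-curves with two parts disjoint from five marks: structure
-/

namespace Pool.Agent.Run7.h193.FM

open Finset Pool.Agent.NH37.FC Pool.Agent.NH37.SL Pool.Agent.NH37.MF

variable {q : ℕ}

/-- The cut functions. -/
abbrev ct {q : ℕ} (W : Fin q → Fin q → ℝ) (S : Finset (Fin q)) : ℝ := Pool.Agent.NH37.AF.cut W S

theorem ct_eq (W : Fin q → Fin q → ℝ) (S : Finset (Fin q)) : ct W S = cutf W S := rfl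

theorem ct_compl {W : Fin q → Fin q → ℝ} (hW : ∀ a b, W a b = W b a) (S : Finset (Fin q)) :
    ct W Sᶜ = ct W S := cutf_compl hW S

theorem ct_fdeg {W : Fin q → Fin q → ℝ} (hW : ∀ a b, W a b = W b a) {A B C : Finset (Fin q)}
    (h1 : Disjoint A B) (h2 : Disjoint A C) (h3 : Disjoint B C) : fdeg (ct W) A B C = 0 := by
  set D := (A ∪ B ∪ C)ᶜ with hD
  have dA : Disjoint A D := disjoint_compl_right.mono_left (subset_union_left.trans subset_union_left)
  have dB : Disjoint B D :=
    disjoint_compl_right.mono_left (subset_union_right.trans subset_union_left)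
  have dC : Disjoint C D := disjoint_compl_right.mono_left subset_union_right
  have key := cutf_F hW h1 h2 dA h3 dB dC (by rw [hD, union_compl])
  have e1 : cutf W D = cutf W (A ∪ B ∪ C) := cutf_compl hW _
  have e2 : cutf W (A ∪ D) = cutf W (B ∪ C) := by
    rw [← cutf_compl hW (B ∪ C)]
    congr 1
    ext x
    rw [hD]
    simp only [mem_union, mem_compl]
    have a1 : x ∈ A → x ∉ B := fun h => disjoint_left.1 h1 h
    have a2 : x ∈ A → x ∉ C := fun h => disjoint_left.1 h2 h
    tauto
  unfold fdeg
  simp only [ct_eq]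
  rw [e1, e2] at key
  linarith

theorem bil_single (W : Fin q → Fin q → ℝ) (a b : Fin q) : bil W {a} {b} = W a b := by
  unfold bil
  rw [sum_singleton, sum_singleton]

theorem ct_union {W : Fin q → Fin q → ℝ} (hW : ∀ a b, W a b = W b a) {A B : Finset (Fin q)}
    (h : Disjoint A B) : ct W (A ∪ B) = ct W A + ct W B - 2 * bil W A B := by
  simp only [ct_eq]
  unfold cutf
  have e1 : Aᶜ = (A ∪ B)ᶜ ∪ B := by
    ext x
    simp only [mem_union, mem_compl]
    have := fun hx : x ∈ B => disjoint_right.1 h hx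
    tauto
  have e2 : Bᶜ = (A ∪ B)ᶜ ∪ A := by
    ext x
    simp only [mem_union, mem_compl]
    have := fun hx : x ∈ B => disjoint_right.1 h hx
    tauto
  rw [e1, bil_union_right W A (disjoint_compl_left.mono_right subset_union_right),
    e2, bil_union_right W B (disjoint_compl_left.mono_right subset_union_left),
    bil_union_left W _ h, bil_symm hW B A]
  ring

theorem ct_pair {W : Fin q → Fin q → ℝ} (hW : ∀ a b, W a b = W b a) {a b : Fin q} (h : a ≠ b) :
    ct W {a, b} = ct W {a} + ct W {b} - 2 * W a b := by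
  have e : ({a, b} : Finset (Fin q)) = {a} ∪ {b} := by rw [insert_eq]
  rw [e, ct_union hW (disjoint_singleton.2 h), bil_single]

theorem ct_add (W W' : Fin q → Fin q → ℝ) (S : Finset (Fin q)) :
    ct (fun a b => W a b + W' a b) S = ct W S + ct W' S := by
  change ∑ i ∈ S, ∑ j ∈ Sᶜ, (W i j + W' i j) = ∑ i ∈ S, ∑ j ∈ Sᶜ, W i j + ∑ i ∈ S, ∑ j ∈ Sᶜ, W' i j
  rw [← sum_add_distrib]
  exact sum_congr rfl fun i _ => sum_add_distrib

/-- A normalised divisor of degree zero on the F-curves with two parts disjoint from `H`. -/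
structure Norm0 (g : Finset (Fin q) → ℝ) (H : Finset (Fin q)) : Prop where
  empty : g ∅ = 0
  compl : ∀ S, g Sᶜ = g S
  pair : ∀ a b, a ≠ b → g {a, b} = g {a} + g {b}
  light : ∀ A B C, Disjoint A B → Disjoint A C → Disjoint B C → Disjoint A H → Disjoint B H →
    fdeg g A B C = 0

/-- A normalised F-nef divisor of degree zero on the F-curves with two parts disjoint from `H`. -/
structure Norm (g : Finset (Fin q) → ℝ) (H : Finset (Fin q)) : Prop extends Norm0 g H where
  nonneg : ∀ A B C, Disjoint A B → Disjoint A C → Disjoint B C → 0 ≤ fdeg g A B C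

theorem fdeg_add (g g' : Finset (Fin q) → ℝ) (A B C : Finset (Fin q)) :
    fdeg (fun S => g S + g' S) A B C = fdeg g A B C + fdeg g' A B C := by
  unfold fdeg
  ring

theorem normalise0 {g : Finset (Fin q) → ℝ} {H : Finset (Fin q)} (hg : IsDivisor g)
    (hz : ∀ A B C, Disjoint A B → Disjoint A C → Disjoint B C → Disjoint A H → Disjoint B H →
      fdeg g A B C = 0) :
    ∃ W : Fin q → Fin q → ℝ, (∀ a b, W a b = W b a) ∧ Norm0 (fun S => g S + ct W S) H := by
  refine ⟨fun a b => (g {a, b} - g {a} - g {b}) / 2, fun a b => ?_, ?_⟩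
  · simp only
    rw [pair_comm]
    ring
  · set W : Fin q → Fin q → ℝ := fun a b => (g {a, b} - g {a} - g {b}) / 2 with hWdef
    have hW : ∀ a b, W a b = W b a := fun a b => by
      simp only [hWdef]
      rw [pair_comm]
      ring
    refine ⟨?_, fun S => ?_, fun a b hab => ?_, fun A B C h1 h2 h3 h4 h5 => ?_⟩
    · change g ∅ + ∑ i ∈ (∅ : Finset (Fin q)), ∑ j ∈ (∅ : Finset (Fin q))ᶜ, W i j = 0
      rw [sum_empty, hg.1, add_zero]
    · change g Sᶜ + ct W Sᶜ = g S + ct W S
      rw [ct_compl hW, hg.2]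
    · change g {a, b} + ct W {a, b} = g {a} + ct W {a} + (g {b} + ct W {b})
      rw [ct_pair hW hab]
      simp only [hWdef]
      ring
    · rw [fdeg_add, ct_fdeg hW h1 h2 h3, add_zero]
      exact hz A B C h1 h2 h3 h4 h5

theorem normalise {g : Finset (Fin q) → ℝ} {H : Finset (Fin q)} (hg : IsDivisor g) (hF : FNef g)
    (hz : ∀ A B C, Disjoint A B → Disjoint A C → Disjoint B C → Disjoint A H → Disjoint B H →
      fdeg g A B C = 0) :
    ∃ W : Fin q → Fin q → ℝ, (∀ a b, W a b = W b a) ∧ Norm (fun S => g S + ct W S) H := by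
  obtain ⟨W, hW, N⟩ := normalise0 hg hz
  refine ⟨W, hW, N, fun A B C h1 h2 h3 => ?_⟩
  rw [fdeg_add, ct_fdeg hW h1 h2 h3, add_zero]
  exact fdeg_nonneg hg hF h1 h2 h3

namespace Norm0

variable {g : Finset (Fin q) → ℝ} {H : Finset (Fin q)}

theorem insert_light (N : Norm0 g H) {X : Finset (Fin q)} : Disjoint X H → ∀ i : Fin q, i ∉ H →
    i ∉ X → g (insert i X) = g X + g {i} := by
  induction X using Finset.induction_on with
  | empty =>
    intro _ i _ _
    rw [N.empty, zero_add, insert_empty_eq]
  | insert j X hj ih =>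
    intro hX i hi hiX
    rw [disjoint_insert_left] at hX
    rw [mem_insert, not_or] at hiX
    have h1 := ih hX.2 i hi hiX.2
    have h2 := N.light {i} {j} X (disjoint_singleton.2 hiX.1) (disjoint_singleton_left.2 hiX.2)
      (disjoint_singleton_left.2 hj) (disjoint_singleton_left.2 hi)
      (disjoint_singleton_left.2 hX.1)
    unfold fdeg at h2
    rw [← insert_eq, ← insert_eq, ← insert_eq, N.pair i j hiX.1] at h2
    have e : ({i, j} : Finset (Fin q)) ∪ X = insert i (insert j X) := by
      rw [insert_union, singleton_union]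
    rw [e] at h2
    linarith

theorem mix (N : Norm0 g H) {T : Finset (Fin q)} (hT : T ⊆ H) {X : Finset (Fin q)} :
    Disjoint X H → g (T ∪ X) = g T + ∑ i ∈ X, (g (insert i T) - g T) := by
  induction X using Finset.induction_on with
  | empty =>
    intro _
    rw [union_empty, sum_empty, add_zero]
  | insert i X hi ih =>
    intro hX
    rw [disjoint_insert_left] at hX
    rw [sum_insert hi]
    have h1 := ih hX.2
    have hXT : Disjoint X T := hX.2.mono_right hT
    have hiT : i ∉ T := fun h => hX.1 (hT h)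
    have h2 := N.light {i} X T (disjoint_singleton_left.2 hi) (disjoint_singleton_left.2 hiT) hXT
      (disjoint_singleton_left.2 hX.1) hX.2
    unfold fdeg at h2
    rw [← insert_eq, ← insert_eq, N.insert_light hX.2 i hX.1 hi] at h2
    have e : insert i X ∪ T = T ∪ insert i X := union_comm _ _
    rw [e, union_comm X T] at h2
    linarith

end Norm0

end Pool.Agent.Run7.h193.FM
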