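import Pool.Agent.Run7.h193.FM6

set_option autoImplicit false

/-!
# F-nef divisors on `M̄_{0,4}` and `M̄_{0,5}` are effective sums of boundary divisors
-/

namespace Pool.Agent.Run7.h193.FM

open Finset Pool.Agent.NH37.FC Pool.Agent.NH37.SL Pool.Agent.NH37.MF

theorem exists_five {a b : Fin 5} (h : a ≠ b) : ∃ c d e, Five a b c d e := by
  revert a b
  decide +kernel

theorem exists_five' (a : Fin 5) : ∃ b c d e, Five a b c d e := by
  revert a
  decide +kernel

theorem sum_compl_single {n : ℕ} (f : Fin n → ℝ) (a : Fin n) :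
    ∑ i ∈ ({a} : Finset (Fin n))ᶜ, f i = ∑ i, f i - f a := by
  rw [← sum_add_sum_compl {a} f, sum_singleton]
  ring

theorem triple_compl {a b c d e : Fin 5} (h : Five a b c d e) :
    ({a} ∪ {b} ∪ {c} : Finset (Fin 5)) = ({d, e} : Finset (Fin 5))ᶜ := by
  revert a b c d e
  decide +kernel

/-- Every F-nef divisor on `M̄_{0,5}` is an effective sum of boundary divisors. -/
theorem eff5 {b : Finset (Fin 5) → ℝ} (h0 : b ∅ = 0) (hc : ∀ S, b Sᶜ = b S)
    (hF : ∀ u v w x y : Fin 5, Five u v w x y →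
      0 ≤ b {u, v} + b {u, w} + b {v, w} - b {u} - b {v} - b {w} - b {x, y}) :
    ∃ G : Fin 5 → Fin 5 → ℝ, (∀ i j, G i j = G j i) ∧ (∀ i, b {i} + ct G {i} = 0) ∧
      ∀ S, 0 ≤ b S + ct G S := by
  set R : Fin 5 → ℝ := fun a => ∑ j, b {a, j} with hR
  set Sg : ℝ := ∑ j, b {j} with hSg
  set P : ℝ := (∑ a, R a - Sg) / 2 with hP
  set y : Fin 5 → Fin 5 → ℝ := fun i j =>
    (2 * R i + 2 * R j - 4 * b {i} - 4 * b {j} - Sg - P) / 6 with hy
  set G : Fin 5 → Fin 5 → ℝ := fun i j => (b {i, j} - b {i} - b {j} - y i j) / 2 with hG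
  have hGs : ∀ i j, G i j = G j i := by
    intro i j
    simp only [hG, hy]
    rw [pair_comm j i]
    ring
  have hRe : ∀ {u v w x z : Fin 5}, Five u v w x z →
      R u = b {u} + b {u, v} + b {u, w} + b {u, x} + b {u, z} := by
    intro u v w x z h
    simp only [hR]
    rw [sum_five h, pair_eq_singleton]
  have perm1 : ∀ {u v w x z : Fin 5}, Five u v w x z → Five v u w x z := by decide +kernel
  have perm2 : ∀ {u v w x z : Fin 5}, Five u v w x z → Five w u v x z := by decide +kernel
  have perm3 : ∀ {u v w x z : Fin 5}, Five u v w x z → Five x u v w z := by decide +kernel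
  have perm4 : ∀ {u v w x z : Fin 5}, Five u v w x z → Five z u v w x := by decide +kernel
  have hSe : ∀ {u v w x z : Fin 5}, Five u v w x z →
      Sg = b {u} + b {v} + b {w} + b {x} + b {z} := fun h => by
    simp only [hSg]
    rw [sum_five h]
  have hPe : ∀ {u v w x z : Fin 5}, Five u v w x z →
      P = b {u, v} + b {u, w} + b {u, x} + b {u, z} + b {v, w} + b {v, x} + b {v, z} + b {w, x}
        + b {w, z} + b {x, z} := by
    intro u v w x z h
    have e1 := hRe h
    have e2 := hRe (perm1 h)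
    have e3 := hRe (perm2 h)
    have e4 := hRe (perm3 h)
    have e5 := hRe (perm4 h)
    rw [pair_comm v u] at e2
    rw [pair_comm w u, pair_comm w v] at e3
    rw [pair_comm x u, pair_comm x v, pair_comm x w] at e4
    rw [pair_comm z u, pair_comm z v, pair_comm z w, pair_comm z x] at e5
    have e6 := hSe h
    simp only [hP]
    rw [sum_five h]
    linarith
  have hsingle : ∀ i, b {i} + ct G {i} = 0 := by
    intro i
    obtain ⟨v, w, x, z, h⟩ := exists_five' i
    have e1 := hRe h
    have e2 := hRe (perm1 h)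
    have e3 := hRe (perm2 h)
    have e4 := hRe (perm3 h)
    have e5 := hRe (perm4 h)
    rw [pair_comm v i] at e2
    rw [pair_comm w i, pair_comm w v] at e3
    rw [pair_comm x i, pair_comm x v, pair_comm x w] at e4
    rw [pair_comm z i, pair_comm z v, pair_comm z w, pair_comm z x] at e5
    have e6 := hSe h
    have e7 := hPe h
    have e8 : ct G {i} = G i v + G i w + G i x + G i z := by
      change ∑ a ∈ ({i} : Finset (Fin 5)), ∑ j ∈ ({i} : Finset (Fin 5))ᶜ, G a j = _
      rw [sum_singleton, sum_compl_single, sum_five h]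
      ring
    rw [e8]
    simp only [hG, hy]
    linarith
  have hpair : ∀ i j, i ≠ j → 0 ≤ b {i, j} + ct G {i, j} := by
    intro i j hij
    obtain ⟨w, x, z, h⟩ := exists_five hij
    have e1 := hRe h
    have e2 := hRe (perm1 h)
    rw [pair_comm j i] at e2
    have e6 := hSe h
    have e7 := hPe h
    have f1 := hF i j w x z h
    have f2 := hF i j x w z (by
      obtain ⟨h1, h2, h3, h4, h5, h6, h7, h8, h9, h10⟩ := h
      exact ⟨h1, h3, h2, h4, h6, h5, h7, h8.symm, h10, h9⟩)
    have f3 := hF i j z w x (by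
      obtain ⟨h1, h2, h3, h4, h5, h6, h7, h8, h9, h10⟩ := h
      exact ⟨h1, h4, h2, h3, h7, h5, h6, h9.symm, h10.symm, h8⟩)
    have s1 := hsingle i
    have s2 := hsingle j
    rw [ct_pair hGs hij]
    have e : b {i, j} + (ct G {i} + ct G {j} - 2 * G i j) = y i j := by
      have : 2 * G i j = b {i, j} - b {i} - b {j} - y i j := by
        simp only [hG]
        ring
      linarith
    rw [e]
    simp only [hy]
    linarith
  refine ⟨G, hGs, hsingle, fun S => ?_⟩
  have hcases : ∀ S : Finset (Fin 5), S.card ≤ 2 → 0 ≤ b S + ct G S := by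
    intro S hS
    rcases Nat.lt_or_ge S.card 1 with h1 | h1
    · rw [card_eq_zero.1 (show S.card = 0 by omega), h0]
      change 0 ≤ 0 + ∑ i ∈ (∅ : Finset (Fin 5)), ∑ j ∈ (∅ : Finset (Fin 5))ᶜ, G i j
      rw [sum_empty, add_zero]
    · rcases Nat.lt_or_ge S.card 2 with h2 | h2
      · obtain ⟨i, rfl⟩ := card_eq_one.1 (show S.card = 1 by omega)
        exact (hsingle i).ge
      · obtain ⟨i, j, hij, rfl⟩ := card_eq_two.1 (show S.card = 2 by omega)
        exact hpair i j hij
  rcases Nat.lt_or_ge S.card 3 with h1 | h1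
  · exact hcases S (by omega)
  · have h2 := hcases Sᶜ (by rw [card_compl, Fintype.card_fin]; omega)
    rw [hc, ct_compl hGs] at h2
    exact h2

/-- Four different elements. -/
def Four (a b c d : Fin 4) : Prop := a ≠ b ∧ a ≠ c ∧ a ≠ d ∧ b ≠ c ∧ b ≠ d ∧ c ≠ d

instance (a b c d : Fin 4) : Decidable (Four a b c d) := by unfold Four; infer_instance

theorem sum_four {a b c d : Fin 4} (h : Four a b c d) (f : Fin 4 → ℝ) :
    ∑ i, f i = f a + f b + f c + f d := by
  obtain ⟨h1, h2, h3, h4, h5, h6⟩ := h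
  have hu : (univ : Finset (Fin 4)) = {a, b, c, d} := by
    symm
    apply eq_univ_of_card
    rw [Fintype.card_fin, card_insert_of_notMem, card_insert_of_notMem, card_insert_of_notMem,
      card_singleton] <;> simp [*]
  rw [hu, sum_insert (by simp [*]), sum_insert (by simp [*]), sum_insert (by simp [*]),
    sum_singleton]
  ring

/-- Every F-nef divisor on `M̄_{0,4}` is an effective sum of boundary divisors. -/
theorem eff4 {b : Finset (Fin 4) → ℝ} (h0 : b ∅ = 0) (hc : ∀ S, b Sᶜ = b S)
    (hF : 0 ≤ b {0, 1} + b {0, 2} + b {0, 3} - b {0} - b {1} - b {2} - b {3}) :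
    ∃ G : Fin 4 → Fin 4 → ℝ, (∀ i j, G i j = G j i) ∧ (∀ i, b {i} + ct G {i} = 0) ∧
      ∀ S, 0 ≤ b S + ct G S := by
  set F : ℝ := b {0, 1} + b {0, 2} + b {0, 3} - b {0} - b {1} - b {2} - b {3} with hFd
  set G : Fin 4 → Fin 4 → ℝ := fun i j => (b {i, j} - b {i} - b {j} - F / 3) / 2 with hG
  have hGs : ∀ i j, G i j = G j i := by
    intro i j
    simp only [hG]
    rw [pair_comm j i]
    ring
  have c12 : b {1, 2} = b {0, 3} := by
    rw [← hc {0, 3}]; congr 1
  have c13 : b {1, 3} = b {0, 2} := by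
    rw [← hc {0, 2}]; congr 1
  have c23 : b {2, 3} = b {0, 1} := by
    rw [← hc {0, 1}]; congr 1
  have hsingle : ∀ i, b {i} + ct G {i} = 0 := by
    intro i
    have e8 : ct G {i} = ∑ j, G i j - G i i := by
      change ∑ a ∈ ({i} : Finset (Fin 4)), ∑ j ∈ ({i} : Finset (Fin 4))ᶜ, G a j = _
      rw [sum_singleton, sum_compl_single]
    rw [e8, Fin.sum_univ_four]
    simp only [hG]
    fin_cases i
    · simp only [Fin.zero_eta, Fin.mk_one, Fin.reduceFinMk]
      linarith
    · simp only [Fin.zero_eta, Fin.mk_one, Fin.reduceFinMk]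
      rw [pair_comm 1 0]
      linarith
    · simp only [Fin.zero_eta, Fin.mk_one, Fin.reduceFinMk]
      rw [pair_comm 2 0, pair_comm 2 1]
      linarith
    · simp only [Fin.zero_eta, Fin.mk_one, Fin.reduceFinMk]
      rw [pair_comm 3 0, pair_comm 3 1, pair_comm 3 2]
      linarith
  have hpair : ∀ i j, i ≠ j → 0 ≤ b {i, j} + ct G {i, j} := by
    intro i j hij
    have s1 := hsingle i
    have s2 := hsingle j
    rw [ct_pair hGs hij]
    have e : b {i, j} + (ct G {i} + ct G {j} - 2 * G i j) = F / 3 := by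
      have : 2 * G i j = b {i, j} - b {i} - b {j} - F / 3 := by
        simp only [hG]
        ring
      linarith
    rw [e]
    linarith
  refine ⟨G, hGs, hsingle, fun S => ?_⟩
  have hcases : ∀ S : Finset (Fin 4), S.card ≤ 2 → 0 ≤ b S + ct G S := by
    intro S hS
    rcases Nat.lt_or_ge S.card 1 with h1 | h1
    · rw [card_eq_zero.1 (show S.card = 0 by omega), h0]
      change 0 ≤ 0 + ∑ i ∈ (∅ : Finset (Fin 4)), ∑ j ∈ (∅ : Finset (Fin 4))ᶜ, G i j
      rw [sum_empty, add_zero]
    · rcases Nat.lt_or_ge S.card 2 with h2 | h2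
      · obtain ⟨i, rfl⟩ := card_eq_one.1 (show S.card = 1 by omega)
        exact (hsingle i).ge
      · obtain ⟨i, j, hij, rfl⟩ := card_eq_two.1 (show S.card = 2 by omega)
        exact hpair i j hij
  rcases Nat.lt_or_ge S.card 3 with h1 | h1
  · exact hcases S (by omega)
  · have h2 := hcases Sᶜ (by rw [card_compl, Fintype.card_fin]; omega)
    rw [hc, ct_compl hGs] at h2
    exact h2

end Pool.Agent.Run7.h193.FM
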