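import Pool.Agent.Run7.h193.FM7

set_option autoImplicit false

/-!
# Five marks: the four ways to attach a sixth mark to an F-curve
-/

namespace Pool.Agent.Run7.h193.FM

open Finset

/-- The degree of the effective part on the F-curve with the sixth mark attached to the part `A`. -/
noncomputable def EA (z : Finset (Fin 5) → ℝ) (A B C D : Finset (Fin 5)) : ℝ :=
  nn (z (B ∪ C)) + nn (z (B ∪ D)) + nn (z (C ∪ D)) - nn (z B) - nn (z C) - nn (z D) - pp (z A)

theorem EA_swap1 (z : Finset (Fin 5) → ℝ) (A B C D : Finset (Fin 5)) :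
    EA z A B C D = EA z A C B D := by
  unfold EA
  rw [union_comm C B]
  ring

theorem EA_swap2 (z : Finset (Fin 5) → ℝ) (A B C D : Finset (Fin 5)) :
    EA z A B C D = EA z A B D C := by
  unfold EA
  rw [union_comm D C]
  ring

/-- `A`, `B`, `C`, `D` is a partition in nonempty parts. -/
def Part4 (A B C D : Finset (Fin 5)) : Prop :=
  A.Nonempty ∧ B.Nonempty ∧ C.Nonempty ∧ D.Nonempty ∧ Disjoint A B ∧ Disjoint A C ∧ Disjoint A D ∧
    Disjoint B C ∧ Disjoint B D ∧ Disjoint C D ∧ A ∪ B ∪ C ∪ D = univ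

/-- One of the four numbers is not positive. -/
def Some4 (z : Finset (Fin 5) → ℝ) (A B C D : Finset (Fin 5)) : Prop :=
  EA z A B C D ≤ 0 ∨ EA z B A C D ≤ 0 ∨ EA z C A B D ≤ 0 ∨ EA z D A B C ≤ 0

theorem nn_two (t : ℝ) : nn (2 * t) = 2 * nn t := by
  rcases le_total 0 t with h | h
  · rw [nn_of_nonneg h, nn_of_nonneg (by linarith)]
    ring
  · rw [nn_of_nonpos h, nn_of_nonpos (by linarith)]
    ring

theorem pp_two (t : ℝ) : pp (2 * t) = 2 * pp t := by
  rcases le_total 0 t with h | h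
  · rw [pp_of_nonneg h, pp_of_nonneg (by linarith)]
  · rw [pp_of_nonpos h, pp_of_nonpos (by linarith)]
    ring

section

variable {x : Fin 5 → Fin 5 → ℝ} {p : Fin 5 → ℝ} {z : Finset (Fin 5) → ℝ}

theorem esum0 (hp : ∀ i, 0 ≤ p i) (hG : AllGood x p) (h1 : ∀ i, z {i} = 2 * p i)
    (h2 : ∀ i j, i ≠ j → z {i, j} = 2 * (p i + p j - x i j)) (hc : ∀ T, z Tᶜ = - z T)
    {a b c d e : Fin 5} (hf : Five a b c d e) : Some4 z {a, b} {c} {d} {e} := by
  have g := hG a b c d e hf
  have hf' := hf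
  obtain ⟨k1, k2, k3, k4, k5, k6, k7, k8, k9, k10⟩ := hf
  have s1 : ∀ {a b c d e : Fin 5}, Five a b c d e →
      ({a, b} ∪ {c} : Finset (Fin 5)) = ({d, e} : Finset (Fin 5))ᶜ := by decide +kernel
  have e1 := s1 hf'
  have e2 : ({a, b} ∪ {d} : Finset (Fin 5)) = ({c, e} : Finset (Fin 5))ᶜ :=
    s1 ⟨k1, k3, k2, k4, k6, k5, k7, k8.symm, k10, k9⟩
  have e3 : ({a, b} ∪ {e} : Finset (Fin 5)) = ({c, d} : Finset (Fin 5))ᶜ :=
    s1 ⟨k1, k4, k2, k3, k7, k5, k6, k9.symm, k10.symm, k8⟩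
  have u1 : ({c} ∪ {d} : Finset (Fin 5)) = {c, d} := by rw [insert_eq]
  have u2 : ({c} ∪ {e} : Finset (Fin 5)) = {c, e} := by rw [insert_eq]
  have u3 : ({d} ∪ {e} : Finset (Fin 5)) = {d, e} := by rw [insert_eq]
  have n0 : ∀ i, nn (z {i}) = 0 := fun i => by
    rw [h1, nn_of_nonneg]
    have := hp i
    linarith
  have p0 : ∀ i, pp (z {i}) = 2 * p i := fun i => by
    rw [h1, pp_of_nonneg]
    have := hp i
    linarith
  unfold GG G at g
  unfold Some4 EA
  rw [e1, e2, e3, u1, u2, u3, hc, hc, hc, nn_neg, nn_neg, nn_neg, n0, n0, n0, p0, p0, p0,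
    h2 a b k1, h2 c d k8, h2 c e k9, h2 d e k10]
  simp only [nn_two, pp_two]
  rcases g with g | g | g | g
  · left; linarith
  · right; left; linarith
  · right; right; left; linarith
  · right; right; right; linarith

theorem Some4.perm1 {A B C D : Finset (Fin 5)} (h : Some4 z A B C D) : Some4 z B A C D := by
  unfold Some4 at *
  rw [EA_swap1 z C B A D, EA_swap1 z D B A C]
  tauto

theorem Some4.perm2 {A B C D : Finset (Fin 5)} (h : Some4 z A B C D) : Some4 z A C B D := by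
  unfold Some4 at *
  rw [EA_swap1 z A C B D, EA_swap2 z D A C B]
  tauto

theorem Some4.perm3 {A B C D : Finset (Fin 5)} (h : Some4 z A B C D) : Some4 z A B D C := by
  unfold Some4 at *
  rw [EA_swap2 z A B D C, EA_swap2 z B A D C]
  tauto

theorem esum (hp : ∀ i, 0 ≤ p i) (hG : AllGood x p) (h1 : ∀ i, z {i} = 2 * p i)
    (h2 : ∀ i j, i ≠ j → z {i, j} = 2 * (p i + p j - x i j)) (hc : ∀ T, z Tᶜ = - z T)
    {A B C D : Finset (Fin 5)} (hP : Part4 A B C D) : Some4 z A B C D := by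
  obtain ⟨nA, nB, nC, nD, d1, d2, d3, d4, d5, d6, hu⟩ := hP
  have hcard : A.card + B.card + C.card + D.card = 5 := by
    have := congrArg card hu
    rw [card_univ, Fintype.card_fin, card_union_of_disjoint (disjoint_union_left.2
      ⟨disjoint_union_left.2 ⟨d3, d5⟩, d6⟩), card_union_of_disjoint (disjoint_union_left.2
      ⟨d2, d4⟩), card_union_of_disjoint d1] at this
    exact this
  have cA := card_pos.2 nA
  have cB := card_pos.2 nB
  have cC := card_pos.2 nC
  have cD := card_pos.2 nD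
  have key : ∀ A B C D : Finset (Fin 5), Disjoint A B → Disjoint A C → Disjoint A D →
      Disjoint B C → Disjoint B D → Disjoint C D → A.card = 2 → B.card = 1 → C.card = 1 →
      D.card = 1 → Some4 z A B C D := by
    intro A B C D d1 d2 d3 d4 d5 d6 cA cB cC cD
    obtain ⟨a, b, hab, rfl⟩ := card_eq_two.1 cA
    obtain ⟨c, rfl⟩ := card_eq_one.1 cB
    obtain ⟨d, rfl⟩ := card_eq_one.1 cC
    obtain ⟨e, rfl⟩ := card_eq_one.1 cD
    simp only [disjoint_singleton_right, mem_insert, mem_singleton, not_or] at d1 d2 d3 d4 d5 d6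
    exact esum0 hp hG h1 h2 hc ⟨hab, Ne.symm d1.1, Ne.symm d2.1, Ne.symm d3.1, Ne.symm d1.2,
      Ne.symm d2.2, Ne.symm d3.2, Ne.symm d4, Ne.symm d5, Ne.symm d6⟩
  by_cases h2A : A.card = 2
  · exact key A B C D d1 d2 d3 d4 d5 d6 h2A (by omega) (by omega) (by omega)
  by_cases h2B : B.card = 2
  · exact (key B A C D d1.symm d4 d5 d2 d3 d6 h2B (by omega) (by omega) (by omega)).perm1
  by_cases h2C : C.card = 2
  · exact (key C A B D d2.symm d4.symm d6 d1 d3 d5 h2C (by omega) (by omega) (by omega)).perm1.perm2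
  · exact (key D A B C d3.symm d5.symm d6.symm d1 d2 d4 (by omega) (by omega) (by omega)
      (by omega)).perm1.perm2.perm3

end

end Pool.Agent.Run7.h193.FM
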