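import Pool.Agent.Run7.h193.FM8

set_option autoImplicit false

/-!
# Divisors of degree zero on the F-curves with two parts disjoint from five marks
-/

namespace Pool.Agent.Run7.h193.FM

open Finset Pool.Agent.NH37.FC Pool.Agent.NH37.SL Pool.Agent.NH37.MF

variable {q : ℕ}

theorem pp_eq (t : ℝ) : pp t = t + nn t := by
  rcases le_total 0 t with h | h
  · rw [pp_of_nonneg h, nn_of_nonneg h, add_zero]
  · rw [pp_of_nonpos h, nn_of_nonpos h]
    ring

/-- The difference of the values with and without the mark `i`. -/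
def U (g : Finset (Fin q) → ℝ) (h : Fin 5 ↪ Fin q) (i : Fin q) (T : Finset (Fin 5)) : ℝ :=
  g (insert i (T.map h)) - g (T.map h)

section

variable {g : Finset (Fin q) → ℝ} {h : Fin 5 ↪ Fin q}

theorem mem_H (j : Fin 5) : h j ∈ (univ : Finset (Fin 5)).map h := mem_map_of_mem h (mem_univ j)

theorem ne_H {i : Fin q} (hi : i ∉ (univ : Finset (Fin 5)).map h) (j : Fin 5) : i ≠ h j :=
  fun e => hi (e ▸ mem_H j)

theorem map_sub (T : Finset (Fin 5)) : T.map h ⊆ (univ : Finset (Fin 5)).map h :=
  map_subset_map.2 (subset_univ T)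

theorem U_empty (N : Norm g (univ.map h)) (i : Fin q) : U g h i ∅ = g {i} := by
  unfold U
  rw [map_empty, N.empty, insert_empty_eq, sub_zero]

theorem U_single (N : Norm g (univ.map h)) {i : Fin q} (hi : i ∉ (univ : Finset (Fin 5)).map h)
    (j : Fin 5) : U g h i {j} = g {i} := by
  unfold U
  rw [map_singleton, N.pair i (h j) (ne_H hi j)]
  ring

theorem map_compl_eq (T : Finset (Fin 5)) :
    (Tᶜ.map h)ᶜ = T.map h ∪ ((univ : Finset (Fin 5)).map h)ᶜ := by
  ext x
  simp only [mem_compl, mem_map, mem_union, not_exists, not_and, mem_univ, true_and]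
  constructor
  · intro hx
    by_cases hx' : ∃ j, h j = x
    · obtain ⟨j, rfl⟩ := hx'
      left
      exact ⟨j, by_contra fun hn => hx j hn rfl, rfl⟩
    · right
      exact not_exists.1 hx'
  · rintro (⟨j, hj, rfl⟩ | hx) l hl he
    · exact hl (h.injective he ▸ hj)
    · exact hx l he

theorem mixf (N : Norm g (univ.map h)) (T : Finset (Fin 5)) (Q : Fin q → Prop) [DecidablePred Q] :
    g (T.map h ∪ (((univ : Finset (Fin 5)).map h)ᶜ).filter Q) = g (T.map h) +
      ∑ i ∈ ((univ : Finset (Fin 5)).map h)ᶜ, if Q i then U g h i T else 0 := by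
  rw [N.mix (map_sub T) (disjoint_compl_left.mono_left (filter_subset _ _)), sum_filter]
  rfl

theorem U_compl (N : Norm g (univ.map h)) {i : Fin q} (hi : i ∉ (univ : Finset (Fin 5)).map h)
    (T : Finset (Fin 5)) : U g h i Tᶜ = - U g h i T := by
  have hiL : i ∈ ((univ : Finset (Fin 5)).map h)ᶜ := mem_compl.2 hi
  have e1 := N.mix (map_sub T) (X := ((univ : Finset (Fin 5)).map h)ᶜ) disjoint_compl_left
  have e2 := N.mix (map_sub T) (X := (((univ : Finset (Fin 5)).map h)ᶜ).erase i)
    (disjoint_compl_left.mono_left (erase_subset _ _))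
  have e3 := add_sum_erase _ (fun i => g (insert i (T.map h)) - g (T.map h)) hiL
  rw [← map_compl_eq, N.compl] at e1
  have e4 : T.map h ∪ (((univ : Finset (Fin 5)).map h)ᶜ).erase i = (insert i (Tᶜ.map h))ᶜ := by
    rw [← insert_erase hiL] at *
    ext x
    have hx := congrArg (fun S => x ∈ S) (map_compl_eq (h := h) T)
    simp only [eq_iff_iff, mem_compl, mem_union] at hx
    simp only [mem_union, mem_compl, mem_insert, mem_erase, not_or]
    have hiT : i ∉ T.map h := fun h' => hi (map_sub T h')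
    constructor
    · rintro (h1 | ⟨h1, h2⟩)
      · exact ⟨fun e => hiT (e ▸ h1), hx.2 (Or.inl h1)⟩
      · refine ⟨h1, hx.2 (Or.inr ?_)⟩
        simpa [h1] using h2
    · rintro ⟨h1, h2⟩
      rcases hx.1 h2 with h3 | h3
      · exact Or.inl h3
      · right
        exact ⟨h1, by simpa [h1] using h3⟩
  rw [e4, N.compl] at e2
  unfold U
  linarith

/-- The weights on the edges given by the degrees on the F-curves on which `i` moves. -/
noncomputable def xx (g : Finset (Fin q) → ℝ) (h : Fin 5 ↪ Fin q) (i : Fin q) (j l : Fin 5) : ℝ :=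
  (g {i} - U g h i {j, l}) / 2

theorem wx (N : Norm g (univ.map h)) {i : Fin q} (hi : i ∉ (univ : Finset (Fin 5)).map h) :
    WX (xx g h i) (g {i}) := by
  refine ⟨fun j l => ?_, fun j l hjl => ?_, fun a b c d e hf => ?_⟩
  · unfold xx
    rw [pair_comm]
  · have hjl' : h j ≠ h l := fun e => hjl (h.injective e)
    have h1 := N.nonneg {i} {h j} {h l} (disjoint_singleton.2 (ne_H hi j))
      (disjoint_singleton.2 (ne_H hi l)) (disjoint_singleton.2 hjl')
    unfold fdeg at h1
    have e1 : ({i} ∪ {h j} ∪ {h l} : Finset (Fin q)) = insert i {h j, h l} := by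
      rw [← insert_eq, insert_union, ← insert_eq]
    have e2 : ({j, l} : Finset (Fin 5)).map h = {h j, h l} := by
      rw [map_insert, map_singleton]
    rw [e1, ← insert_eq, ← insert_eq, ← insert_eq, N.pair i (h j) (ne_H hi j),
      N.pair i (h l) (ne_H hi l), N.pair (h j) (h l) hjl'] at h1
    unfold xx U
    rw [e2, N.pair (h j) (h l) hjl']
    linarith
  · have hd : Disjoint ({a, b} : Finset (Fin 5)) {c, d} := by
      obtain ⟨h1, h2, h3, h4, h5, h6, h7, h8, h9, h10⟩ := hf
      simp only [disjoint_insert_left, disjoint_singleton_left, mem_insert, mem_singleton, not_or]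
      exact ⟨⟨h2, h3⟩, ⟨h5, h6⟩⟩
    have hni : ∀ T : Finset (Fin 5), i ∉ T.map h := fun T h' => hi (map_sub T h')
    have h1 := N.nonneg {i} (({a, b} : Finset (Fin 5)).map h) (({c, d} : Finset (Fin 5)).map h)
      (disjoint_singleton_left.2 (hni _)) (disjoint_singleton_left.2 (hni _))
      ((disjoint_map h).2 hd)
    have e0' : ∀ {a b c d e : Fin 5}, Five a b c d e →
        ({a, b} ∪ {c, d} : Finset (Fin 5)) = ({e} : Finset (Fin 5))ᶜ := by decide +kernel
    have e0 := e0' hf
    unfold fdeg at h1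
    rw [← insert_eq, ← insert_eq, insert_union, ← map_union, e0] at h1
    have h2 := U_compl N hi {e}
    rw [U_single N hi e] at h2
    unfold U at h2
    unfold xx U
    linarith

/-- The choice of the weights of the vertices. -/
theorem exists_P (N : Norm g (univ.map h)) : ∃ P : Fin q → Fin 5 → ℝ,
    ∀ i, i ∉ (univ : Finset (Fin 5)).map h →
      (∀ j, 0 ≤ P i j) ∧ ∑ j, P i j = g {i} ∧ AllGood (xx g h i) (P i) := by
  have := fun i (hi : i ∉ (univ : Finset (Fin 5)).map h) => sol (wx N hi)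
  unfold Sol at this
  choose! P hP using this
  exact ⟨P, hP⟩

/-- The coefficients of the sixth mark `i`. -/
noncomputable def Z (g : Finset (Fin q) → ℝ) (h : Fin 5 ↪ Fin q) (P : Fin q → Fin 5 → ℝ)
    (i : Fin q) (T : Finset (Fin 5)) : ℝ := U g h i T - g {i} + 2 * ∑ j ∈ T, P i j

variable {P : Fin q → Fin 5 → ℝ}

theorem Z_empty (N : Norm g (univ.map h)) (i : Fin q) : Z g h P i ∅ = 0 := by
  unfold Z
  rw [U_empty N, sum_empty]
  ring

theorem Z_single (N : Norm g (univ.map h)) {i : Fin q} (hi : i ∉ (univ : Finset (Fin 5)).map h)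
    (j : Fin 5) : Z g h P i {j} = 2 * P i j := by
  unfold Z
  rw [U_single N hi, sum_singleton]
  ring

theorem Z_pair {i : Fin q} {j l : Fin 5} (hjl : j ≠ l) :
    Z g h P i {j, l} = 2 * (P i j + P i l - xx g h i j l) := by
  unfold Z xx
  rw [sum_pair hjl]
  ring

theorem Z_compl (N : Norm g (univ.map h)) {i : Fin q} (hi : i ∉ (univ : Finset (Fin 5)).map h)
    (hs : ∑ j, P i j = g {i}) (T : Finset (Fin 5)) : Z g h P i Tᶜ = - Z g h P i T := by
  unfold Z
  rw [U_compl N hi]
  have := sum_add_sum_compl T (P i)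
  linarith

/-- The coefficients of the divisor on `M̄_{0,5}`. -/
noncomputable def BB (g : Finset (Fin q) → ℝ) (h : Fin 5 ↪ Fin q) (P : Fin q → Fin 5 → ℝ)
    (T : Finset (Fin 5)) : ℝ :=
  g (T.map h) - ∑ i ∈ ((univ : Finset (Fin 5)).map h)ᶜ, (∑ j ∈ T, P i j + nn (Z g h P i T))

theorem BB_empty (N : Norm g (univ.map h)) : BB g h P ∅ = 0 := by
  unfold BB
  rw [map_empty, N.empty, sum_eq_zero, sub_zero]
  intro i _
  rw [sum_empty, Z_empty N, nn_of_nonneg le_rfl, add_zero]

theorem BB_compl (N : Norm g (univ.map h))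
    (hP : ∀ i, i ∉ (univ : Finset (Fin 5)).map h → ∑ j, P i j = g {i}) (T : Finset (Fin 5)) :
    BB g h P Tᶜ = BB g h P T := by
  unfold BB
  have e1 : g (Tᶜ.map h) = g (T.map h) + ∑ i ∈ ((univ : Finset (Fin 5)).map h)ᶜ, U g h i T := by
    rw [← N.compl, map_compl_eq, N.mix (map_sub T) disjoint_compl_left]
    rfl
  rw [e1, add_sub_assoc, ← sum_sub_distrib, sub_eq_add_neg, ← sum_neg_distrib]
  congr 1
  refine sum_congr rfl fun i hi => ?_
  rw [mem_compl] at hi
  rw [Z_compl N hi (hP i hi), nn_neg, pp_eq]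
  have := sum_add_sum_compl T (P i)
  have h2 := hP i hi
  unfold Z
  linarith

end

end Pool.Agent.Run7.h193.FM
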