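import Pool.Agent.NH46.F8.Stmt
import Pool.Agent.NH37.MF.Defs
import Pool.Agent.NH37.SL.Reduce

set_option autoImplicit false

/-!
# Merging two interchangeable marks
-/

namespace Pool.Agent.Run7.h193.TI

open Finset Pool.Agent.NH37.FC Pool.Agent.NH37.SL Pool.Agent.NH37.MF Pool.Agent.NH46.F8
open Pool.Agent.NH37.AF (cut)

variable {n q : ℕ}

/-- The gauge transported by a map. -/
def push (κ : Fin q → Fin n) (G : Fin q → Fin q → ℝ) (x y : Fin n) : ℝ :=
  ∑ l, ∑ m, if κ l = x ∧ κ m = y then G l m else 0

theorem push_symm (κ : Fin q → Fin n) {G : Fin q → Fin q → ℝ} (hG : ∀ l m, G l m = G m l)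
    (x y : Fin n) : push κ G x y = push κ G y x := by
  unfold push
  rw [sum_comm]
  refine sum_congr rfl fun m _ => sum_congr rfl fun l _ => ?_
  rw [hG l m]
  exact if_congr and_comm rfl rfl

theorem cut_push (κ : Fin q → Fin n) (G : Fin q → Fin q → ℝ) (S : Finset (Fin n)) :
    cut (push κ G) S = cut G (univ.filter fun l => κ l ∈ S) := by
  have inner : ∀ l m, ∑ x ∈ S, ∑ y ∈ Sᶜ, (if κ l = x ∧ κ m = y then G l m else 0) =
      if κ l ∈ S ∧ κ m ∈ Sᶜ then G l m else 0 := by
    intro l m
    by_cases h : κ l ∈ S ∧ κ m ∈ Sᶜ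
    · rw [if_pos h, sum_eq_single (κ l), sum_eq_single (κ m), if_pos ⟨rfl, rfl⟩]
      · intro y _ hy
        exact if_neg fun h' => hy h'.2.symm
      · intro h'
        exact absurd h.2 h'
      · intro x _ hx
        exact sum_eq_zero fun y _ => if_neg fun h' => hx h'.1.symm
      · intro h'
        exact absurd h.1 h'
    · rw [if_neg h]
      refine sum_eq_zero fun x hx => sum_eq_zero fun y hy => if_neg ?_
      intro h'
      exact h ⟨by rw [h'.1]; exact hx, by rw [h'.2]; exact hy⟩
  have e1 : cut (push κ G) S =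
      ∑ l, ∑ m, if κ l ∈ S ∧ κ m ∈ Sᶜ then G l m else 0 := by
    unfold cut push
    calc ∑ x ∈ S, ∑ y ∈ Sᶜ, ∑ l, ∑ m, (if κ l = x ∧ κ m = y then G l m else 0)
        = ∑ x ∈ S, ∑ l, ∑ y ∈ Sᶜ, ∑ m, (if κ l = x ∧ κ m = y then G l m else 0) :=
          sum_congr rfl fun x _ => sum_comm
      _ = ∑ l, ∑ x ∈ S, ∑ y ∈ Sᶜ, ∑ m, (if κ l = x ∧ κ m = y then G l m else 0) := sum_comm
      _ = ∑ l, ∑ x ∈ S, ∑ m, ∑ y ∈ Sᶜ, (if κ l = x ∧ κ m = y then G l m else 0) :=
          sum_congr rfl fun l _ => sum_congr rfl fun x _ => sum_comm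
      _ = ∑ l, ∑ m, ∑ x ∈ S, ∑ y ∈ Sᶜ, (if κ l = x ∧ κ m = y then G l m else 0) :=
          sum_congr rfl fun l _ => sum_comm
      _ = _ := sum_congr rfl fun l _ => sum_congr rfl fun m _ => inner l m
  rw [e1]
  unfold cut
  rw [sum_filter, compl_filter]
  refine sum_congr rfl fun l _ => ?_
  rw [sum_filter]
  by_cases hl : κ l ∈ S
  · rw [if_pos hl]
    refine sum_congr rfl fun m _ => if_congr ?_ rfl rfl
    rw [mem_compl]
    exact ⟨fun h => h.2, fun h => ⟨hl, h⟩⟩
  · rw [if_neg hl]
    exact sum_eq_zero fun m _ => if_neg fun h => hl h.1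

/-- The marks after `j` is moved to `i`. -/
def mg (i j : Fin (q + 1)) (l : Fin q) : Finset (Fin (q + 1)) :=
  univ.filter fun x => x = j.succAbove l ∨ (j.succAbove l = i ∧ x = j)

theorem mem_mg {i j : Fin (q + 1)} {l : Fin q} {x : Fin (q + 1)} :
    x ∈ mg i j l ↔ x = j.succAbove l ∨ (j.succAbove l = i ∧ x = j) := by
  unfold mg
  rw [mem_filter]
  exact ⟨fun h => h.2, fun h => ⟨mem_univ _, h⟩⟩

theorem mem_mgU {i j : Fin (q + 1)} {T : Finset (Fin q)} {x : Fin (q + 1)} :
    x ∈ T.biUnion (mg i j) ↔
      (∃ l ∈ T, x = j.succAbove l) ∨ (x = j ∧ ∃ l ∈ T, j.succAbove l = i) := by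
  rw [mem_biUnion]
  constructor
  · rintro ⟨l, hl, h⟩
    rcases mem_mg.1 h with h | h
    · exact Or.inl ⟨l, hl, h⟩
    · exact Or.inr ⟨h.2, l, hl, h.1⟩
  · rintro (⟨l, hl, h⟩ | ⟨h, l, hl, h'⟩)
    · exact ⟨l, hl, mem_mg.2 (Or.inl h)⟩
    · exact ⟨l, hl, mem_mg.2 (Or.inr ⟨h', h⟩)⟩

theorem mg_weak {i j : Fin (q + 1)} (hij : i ≠ j) : IsWeak (mg i j) := by
  refine ⟨fun l m hlm => ?_, ?_⟩
  · rw [disjoint_left]
    intro x h1 h2
    rcases mem_mg.1 h1 with h1 | h1 <;> rcases mem_mg.1 h2 with h2 | h2
    · exact hlm (Fin.succAbove_right_injective (h1.symm.trans h2))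
    · exact Fin.succAbove_ne j l (h1.symm.trans h2.2)
    · exact Fin.succAbove_ne j m (h2.symm.trans h1.2)
    · exact hlm (Fin.succAbove_right_injective (h1.1.trans h2.1.symm))
  · ext x
    rw [mem_mgU]
    refine ⟨fun _ => mem_univ x, fun _ => ?_⟩
    by_cases hx : x = j
    · obtain ⟨l, hl⟩ := Fin.exists_succAbove_eq hij
      exact Or.inr ⟨hx, l, mem_univ l, hl⟩
    · obtain ⟨l, hl⟩ := Fin.exists_succAbove_eq hx
      exact Or.inl ⟨l, mem_univ l, hl.symm⟩

/-- The other section. -/
def sec (i j : Fin (q + 1)) (l : Fin q) : Fin (q + 1) :=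
  if j.succAbove l = i then j else j.succAbove l

theorem sec_inj {i j : Fin (q + 1)} : Function.Injective (sec (q := q) i j) := by
  intro l m h
  unfold sec at h
  split_ifs at h with h1 h2 h2
  · exact Fin.succAbove_right_injective (h1.trans h2.symm)
  · exact absurd h.symm (Fin.succAbove_ne j m)
  · exact absurd h (Fin.succAbove_ne j l)
  · exact Fin.succAbove_right_injective h

theorem pre1 {i j : Fin (q + 1)} (hij : i ≠ j) (S : Finset (Fin (q + 1))) :
    (univ.filter fun l => j.succAbove l ∈ S).biUnion (mg i j) =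
      if i ∈ S then insert j S else S.erase j := by
  ext x
  rw [mem_mgU]
  simp only [mem_filter, mem_univ, true_and]
  by_cases hx : x = j
  · subst hx
    have h1 : ¬ ∃ l, x.succAbove l ∈ S ∧ x = x.succAbove l := by
      rintro ⟨l, _, h⟩
      exact Fin.succAbove_ne x l h.symm
    have h2 : (∃ l, x.succAbove l ∈ S ∧ x.succAbove l = i) ↔ i ∈ S := by
      constructor
      · rintro ⟨l, h, h'⟩
        rw [← h']
        exact h
      · intro h
        obtain ⟨l, hl⟩ := Fin.exists_succAbove_eq hij
        exact ⟨l, by rw [hl]; exact h, hl⟩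
    split_ifs with h
    · simp only [h1, h2, h, mem_insert, true_or, false_or, and_self]
    · simp only [h1, h2, h, mem_erase, ne_eq, not_true_eq_false, and_false, false_and, or_self]
  · have h1 : (∃ l, j.succAbove l ∈ S ∧ x = j.succAbove l) ↔ x ∈ S := by
      constructor
      · rintro ⟨l, h, h'⟩
        rw [h']
        exact h
      · intro h
        obtain ⟨l, hl⟩ := Fin.exists_succAbove_eq hx
        exact ⟨l, by rw [hl]; exact h, hl.symm⟩
    rw [h1]
    split_ifs with h
    · rw [mem_insert]
      tauto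
    · rw [mem_erase]
      tauto

theorem pre2 {i j : Fin (q + 1)} (hij : i ≠ j) (S : Finset (Fin (q + 1))) :
    (univ.filter fun l => sec i j l ∈ S).biUnion (mg i j) =
      if j ∈ S then insert i S else S.erase i := by
  ext x
  rw [mem_mgU]
  simp only [mem_filter, mem_univ, true_and]
  by_cases hx : x = j
  · subst hx
    have h1 : ¬ ∃ l, sec i x l ∈ S ∧ x = x.succAbove l := by
      rintro ⟨l, _, h⟩
      exact Fin.succAbove_ne x l h.symm
    have h2 : (∃ l, sec i x l ∈ S ∧ x.succAbove l = i) ↔ x ∈ S := by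
      constructor
      · rintro ⟨l, h, h'⟩
        unfold sec at h
        rwa [if_pos h'] at h
      · intro h
        obtain ⟨l, hl⟩ := Fin.exists_succAbove_eq hij
        refine ⟨l, ?_, hl⟩
        unfold sec
        rwa [if_pos hl]
    split_ifs with h
    · simp only [h1, h2, h, mem_insert, or_true, false_or, and_self]
    · simp only [h1, h2, h, mem_erase, and_false, false_or]
  · have h1 : (∃ l, sec i j l ∈ S ∧ x = j.succAbove l) ↔ (x = i ∧ j ∈ S) ∨ (x ≠ i ∧ x ∈ S) := by
      constructor
      · rintro ⟨l, h, h'⟩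
        unfold sec at h
        split_ifs at h with h2
        · exact Or.inl ⟨h'.trans h2, h⟩
        · exact Or.inr ⟨fun h3 => h2 (h'.symm.trans h3), by rw [h']; exact h⟩
      · intro h
        obtain ⟨l, hl⟩ := Fin.exists_succAbove_eq hx
        refine ⟨l, ?_, hl.symm⟩
        unfold sec
        rcases h with h | h
        · rw [if_pos (hl.trans h.1)]
          exact h.2
        · rw [if_neg (fun h3 => h.1 (hl.symm.trans h3)), hl]
          exact h.2
    rw [h1]
    split_ifs with h
    · rw [mem_insert]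
      tauto
    · rw [mem_erase]
      tauto

/-- The correction. -/
def pr (i j : Fin n) (e : ℝ) (x y : Fin n) : ℝ :=
  if (x = i ∧ y = j) ∨ (x = j ∧ y = i) then e else 0

theorem cut_pr {i j : Fin n} (hij : i ≠ j) (e : ℝ) (S : Finset (Fin n)) :
    cut (pr i j e) S = if (i ∈ S ∧ j ∉ S) ∨ (j ∈ S ∧ i ∉ S) then e else 0 := by
  unfold cut pr
  by_cases h1 : i ∈ S ∧ j ∉ S
  · rw [if_pos (Or.inl h1), sum_eq_single i, sum_eq_single j, if_pos (Or.inl ⟨rfl, rfl⟩)]
    · intro y _ hy
      exact if_neg fun h => h.elim (fun h => hy h.2) fun h => hij h.1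
    · intro h
      exact absurd (mem_compl.2 h1.2) h
    · intro x hx hxi
      refine sum_eq_zero fun y _ => if_neg fun h => h.elim (fun h => hxi h.1) fun h => ?_
      exact h1.2 (h.1 ▸ hx)
    · intro h
      exact absurd h1.1 h
  · by_cases h2 : j ∈ S ∧ i ∉ S
    · rw [if_pos (Or.inr h2), sum_eq_single j, sum_eq_single i, if_pos (Or.inr ⟨rfl, rfl⟩)]
      · intro y _ hy
        exact if_neg fun h => h.elim (fun h => hij h.1.symm) fun h => hy h.2
      · intro h
        exact absurd (mem_compl.2 h2.2) h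
      · intro x hx hxi
        refine sum_eq_zero fun y _ => if_neg fun h => h.elim (fun h => ?_) fun h => hxi h.1
        exact h2.2 (h.1 ▸ hx)
      · intro h
        exact absurd h2.1 h
    · rw [if_neg (fun h => h.elim h1 h2)]
      refine sum_eq_zero fun x hx => sum_eq_zero fun y hy => if_neg fun h => ?_
      rw [mem_compl] at hy
      rcases h with h | h
      · exact h1 ⟨h.1 ▸ hx, h.2 ▸ hy⟩
      · exact h2 ⟨h.1 ▸ hx, h.2 ▸ hy⟩

theorem cut_add3 (A B C : Fin n → Fin n → ℝ) (S : Finset (Fin n)) :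
    cut (fun x y => A x y + (B x y + C x y) / 2) S = cut A S + (cut B S + cut C S) / 2 := by
  unfold cut
  rw [← sum_add_distrib, sum_div, ← sum_add_distrib]
  refine sum_congr rfl fun x _ => ?_
  rw [← sum_add_distrib, sum_div, ← sum_add_distrib]

/-- If `i` and `j` are interchangeable, an F-nef divisor is effective boundary if its restriction
to `δ_{i, j}` is. -/
theorem merge {c : Finset (Fin (q + 1)) → ℝ} (hc : IsDivisor c) (hF : FNef c)
    {i j : Fin (q + 1)} (hij : i ≠ j)
    (hs : ∀ T, i ∉ T → j ∉ T → c (insert i T) = c (insert j T))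
    (h : Eff fun T => c (T.biUnion (mg i j))) : Eff c := by
  obtain ⟨G, hG, hG1, hG2⟩ := h
  have hd0 : c (univ.filter fun l => l ∈ (∅ : Finset (Fin (q + 1)))) = 0 := by
    rw [show (univ.filter fun l => l ∈ (∅ : Finset (Fin (q + 1)))) = ∅ by ext; simp]
    exact hc.1
  -- the two pullbacks
  have p1 : ∀ S, 0 ≤ c (if i ∈ S then insert j S else S.erase j) + cut (push j.succAbove G) S := by
    intro S
    rw [cut_push, ← pre1 hij]
    exact hG2 _
  have p2 : ∀ S, 0 ≤ c (if j ∈ S then insert i S else S.erase i) + cut (push (sec i j) G) S := by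
    intro S
    rw [cut_push, ← pre2 hij]
    exact hG2 _
  have emp : ∀ κ : Fin q → Fin (q + 1), ∀ x, (¬ ∃ l, κ l = x) →
      c ((univ.filter fun l => κ l ∈ ({x} : Finset (Fin (q + 1)))).biUnion (mg i j)) +
        cut G (univ.filter fun l => κ l ∈ ({x} : Finset (Fin (q + 1)))) = 0 := by
    intro κ x hx
    have e : (univ.filter fun l => κ l ∈ ({x} : Finset (Fin (q + 1)))) = ∅ := by
      rw [filter_eq_empty_iff]
      intro l _ h
      exact hx ⟨l, mem_singleton.1 h⟩
    rw [e, biUnion_empty, hc.1]
    unfold cut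
    rw [sum_empty, add_zero]
  have sing : ∀ κ : Fin q → Fin (q + 1), Function.Injective κ → ∀ x,
      c ((univ.filter fun l => κ l ∈ ({x} : Finset (Fin (q + 1)))).biUnion (mg i j)) +
        cut G (univ.filter fun l => κ l ∈ ({x} : Finset (Fin (q + 1)))) = 0 := by
    intro κ hκ x
    by_cases hx : ∃ l, κ l = x
    · obtain ⟨l, hl⟩ := hx
      have e : (univ.filter fun l => κ l ∈ ({x} : Finset (Fin (q + 1)))) = {l} := by
        ext m
        rw [mem_filter, mem_singleton, mem_singleton]
        constructor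
        · intro h
          exact hκ (h.2.trans hl.symm)
        · intro h
          rw [h]
          exact ⟨mem_univ l, hl⟩
      rw [e]
      exact hG1 l
    · exact emp κ x hx
  have q1 : ∀ x, c (if i ∈ ({x} : Finset (Fin (q + 1))) then insert j {x} else ({x} : Finset _).erase j)
      + cut (push j.succAbove G) {x} = 0 := by
    intro x
    rw [cut_push, ← pre1 hij]
    exact sing _ Fin.succAbove_right_injective x
  have q2 : ∀ x, c (if j ∈ ({x} : Finset (Fin (q + 1))) then insert i {x} else ({x} : Finset _).erase i)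
      + cut (push (sec i j) G) {x} = 0 := by
    intro x
    rw [cut_push, ← pre2 hij]
    exact sing _ sec_inj x
  -- the rest
  have key : ∀ S, 0 ≤ c S - (c (if i ∈ S then insert j S else S.erase j)
      + c (if j ∈ S then insert i S else S.erase i)) / 2
      + cut (pr i j (c {i, j} / 2 - c {i})) S := by
    intro S
    rw [cut_pr hij]
    have hone : ∀ T, i ∉ T → j ∉ T → 0 ≤ c (insert i T) - (c (insert j (insert i T)) + c T) / 2
        + (c {i, j} / 2 - c {i}) := by
      intro T h1 h2
      have hF' := fdeg_nonneg hc hF (A := {i}) (B := {j}) (C := T)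
        (disjoint_singleton.2 hij) (disjoint_singleton_left.2 h1) (disjoint_singleton_left.2 h2)
      unfold fdeg at hF'
      have e1 : ({i} : Finset (Fin (q + 1))) ∪ {j} = {i, j} := by rw [insert_eq]
      have e2 : ({i} : Finset (Fin (q + 1))) ∪ T = insert i T := by rw [insert_eq]
      have e3 : ({j} : Finset (Fin (q + 1))) ∪ T = insert j T := by rw [insert_eq]
      have e4 : ({i, j} : Finset (Fin (q + 1))) ∪ T = insert j (insert i T) := by
        ext x
        simp only [mem_union, mem_insert, mem_singleton]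
        tauto
      have e5 : c {j} = c {i} := by
        have := hs ∅ (notMem_empty _) (notMem_empty _)
        simpa using this.symm
      rw [e1, e2, e3, e4, e5, ← hs T h1 h2] at hF'
      linarith
    by_cases h1 : i ∈ S <;> by_cases h2 : j ∈ S
    · rw [if_pos h1, if_pos h2, insert_eq_of_mem h1, insert_eq_of_mem h2]
      rw [if_neg (by tauto)]
      linarith
    · rw [if_pos h1, if_neg h2, if_pos (Or.inl ⟨h1, h2⟩)]
      have := hone (S.erase i) (notMem_erase _ _) (fun h => h2 (mem_of_mem_erase h))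
      rw [insert_erase h1] at this
      linarith
    · rw [if_neg h1, if_pos h2, if_pos (Or.inr ⟨h2, h1⟩)]
      have h3 : i ∉ S.erase j := fun h => h1 (mem_of_mem_erase h)
      have := hone (S.erase j) h3 (notMem_erase _ _)
      rw [Finset.insert_comm j i, insert_erase h2, hs _ h3 (notMem_erase _ _), insert_erase h2] at this
      linarith
    · rw [if_neg h1, if_neg h2, erase_eq_of_notMem h1, erase_eq_of_notMem h2]
      rw [if_neg (by tauto)]
      linarith
  have kz : ∀ x, c {x} - (c (if i ∈ ({x} : Finset (Fin (q + 1))) then insert j {x} else ({x} : Finset _).erase j)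
      + c (if j ∈ ({x} : Finset (Fin (q + 1))) then insert i {x} else ({x} : Finset _).erase i)) / 2
      + cut (pr i j (c {i, j} / 2 - c {i})) {x} = 0 := by
    intro x
    rw [cut_pr hij]
    have e5 : c {j} = c {i} := by
      have := hs ∅ (notMem_empty _) (notMem_empty _)
      simpa using this.symm
    by_cases h1 : x = i
    · subst h1
      have h2 : j ∉ ({x} : Finset (Fin (q + 1))) := fun h => hij (mem_singleton.1 h).symm
      rw [if_pos (mem_singleton_self x), if_neg h2,
        if_pos (Or.inl ⟨mem_singleton_self x, h2⟩)]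
      have e6 : insert j ({x} : Finset (Fin (q + 1))) = {x, j} := by
        rw [pair_comm]
      rw [e6, erase_singleton, hc.1]
      ring
    · by_cases h2 : x = j
      · subst h2
        have h3 : i ∉ ({x} : Finset (Fin (q + 1))) := fun h => hij (mem_singleton.1 h)
        rw [if_neg h3, if_pos (mem_singleton_self x),
          if_pos (Or.inr ⟨mem_singleton_self x, h3⟩), erase_singleton, hc.1, e5]
        ring
      · have h3 : i ∉ ({x} : Finset (Fin (q + 1))) := fun h => h1 (mem_singleton.1 h).symm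
        have h4 : j ∉ ({x} : Finset (Fin (q + 1))) := fun h => h2 (mem_singleton.1 h).symm
        rw [if_neg h3, if_neg h4, erase_eq_of_notMem h3, erase_eq_of_notMem h4,
          if_neg (by tauto)]
        ring
  refine ⟨fun x y => pr i j (c {i, j} / 2 - c {i}) x y +
    (push j.succAbove G x y + push (sec i j) G x y) / 2, fun x y => ?_, fun x => ?_, fun S => ?_⟩
  · have : pr i j (c {i, j} / 2 - c {i}) x y = pr i j (c {i, j} / 2 - c {i}) y x := by
      unfold pr
      exact if_congr (by tauto) rfl rfl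
    show pr i j (c {i, j} / 2 - c {i}) x y +
      (push j.succAbove G x y + push (sec i j) G x y) / 2 = pr i j (c {i, j} / 2 - c {i}) y x +
      (push j.succAbove G y x + push (sec i j) G y x) / 2
    rw [this, push_symm _ hG x y, push_symm _ hG x y]
  · rw [cut_add3]
    have := kz x
    have := q1 x
    have := q2 x
    linarith
  · rw [cut_add3]
    have := key S
    have := p1 S
    have := p2 S
    linarith

end Pool.Agent.Run7.h193.TI
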