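import Pool.Agent.Run7.h193.TI1

set_option autoImplicit false

/-!
# Classes of interchangeable marks
-/

namespace Pool.Agent.Run7.h193.TI

open Finset Pool.Agent.NH37.FC Pool.Agent.NH37.SL Pool.Agent.NH37.MF Pool.Agent.NH46.F8
open Pool.Agent.NH37.AF (cut)

variable {n q r : ℕ}

theorem length_bitIndices (s : Finset ℕ) : (Nat.bitIndices (∑ e ∈ s, 2 ^ e)).length = s.card := by
  have h1 : (Nat.bitIndices (∑ e ∈ s, 2 ^ e)).toFinset = s := Finset.toFinset_bitIndices_sum_two_pow s
  have h2 : (Nat.bitIndices (∑ e ∈ s, 2 ^ e)).Nodup := Nat.bitIndices_nodup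
  rw [← List.toFinset_card_of_nodup h2, h1]

theorem count {κ : Fin n → Fin r} {B : Fin q → Finset (Fin n)} (hB : IsPartition B)
    {v : Fin q → Fin r} {k : Fin q → ℕ} (hv : ∀ l, ∀ x ∈ B l, κ x = v l)
    (hk : ∀ l, (B l).card = 2 ^ k l) (hinj : ∀ i j, v i = v j → k i = k j → i = j) :
    ∑ u, (Nat.bitIndices (univ.filter fun x => κ x = u).card).length = q := by
  have h1 : ∀ u, (Nat.bitIndices (univ.filter fun x => κ x = u).card).length =
      (univ.filter fun l => v l = u).card := by
    intro u
    have e1 : (univ.filter fun x => κ x = u) = (univ.filter fun l => v l = u).biUnion B := by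
      ext x
      rw [mem_filter, mem_biUnion]
      constructor
      · rintro ⟨_, hx⟩
        have hx' : x ∈ univ.biUnion B := by rw [hB.2.2]; exact mem_univ x
        obtain ⟨l, _, hl⟩ := mem_biUnion.1 hx'
        exact ⟨l, mem_filter.2 ⟨mem_univ l, (hv l x hl).symm.trans hx⟩, hl⟩
      · rintro ⟨l, hl, hx⟩
        exact ⟨mem_univ x, (hv l x hx).trans (mem_filter.1 hl).2⟩
    have hi : Set.InjOn k ↑(univ.filter fun l => v l = u) := by
      intro i hi j hj hij
      rw [mem_coe, mem_filter] at hi hj
      exact hinj i j (hi.2.trans hj.2.symm) hij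
    rw [e1, card_biUnion (fun i _ j _ h => hB.2.1 i j h), sum_congr rfl fun l _ => hk l,
      ← sum_image (s := univ.filter fun l => v l = u) (g := k) (f := fun e => 2 ^ e) hi,
      length_bitIndices, card_image_of_injOn hi]
  rw [sum_congr rfl fun u _ => h1 u]
  have := card_eq_sum_card_fiberwise (f := v) (s := (univ : Finset (Fin q)))
    (t := (univ : Finset (Fin r))) (fun _ _ => mem_coe.2 (mem_univ _))
  rw [card_univ, Fintype.card_fin] at this
  exact this.symm

theorem mg_eq1 {i j : Fin (q + 1)} {l : Fin q} (h : j.succAbove l = i) : mg i j l = {i, j} := by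
  ext x
  rw [mem_mg, mem_insert, mem_singleton, h]
  tauto

theorem mg_eq2 {i j : Fin (q + 1)} {l : Fin q} (h : j.succAbove l ≠ i) :
    mg i j l = {j.succAbove l} := by
  ext x
  rw [mem_mg, mem_singleton]
  tauto

theorem card_filter_pure {κ : Fin n → Fin r} {X : Finset (Fin n)} {w : Fin r}
    (h : ∀ x ∈ X, κ x = w) (u : Fin r) :
    (X.filter fun x => κ x = u).card = if w = u then X.card else 0 := by
  split_ifs with hw
  · rw [filter_true_of_mem fun x hx => (h x hx).trans hw]
  · rw [card_eq_zero, filter_eq_empty_iff]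
    exact fun x hx h' => hw ((h x hx).symm.trans h')

theorem main (h8 : ∀ m ≤ 8, ∀ c : Finset (Fin m) → ℝ, IsDivisor c → FNef c → Eff c)
    {c : Finset (Fin n) → ℝ} (hc : IsDivisor c) (hF : FNef c) {κ : Fin n → Fin r}
    (hinv : ∀ S S' : Finset (Fin n), (∀ u, (S.filter fun x => κ x = u).card =
      (S'.filter fun x => κ x = u).card) → c S = c S')
    (hsum : ∑ u, (Nat.bitIndices (univ.filter fun x => κ x = u).card).length ≤ 8) :
    ∀ (q : ℕ) (B : Fin q → Finset (Fin n)), IsPartition B → ∀ (v : Fin q → Fin r) (k : Fin q → ℕ),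
      (∀ l, ∀ x ∈ B l, κ x = v l) → (∀ l, (B l).card = 2 ^ k l) →
        Eff fun T => c (T.biUnion B) := by
  intro q
  induction q with
  | zero =>
    intro B hB v k _ _
    have hBw : IsWeak B := ⟨hB.2.1, hB.2.2⟩
    exact h8 0 (by norm_num) _ (pull_isDivisor hc hBw) (pull_fnef hc hF hBw)
  | succ q ih =>
    intro B hB v k hv hk
    have hBw : IsWeak B := ⟨hB.2.1, hB.2.2⟩
    by_cases hq : q + 1 ≤ 8
    · exact h8 _ hq _ (pull_isDivisor hc hBw) (pull_fnef hc hF hBw)
    have hex : ∃ i j, i ≠ j ∧ v i = v j ∧ k i = k j := by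
      by_contra hn
      push Not at hn
      have := count hB hv hk (fun i j h1 h2 => by
        by_contra hij
        exact hn i j hij h1 h2)
      omega
    obtain ⟨i, j, hij, hvij, hkij⟩ := hex
    refine merge (c := fun T => c (T.biUnion B)) (pull_isDivisor hc hBw) (pull_fnef hc hF hBw)
      hij ?_ ?_
    · intro T hi hj
      refine hinv _ _ fun u => ?_
      rw [biUnion_insert, biUnion_insert, filter_union, filter_union,
        card_union_of_disjoint, card_union_of_disjoint, card_filter_pure (hv i),
        card_filter_pure (hv j), hvij, hk i, hk j, hkij]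
      · refine (disjoint_filter_filter ?_)
        rw [disjoint_biUnion_right]
        exact fun l hl => hB.2.1 _ _ fun h => hj (h ▸ hl)
      · refine (disjoint_filter_filter ?_)
        rw [disjoint_biUnion_right]
        exact fun l hl => hB.2.1 _ _ fun h => hi (h ▸ hl)
    · have hmw := mg_weak (q := q) hij
      have e : (fun T : Finset (Fin q) => c ((T.biUnion (mg i j)).biUnion B)) =
          fun T : Finset (Fin q) => c (T.biUnion fun l => (mg i j l).biUnion B) := by
        funext T
        rw [biUnion_biUnion]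
      show Eff fun T : Finset (Fin q) => c ((T.biUnion (mg i j)).biUnion B)
      rw [e]
      refine ih (fun l => (mg i j l).biUnion B) ⟨fun l => ?_, fun l m hlm => ?_, ?_⟩
        (fun l => v (j.succAbove l))
        (fun l => if j.succAbove l = i then k i + 1 else k (j.succAbove l))
        (fun l x hx => ?_) (fun l => ?_)
      · obtain ⟨x, hx⟩ := hB.1 (j.succAbove l)
        exact ⟨x, mem_biUnion.2 ⟨_, mem_mg.2 (Or.inl rfl), hx⟩⟩
      · exact biUnion_disj hBw (hmw.1 l m hlm)
      · rw [← biUnion_biUnion, hmw.2, hB.2.2]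
      · obtain ⟨y, hy, hx⟩ := mem_biUnion.1 hx
        rcases mem_mg.1 hy with h | h
        · rw [← h]
          exact hv y x hx
        · rw [h.1, hvij, ← h.2]
          exact hv y x hx
      · by_cases h : j.succAbove l = i
        · rw [if_pos h, mg_eq1 h, biUnion_insert, singleton_biUnion,
            card_union_of_disjoint (hB.2.1 _ _ hij), hk i, hk j, ← hkij, pow_succ]
          ring
        · rw [if_neg h, mg_eq2 h, singleton_biUnion, hk]

theorem main' (h8 : ∀ m ≤ 8, ∀ c : Finset (Fin m) → ℝ, IsDivisor c → FNef c → Eff c)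
    {c : Finset (Fin n) → ℝ} (hc : IsDivisor c) (hF : FNef c) {κ : Fin n → Fin r}
    (hinv : ∀ S S' : Finset (Fin n), (∀ u, (S.filter fun x => κ x = u).card =
      (S'.filter fun x => κ x = u).card) → c S = c S')
    (hsum : ∑ u, (Nat.bitIndices (univ.filter fun x => κ x = u).card).length ≤ 8) : Eff c := by
  have := main h8 hc hF hinv hsum n (fun l => {l}) ⟨fun i => singleton_nonempty i,
    fun i j h => disjoint_singleton.2 h, by ext x; simp⟩ κ (fun _ => 0)
    (fun l x hx => by rw [mem_singleton.1 hx]) (fun l => by rw [card_singleton, pow_zero])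
  have e : (fun T : Finset (Fin n) => c (T.biUnion fun l => {l})) = c := by
    funext T
    rw [biUnion_singleton_eq_self]
  rw [e] at this
  exact this

end Pool.Agent.Run7.h193.TI
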