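import Pool.Agent.Run7.h193.TI2
import Pool.Agent.NH37.SL.Gauge

set_option autoImplicit false

/-!
# Merging two balanced marks
-/

namespace Pool.Agent.Run7.h193.TI

open Finset Pool.Agent.NH37.FC Pool.Agent.NH37.SL Pool.Agent.NH37.MF Pool.Agent.NH46.F8
open Pool.Agent.NH37.AF (cut cut_compl cut_add)

variable {n q : ℕ}

theorem add_cut_isDivisor {c : Finset (Fin n) → ℝ} (hc : IsDivisor c) {G : Fin n → Fin n → ℝ}
    (hG : ∀ i j, G i j = G j i) : IsDivisor fun S => c S + cut G S := by
  refine ⟨?_, fun S => ?_⟩
  · show c ∅ + cut G ∅ = 0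
    unfold cut
    rw [hc.1, sum_empty, add_zero]
  · show c Sᶜ + cut G Sᶜ = c S + cut G S
    rw [hc.2, cut_compl hG]

theorem add_cut_fnef {c : Finset (Fin n) → ℝ} (hF : FNef c) {G : Fin n → Fin n → ℝ}
    (hG : ∀ i j, G i j = G j i) : FNef fun S => c S + cut G S := by
  intro A B C D hA hB hC hD h1 h2 h3 h4 h5 h6 hu
  have e : cut G A + cut G B + cut G C + cut G D
      = cut G (A ∪ B) + cut G (A ∪ C) + cut G (A ∪ D) := cutf_F (W := G) hG h1 h2 h3 h4 h5 h6 hu
  have := hF A B C D hA hB hC hD h1 h2 h3 h4 h5 h6 hu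
  show c A + cut G A + (c B + cut G B) + (c C + cut G C) + (c D + cut G D) ≤
    c (A ∪ B) + cut G (A ∪ B) + (c (A ∪ C) + cut G (A ∪ C)) + (c (A ∪ D) + cut G (A ∪ D))
  linarith

theorem eff_of_add_cut {c : Finset (Fin n) → ℝ} {G : Fin n → Fin n → ℝ}
    (hG : ∀ i j, G i j = G j i) (h : Eff fun S => c S + cut G S) : Eff c := by
  obtain ⟨H, h1, h2, h3⟩ := h
  refine ⟨fun x y => G x y + H x y, fun x y => ?_, fun i => ?_, fun S => ?_⟩
  · show G x y + H x y = G y x + H y x
    rw [hG x y, h1 x y]
  · rw [cut_add]
    have := h2 i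
    linarith
  · rw [cut_add]
    have := h3 S
    linarith

theorem cut_addt (t : ℝ) (A B C : Fin n → Fin n → ℝ) (S : Finset (Fin n)) :
    cut (fun x y => A x y + ((1 - t) * B x y + t * C x y)) S =
      cut A S + ((1 - t) * cut B S + t * cut C S) := by
  unfold cut
  rw [mul_sum, mul_sum, ← sum_add_distrib, ← sum_add_distrib]
  refine sum_congr rfl fun x _ => ?_
  rw [mul_sum, mul_sum, ← sum_add_distrib, ← sum_add_distrib]

/-- If `i` and `j` are balanced, a divisor is effective boundary if its restriction
to `δ_{i, j}` is. -/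
theorem mergeB {c : Finset (Fin (q + 1)) → ℝ} (hc : IsDivisor c)
    {i j : Fin (q + 1)} (hij : i ≠ j) {t : ℝ} (ht0 : 0 ≤ t) (ht1 : t ≤ 1)
    (b1 : c {i} + t * c {i, j} = c {j} + (1 - t) * c {i, j})
    (b2 : ∀ T, i ∉ T → j ∉ T →
      t * c T + (1 - t) * c (insert i (insert j T)) + c {i} ≤
        c (insert i T) + (1 - t) * c {i, j})
    (h : Eff fun T => c (T.biUnion (mg i j))) : Eff c := by
  obtain ⟨G, hG, hG1, hG2⟩ := h
  have hd0 : c (univ.filter fun l => l ∈ (∅ : Finset (Fin (q + 1)))) = 0 := by
    rw [show (univ.filter fun l => l ∈ (∅ : Finset (Fin (q + 1)))) = ∅ by ext; simp]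
    exact hc.1
  -- the two pullbacks
  have p1 : ∀ S, 0 ≤ c (if i ∈ S then insert j S else S.erase j) + cut (push j.succAbove G) S := by
    intro S
    rw [cut_push, ← pre1 hij]
    exact hG2 _
  have p2 : ∀ S, 0 ≤ c (if j ∈ S then insert i S else S.erase i) + cut (push (sec i j) G) S := by
    intro S
    rw [cut_push, ← pre2 hij]
    exact hG2 _
  have emp : ∀ κ : Fin q → Fin (q + 1), ∀ x, (¬ ∃ l, κ l = x) →
      c ((univ.filter fun l => κ l ∈ ({x} : Finset (Fin (q + 1)))).biUnion (mg i j)) +
        cut G (univ.filter fun l => κ l ∈ ({x} : Finset (Fin (q + 1)))) = 0 := by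
    intro κ x hx
    have e : (univ.filter fun l => κ l ∈ ({x} : Finset (Fin (q + 1)))) = ∅ := by
      rw [filter_eq_empty_iff]
      intro l _ h
      exact hx ⟨l, mem_singleton.1 h⟩
    rw [e, biUnion_empty, hc.1]
    unfold cut
    rw [sum_empty, add_zero]
  have sing : ∀ κ : Fin q → Fin (q + 1), Function.Injective κ → ∀ x,
      c ((univ.filter fun l => κ l ∈ ({x} : Finset (Fin (q + 1)))).biUnion (mg i j)) +
        cut G (univ.filter fun l => κ l ∈ ({x} : Finset (Fin (q + 1)))) = 0 := by
    intro κ hκ x
    by_cases hx : ∃ l, κ l = x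
    · obtain ⟨l, hl⟩ := hx
      have e : (univ.filter fun l => κ l ∈ ({x} : Finset (Fin (q + 1)))) = {l} := by
        ext m
        rw [mem_filter, mem_singleton, mem_singleton]
        constructor
        · intro h
          exact hκ (h.2.trans hl.symm)
        · intro h
          rw [h]
          exact ⟨mem_univ l, hl⟩
      rw [e]
      exact hG1 l
    · exact emp κ x hx
  have q1 : ∀ x, c (if i ∈ ({x} : Finset (Fin (q + 1))) then insert j {x} else ({x} : Finset _).erase j)
      + cut (push j.succAbove G) {x} = 0 := by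
    intro x
    rw [cut_push, ← pre1 hij]
    exact sing _ Fin.succAbove_right_injective x
  have q2 : ∀ x, c (if j ∈ ({x} : Finset (Fin (q + 1))) then insert i {x} else ({x} : Finset _).erase i)
      + cut (push (sec i j) G) {x} = 0 := by
    intro x
    rw [cut_push, ← pre2 hij]
    exact sing _ sec_inj x
  -- the rest
  have key : ∀ S, 0 ≤ c S - ((1 - t) * c (if i ∈ S then insert j S else S.erase j)
      + t * c (if j ∈ S then insert i S else S.erase i))
      + cut (pr i j ((1 - t) * c {i, j} - c {i})) S := by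
    intro S
    rw [cut_pr hij]
    have hone : ∀ T, i ∉ T → j ∉ T →
        0 ≤ c (insert i T) - ((1 - t) * c (insert j (insert i T)) + t * c T)
        + ((1 - t) * c {i, j} - c {i}) := by
      intro T h1 h2
      have := b2 T h1 h2
      rw [Finset.insert_comm i j] at this
      linarith
    have honj : ∀ T, i ∉ T → j ∉ T →
        0 ≤ c (insert j T) - ((1 - t) * c T + t * c (insert i (insert j T)))
        + ((1 - t) * c {i, j} - c {i}) := by
      intro T h1 h2
      have h3 : i ∉ (insert i (insert j T))ᶜ := by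
        rw [mem_compl, not_not]
        exact mem_insert_self _ _
      have h4 : j ∉ (insert i (insert j T))ᶜ := by
        rw [mem_compl, not_not]
        exact mem_insert_of_mem (mem_insert_self _ _)
      have := b2 _ h3 h4
      have e1 : insert i (insert i (insert j T))ᶜ = (insert j T)ᶜ := by
        ext x
        simp only [mem_insert, mem_compl]
        have : x = i → x ∉ T ∧ x ≠ j := fun h => ⟨h ▸ h1, h ▸ hij⟩
        tauto
      have e2 : insert i (insert j (insert i (insert j T))ᶜ) = Tᶜ := by
        ext x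
        simp only [mem_insert, mem_compl]
        have : x = i → x ∉ T := fun h => h ▸ h1
        have : x = j → x ∉ T := fun h => h ▸ h2
        tauto
      rw [e1, e2, hc.2, hc.2, hc.2] at this
      linarith
    by_cases h1 : i ∈ S <;> by_cases h2 : j ∈ S
    · rw [if_pos h1, if_pos h2, insert_eq_of_mem h1, insert_eq_of_mem h2]
      rw [if_neg (by tauto)]
      linarith
    · rw [if_pos h1, if_neg h2, if_pos (Or.inl ⟨h1, h2⟩)]
      have := hone (S.erase i) (notMem_erase _ _) (fun h => h2 (mem_of_mem_erase h))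
      rw [insert_erase h1] at this
      linarith
    · rw [if_neg h1, if_pos h2, if_pos (Or.inr ⟨h2, h1⟩)]
      have h3 : i ∉ S.erase j := fun h => h1 (mem_of_mem_erase h)
      have := honj (S.erase j) h3 (notMem_erase _ _)
      rw [insert_erase h2] at this
      linarith
    · rw [if_neg h1, if_neg h2, erase_eq_of_notMem h1, erase_eq_of_notMem h2]
      rw [if_neg (by tauto)]
      linarith
  have kz : ∀ x, c {x} - ((1 - t) * c (if i ∈ ({x} : Finset (Fin (q + 1))) then insert j {x} else ({x} : Finset _).erase j)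
      + t * c (if j ∈ ({x} : Finset (Fin (q + 1))) then insert i {x} else ({x} : Finset _).erase i))
      + cut (pr i j ((1 - t) * c {i, j} - c {i})) {x} = 0 := by
    intro x
    rw [cut_pr hij]
    have e5 : c {j} = c {i} + t * c {i, j} - (1 - t) * c {i, j} := by linarith
    by_cases h1 : x = i
    · subst h1
      have h2 : j ∉ ({x} : Finset (Fin (q + 1))) := fun h => hij (mem_singleton.1 h).symm
      rw [if_pos (mem_singleton_self x), if_neg h2,
        if_pos (Or.inl ⟨mem_singleton_self x, h2⟩)]
      have e6 : insert j ({x} : Finset (Fin (q + 1))) = {x, j} := by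
        rw [pair_comm]
      rw [e6, erase_singleton, hc.1]
      ring
    · by_cases h2 : x = j
      · subst h2
        have h3 : i ∉ ({x} : Finset (Fin (q + 1))) := fun h => hij (mem_singleton.1 h)
        rw [if_neg h3, if_pos (mem_singleton_self x),
          if_pos (Or.inr ⟨mem_singleton_self x, h3⟩), erase_singleton, hc.1, e5]
        ring
      · have h3 : i ∉ ({x} : Finset (Fin (q + 1))) := fun h => h1 (mem_singleton.1 h).symm
        have h4 : j ∉ ({x} : Finset (Fin (q + 1))) := fun h => h2 (mem_singleton.1 h).symm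
        rw [if_neg h3, if_neg h4, erase_eq_of_notMem h3, erase_eq_of_notMem h4,
          if_neg (by tauto)]
        ring
  refine ⟨fun x y => pr i j ((1 - t) * c {i, j} - c {i}) x y +
    ((1 - t) * push j.succAbove G x y + t * push (sec i j) G x y), fun x y => ?_, fun x => ?_,
      fun S => ?_⟩
  · have : pr i j ((1 - t) * c {i, j} - c {i}) x y = pr i j ((1 - t) * c {i, j} - c {i}) y x := by
      unfold pr
      exact if_congr (by tauto) rfl rfl
    show pr i j ((1 - t) * c {i, j} - c {i}) x y +
      ((1 - t) * push j.succAbove G x y + t * push (sec i j) G x y) =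
        pr i j ((1 - t) * c {i, j} - c {i}) y x +
      ((1 - t) * push j.succAbove G y x + t * push (sec i j) G y x)
    rw [this, push_symm _ hG x y, push_symm _ hG x y]
  · rw [cut_addt]
    have k0 := kz x
    have k1 := q1 x
    have k2 := q2 x
    linear_combination k0 + (1 - t) * k1 + t * k2
  · rw [cut_addt]
    have k0 := key S
    have k1 := mul_nonneg (sub_nonneg.2 ht1) (p1 S)
    have k2 := mul_nonneg ht0 (p2 S)
    linarith

end Pool.Agent.Run7.h193.TI
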